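import Pool.Agent.Helper6K9.OS.Elim
import Pool.Agent.Y890.SM.Main

/-!
# The exceptional points of families with orthogonal and symplectic monodromy lie on few hypersurfaces
-/

set_option autoImplicit false
set_option linter.unusedSectionVars false

open Matrix NumberField Filter

namespace Pool.Agent.Helper6K9.OS

open Pool.Agent.Y890.MV
open Pool.Agent.Y890.SM (Ix bl tpi tpi_ne sp_diff sp_mul poly)
open Pool.Agent.Y890.SP (Qbar ioQ ioQ_coe)
open Pool.Agent.Y124 (Cov)

section Def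

variable {X : Type} [Fintype X] {ι : Type} [Fintype ι] [DecidableEq ι] {n : ι → ℕ}

/-- the relations over `K` of degree at most `k`, with coefficients of size at most `T ^ k`, between the periods at `x`
and the powers of `2 π i`, hold on the torsor -/
def OSFam.Generic (F : OSFam X n) (k : ℕ) (K : Type) [Field K] [NumberField K] (io : K →+* ℂ) (T : ℝ) (x : X → ℂ) :
    Prop :=
  ∀ c : (Ix n → Fin (k + 1)) → Fin k → 𝓞 K, (∀ l a (φ : K →+* ℂ), ‖φ (c l a : K)‖ ≤ T ^ k) →
    poly (fun l a => io (c l a : K)) (fun a => tpi ^ (a : ℕ)) (fun i => F.P i x) = 0 →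
      ∀ p ∈ F.torsor x, poly (fun l a => io (c l a : K)) (fun a => p.2 ^ (a : ℕ)) p.1 = 0

/-- the points of `U` over `K`, of height at most `T`, of norm at most `k` and distance at least `1 / k` from the
complement, which are not generic -/
def OSFam.Exceptional (F : OSFam X n) (k : ℕ) (K : Type) [Field K] [NumberField K] (io : K →+* ℂ) (T : ℝ) :
    Set (X → K) :=
  {e | (∀ j, Y120.HtLe K T (e j)) ∧ (fun j => io (e j)) ∈ InnerM F.U k ∧ ¬ F.Generic k K io T (fun j => io (e j))}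

end Def

variable {X : Type} [Fintype X] [DecidableEq X] {ι : Type} [Fintype ι] [DecidableEq ι] {n : ι → ℕ}

theorem flips (hR : S_REFL) (F : OSFam X n) : Nonempty (Flips F) := by
  classical
  have h1 : ∀ i, ∃ R : Matrix (Fin (n i)) (Fin (n i)) ℚ, R * F.J i * R.transpose = F.J i ∧ R * R = 1 ∧
      (F.orth i = true → R.det = -1) ∧ (F.orth i = false → R = 1) := by
    intro i
    cases h : F.orth i with
    | true =>
      obtain ⟨R, h2, h3, h4⟩ := hR (n i) (F.J i) (F.pos i h) (F.J_sym i h) (F.J_det i)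
      exact ⟨R, h2, h3, fun _ => h4, fun h => by simp at h⟩
    | false => exact ⟨1, by simp, by simp, fun h => by simp at h, fun _ => rfl⟩
  choose R h2 h3 h4 h5 using h1
  exact ⟨⟨R, h2, h3, h4, h5⟩⟩

/-- the field of definition of the polarization -/
theorem exists_K0 (F : OSFam X n) : ∃ K0 : IntermediateField ℚ ℂ, FiniteDimensional ℚ K0 ∧
    ∀ (i : ι) (a b : Fin (n i)) (m : X →₀ ℕ), algebraMap Qbar ℂ ((F.Q i a b).coeff m) ∈ K0 := by
  classical
  set A : Finset ℂ := Finset.univ.biUnion fun i : ι => Finset.univ.biUnion fun a : Fin (n i) =>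
    Finset.univ.biUnion fun b : Fin (n i) => (F.Q i a b).support.image fun m =>
      algebraMap Qbar ℂ ((F.Q i a b).coeff m) with hA
  refine ⟨IntermediateField.adjoin ℚ (A : Set ℂ), ?_, ?_⟩
  · have hA' : Finite (A : Set ℂ) := A.finite_toSet
    refine IntermediateField.finiteDimensional_adjoin fun x hx => ?_
    rw [Finset.mem_coe, hA, Finset.mem_biUnion] at hx
    obtain ⟨i, _, hx⟩ := hx
    rw [Finset.mem_biUnion] at hx
    obtain ⟨a, _, hx⟩ := hx
    rw [Finset.mem_biUnion] at hx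
    obtain ⟨b, _, hx⟩ := hx
    rw [Finset.mem_image] at hx
    obtain ⟨m, _, rfl⟩ := hx
    rw [← isAlgebraic_iff_isIntegral]
    have h1 : IsAlgebraic ℚ ((F.Q i a b).coeff m) := by
      have : Algebra.IsAlgebraic ℚ Qbar := algebraicClosure.isAlgebraic ℚ ℂ
      exact Algebra.IsAlgebraic.isAlgebraic _
    exact h1.algebraMap
  · intro i a b m
    by_cases hm : m ∈ (F.Q i a b).support
    · refine IntermediateField.subset_adjoin ℚ _ ?_
      rw [Finset.mem_coe, hA, Finset.mem_biUnion]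
      refine ⟨i, Finset.mem_univ _, ?_⟩
      rw [Finset.mem_biUnion]
      refine ⟨a, Finset.mem_univ _, ?_⟩
      rw [Finset.mem_biUnion]
      refine ⟨b, Finset.mem_univ _, ?_⟩
      exact Finset.mem_image_of_mem _ hm
    · rw [MvPolynomial.notMem_support_iff.1 hm, map_zero]
      exact zero_mem _

theorem Qx_range (F : OSFam X n) {K : Type} [Field K] [NumberField K] (io : K →+* ℂ)
    (h : ∀ (i : ι) (a b : Fin (n i)) (m : X →₀ ℕ), ∃ c : K, ioQ io c = (F.Q i a b).coeff m) (e : X → K) (i : ι)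
    (a b : Fin (n i)) : ∃ c : K, io c = F.Qx (fun j => io (e j)) i a b := by
  classical
  choose c hc using h i a b
  refine ⟨∑ m ∈ (F.Q i a b).support, c m * ∏ j, e j ^ m j, ?_⟩
  rw [OSFam.Qx, Matrix.map_apply, MvPolynomial.aeval_def, MvPolynomial.eval₂_eq', map_sum]
  refine Finset.sum_congr rfl fun m _ => ?_
  rw [map_mul, ← hc m, ioQ_coe, map_prod]
  simp only [map_pow]

/-- a linear system written with exponents -/
theorem lin_sys {τ : Type} [Fintype τ] [DecidableEq τ] (a c : τ → ℂ) (f : τ → ℂ) :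
    ∑ l : τ → Fin (1 + 1), (∑ m, (if l = Pi.single m 1 then a m else 0) * c m) * ∏ y, f y ^ (l y : ℕ) =
      ∑ m, a m * c m * f m := by
  simp only [Finset.sum_mul]
  rw [Finset.sum_comm]
  refine Finset.sum_congr rfl fun m _ => ?_
  rw [Finset.sum_eq_single (Pi.single m 1)]
  · rw [if_pos rfl, Finset.prod_eq_single m]
    · rw [Pi.single_eq_same]
      simp
    · intro y _ hy
      rw [Pi.single_eq_of_ne hy]
      simp
    · intro h
      exact absurd (Finset.mem_univ _) h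
  · intro l _ hl
    rw [if_neg hl]
    ring
  · intro h
    exact absurd (Finset.mem_univ _) h

/-- **The exceptional points lie on few hypersurfaces.** -/
theorem OSFam.cover [Nonempty X] (hP : S_PATH) (hD : S_DIAG) (hO : S_ONE) (hR : S_REFL) (hE : S_EXT) (hF : S_FULL)
    (hK : S_KAP) (F : OSFam X n) (k : ℕ) (hk : 0 < k) (ε : ℝ) (hε : 0 < ε) :
    ∃ (D : ℕ) (C T₀ : ℝ), 0 ≤ C ∧ 2 ≤ T₀ ∧ ∀ (K : Type) [Field K] [NumberField K], Module.finrank ℚ K ≤ k →
      ∀ (io : K →+* ℂ) (T : ℝ), T₀ ≤ T →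
        Cov D ⌊C * T ^ ε⌋₊ ((fun (e : X → K) j => io (e j)) '' F.Exceptional k K io T) := by
  classical
  obtain ⟨S⟩ := flips hR F
  obtain ⟨K0, hK0, hK0Q⟩ := exists_K0 F
  obtain ⟨A, T₁, hA, hT₁, HK⟩ := hK X ι n F
  let τ : Type := {m : Option (Ix n) →₀ ℕ // m ∈ (Nc F S k k).support}
  set m₀ : τ → ℕ := fun m => (m : Option (Ix n) →₀ ℕ) none with hm₀
  set m₁ : τ → Ix n → ℕ := fun m y => (m : Option (Ix n) →₀ ℕ) (some y) with hm₁
  obtain ⟨d, C₁, A₁, hd0, hC₁, HI⟩ := exists_int_fam (fun m : τ => (Nc F S k k).coeff m)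
  obtain ⟨A₂, hA₂⟩ : ∃ A₂ : ℕ, C₁ ≤ 2 ^ A₂ := by
    obtain ⟨A₂, h⟩ := pow_unbounded_of_one_lt C₁ (one_lt_two)
    exact ⟨A₂, h.le⟩
  set A₃ : ℝ := max k A with hA₃
  have hA₃0 : 0 ≤ A₃ := hA.trans (le_max_right _ _)
  set A₄ : ℝ := A₂ + A₃ * A₁ with hA₄
  have hg : ∀ l : τ, AnalyticOnNhd ℂ (fun x : X → ℂ => S.mono (m₁ l) (fun s => F.f s x)) F.U := by
    intro l
    have h1 : (fun x : X → ℂ => S.mono (m₁ l) (fun s => F.f s x)) =
        fun x => evM F.f x (MvPolynomial.map MvPolynomial.C (S.mm (m₁ l))) := by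
      funext x
      rw [evM, MvPolynomial.eval₂_map, ← S.eval_mm]
      have h2 : (MvPolynomial.eval x).comp MvPolynomial.C = RingHom.id ℂ := RingHom.ext fun a => by simp
      rw [h2]
      rfl
    rw [h1]
    have h3 : ∀ q : Ix n, AnalyticOnNhd ℂ (F.f q) F.U := fun q => F.an q.1 q.2.1 q.2.2
    exact evM_an h3 _
  obtain ⟨D, C, T₂, hC, hT₂, H⟩ := excM_cov stmZ stmClose stmCharts F.conn F.isOpen F.nonempty hg
    (F.reg hP hD hO S m₁) (InnerM F.U k) (innerM_compact _ _) (innerM_sub _ hk) 1 τ Unit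
    (k * Module.finrank ℚ K0) A₄ ε hε
  refine ⟨D, C, max T₁ T₂, hC, hT₂.trans (le_max_right _ _), ?_⟩
  intro K _ _ hKk io T hT
  have hTT₁ : T₁ ≤ T := (le_max_left _ _).trans hT
  have hTT₂ : T₂ ≤ T := (le_max_right _ _).trans hT
  have hT2 : 2 ≤ T := hT₁.trans hTT₁
  have hT1 : 1 ≤ T := by linarith
  have hT0 : 0 < T := by linarith
  obtain ⟨K', _, _, j, io', hjo, hK'0, hfin, hht, hint⟩ := hE K io K0 hK0
  set Ξ : Unit → (τ → Fin (1 + 1)) → τ → ℂ := fun _ l m => if l = Pi.single m 1 then tpi ^ m₀ m else 0 with hΞ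
  refine (H K' (hfin.trans (Nat.mul_le_mul_right _ hKk)) io' Ξ T hTT₂).mono le_rfl le_rfl ?_
  rintro _ ⟨e, he, rfl⟩
  refine ⟨fun i => j (e i), ?_, by simp only [hjo]⟩
  obtain ⟨hee, hin, hgen⟩ := he
  have hze : (fun i => io' (j (e i))) = fun i => io (e i) := by
    funext i
    exact hjo _
  have hzU : (fun i => io' (j (e i))) ∈ F.U := by
    rw [hze]
    exact innerM_sub _ hk hin
  have hcoef : ∀ (i : ι) (a b : Fin (n i)) (m : X →₀ ℕ), ∃ c : K', ioQ io' c = (F.Q i a b).coeff m := by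
    intro i a b m
    obtain ⟨c, hc⟩ := hK'0 _ (hK0Q i a b m)
    refine ⟨c, (algebraMap Qbar ℂ).injective ?_⟩
    rw [ioQ_coe, hc]
  have hee' : ∀ i, Y120.HtLe K' T (j (e i)) := fun i => hht T _ (hee i)
  by_contra hcon
  apply hgen
  intro c hc hc0 p hp
  rw [← hze] at hc0 hp
  -- the coefficients in the larger field
  choose c' hc'j hc'b using fun (l : Ix n → Fin (k + 1)) (a : Fin k) => hint (c l a) (T ^ k) (fun φ => hc l a φ)
  have hcc : ∀ l a, io' (c' l a : K') = io (c l a : K) := by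
    intro l a
    rw [hc'j, hjo]
  have hUV : ∀ T' : Finset ι, ∃ u v : 𝓞 K', (∀ φ : K' →+* ℂ, ‖φ (u : K')‖ ≤ T ^ A₃ ∧ ‖φ (v : K')‖ ≤ T ^ A₃) ∧
      ((∀ i ∈ T', F.orth i = true) → v ≠ 0 ∧ io' (u : K') / io' (v : K') *
        ∏ i ∈ T', (F.P i (fun i => io' (j (e i)))).det =
        (∑ᶠ b ∈ {b : ι → Bool | (∀ i, F.orth i = false → b i = false) ∧ b ∈ F.Sg (fun i => io' (j (e i))) K' io'},
        ∏ i ∈ T', (if b i then (-1 : ℂ) else 1)) * ∏ i ∈ T', tpi ^ (F.w i / 2 * n i)) := by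
    intro T'
    by_cases hT' : ∀ i ∈ T', F.orth i = true
    · obtain ⟨u, v, hv0, hb, hrel⟩ := (HK K' io' hcoef T hTT₁ (fun i => j (e i)) hee' hzU).2 T' hT'
      have h1 : T ^ A ≤ T ^ A₃ := Real.rpow_le_rpow_of_exponent_le hT1 (le_max_right _ _)
      exact ⟨u, v, fun φ => ⟨(hb φ).1.trans h1, (hb φ).2.trans h1⟩, fun _ => ⟨hv0, hrel⟩⟩
    · refine ⟨0, 0, fun φ => ?_, fun h => absurd h hT'⟩
      have h1 : ‖φ ((0 : 𝓞 K') : K')‖ ≤ T ^ A₃ := by
        have e0 : ((0 : 𝓞 K') : K') = 0 := rfl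
        rw [e0, map_zero, norm_zero]
        positivity
      exact ⟨h1, h1⟩
  choose u v huv hrel using hUV
  set s : VV n k k → 𝓞 K' := Sum.elim (fun q => c' q.1 q.2) (fun q => if q.2 then v q.1 else u q.1) with hs
  have hsb : ∀ (q : VV n k k) (φ : K' →+* ℂ), ‖φ (s q : K')‖ ≤ T ^ A₃ := by
    rintro (q | ⟨T', b⟩) φ
    · refine (hc'b q.1 q.2 φ).trans ?_
      rw [← Real.rpow_natCast]
      exact Real.rpow_le_rpow_of_exponent_le hT1 (le_max_left _ _)
    · rw [hs]
      cases b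
      · simp only [Sum.elim_inr, Bool.false_eq_true, if_false]
        exact (huv T' φ).1
      · simp only [Sum.elim_inr, if_true]
        exact (huv T' φ).2
  obtain ⟨y, hy⟩ := HI K' s (T ^ A₃) (Real.one_le_rpow hT1 hA₃0) hsb
  set sC : VV n k k → ℂ := fun q => io' (s q : K') with hsC
  have hyC : ∀ m : τ, io' (y m : K') = d * MvPolynomial.eval₂ (algebraMap ℚ ℂ) sC ((Nc F S k k).coeff m) := by
    intro m
    rw [(hy m).1, map_mul, map_natCast]
    congr 1
    have h1 := MvPolynomial.eval₂_comp_left io' (algebraMap ℚ K') (fun v => (s v : K')) ((Nc F S k k).coeff m)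
    rw [h1]
    have h2 : io'.comp (algebraMap ℚ K') = algebraMap ℚ ℂ := Subsingleton.elim _ _
    rw [h2]
    rfl
  have hkap : KapRel F (fun i => io' (j (e i))) K' io' (fun T => sC (Sum.inr (T, false)))
      (fun T => sC (Sum.inr (T, true))) := by
    intro T' hT'
    obtain ⟨h1, h2⟩ := hrel T' hT'
    refine ⟨?_, h2⟩
    show io' (v T' : K') ≠ 0
    rw [map_ne_zero]
    intro h3
    exact h1 (NumberField.RingOfIntegers.coe_injective h3)
  have hsum : ∀ Y : Ix n → ℂ, ∑ m : τ, tpi ^ m₀ m * io' (y m : K') * S.mono (m₁ m) Y =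
      d * (2 ^ Fintype.card ι * evU sC Y tpi (Nc F S k k)) := by
    intro Y
    rw [← avg_Nc, Finset.mul_sum]
    refine Finset.sum_congr rfl fun m _ => ?_
    rw [hyC]
    ring
  have hPce : ∀ (Y : Ix n → ℂ), evU sC Y tpi (Pc n k k) =
      poly (fun l a => io (c l a : K)) (fun a : Fin k => tpi ^ (a : ℕ)) (fun i => bl Y i) := by
    intro Y
    rw [evU_Pc]
    unfold poly
    refine Finset.sum_congr rfl fun l _ => ?_
    congr 1
    refine Finset.sum_congr rfl fun a _ => ?_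
    show tpi ^ (a : ℕ) * io' (c' l a : K') = tpi ^ (a : ℕ) * io (c l a : K)
    rw [hcc]
  have hpz : evU sC (fun y => F.f y (fun i => io' (j (e i)))) tpi (Pc n k k) = 0 := by
    rw [hPce]
    exact hc0
  -- the point is not exceptional for the invariants
  have hNT : ∀ Y ∈ F.Tor (fun i => io' (j (e i))), evU sC Y tpi (Nc F S k k) = 0 := by
    have hG : ∃ G : τ → MvPolynomial X Qbar,
        (∀ m, MvPolynomial.aeval (fun i => io' (j (e i))) (G m) = io' (y m : K')) ∧
        ∀ x ∈ F.U, SysM (δ := 1) (fun (l : τ) (x : X → ℂ) => S.mono (m₁ l) (fun s => F.f s x)) Ξ x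
          (fun i => MvPolynomial.aeval x (G i)) := by
      by_contra hG
      apply hcon
      refine ⟨hee', ?_, y, ?_, ?_, hG⟩
      · rw [hze]
        exact hin
      · intro m φ
        refine ((hy m).2 φ).trans ?_
        have h1 : (T ^ A₃) ^ A₁ = T ^ (A₃ * A₁) := by
          rw [← Real.rpow_natCast, ← Real.rpow_mul hT0.le]
        rw [h1, hA₄, Real.rpow_add hT0, Real.rpow_natCast]
        refine mul_le_mul_of_nonneg_right (hA₂.trans ?_) (by positivity)
        exact pow_le_pow_left₀ (by norm_num) hT2 _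
      · intro _
        have h1 := lin_sys (fun m : τ => tpi ^ m₀ m) (fun m => io' (y m : K'))
          (fun m => S.mono (m₁ m) (fun s => F.f s (fun i => io' (j (e i)))))
        refine h1.trans ?_
        rw [hsum, Nc_periods hzU sC hkap hpz, mul_zero, mul_zero]
    obtain ⟨G, hG1, hG2⟩ := hG
    intro Y hY
    set Pz : MvPolynomial (Ix n) (MvPolynomial X ℂ) := ∑ m : τ,
      MvPolynomial.C (MvPolynomial.C (tpi ^ m₀ m) * MvPolynomial.map (algebraMap Qbar ℂ) (G m)) *
        MvPolynomial.map MvPolynomial.C (S.mm (m₁ m)) with hPz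
    have hev : ∀ (x : X → ℂ) (Y : Ix n → ℂ), evX x Y Pz =
        ∑ m : τ, tpi ^ m₀ m * MvPolynomial.aeval x (G m) * S.mono (m₁ m) Y := by
      intro x Y
      have h6 : evX x Y Pz = MvPolynomial.eval₂Hom (MvPolynomial.eval x) Y Pz := rfl
      rw [h6, hPz, map_sum]
      refine Finset.sum_congr rfl fun m _ => ?_
      rw [map_mul, MvPolynomial.eval₂Hom_C, map_mul, MvPolynomial.eval_C, MvPolynomial.eval_map]
      congr 1
      rw [MvPolynomial.coe_eval₂Hom, MvPolynomial.eval₂_map, ← S.eval_mm]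
      have h2 : (MvPolynomial.eval x).comp MvPolynomial.C = RingHom.id ℂ := RingHom.ext fun a => by simp
      rw [h2]
      rfl
    have h6 : ∀ x ∈ F.U, evM F.f x Pz = 0 := by
      intro x hx
      have h7 := hG2 x hx ()
      have h8 := lin_sys (fun m : τ => tpi ^ m₀ m) (fun m => MvPolynomial.aeval x (G m))
        (fun m => S.mono (m₁ m) (fun s => F.f s x))
      rw [evM_eq, hev]
      exact h8.symm.trans h7
    have h7 := F.invT Pz h6 _ hzU Y hY
    rw [hev] at h7
    simp only [hG1] at h7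
    rw [hsum] at h7
    have h8 : (d : ℂ) ≠ 0 := by exact_mod_cast hd0
    exact (mul_eq_zero.1 ((mul_eq_zero.1 h7).resolve_left h8)).resolve_left (pow_ne_zero _ two_ne_zero)
  obtain ⟨b, hb, hbv⟩ := Nc_torsor hP hzU sC hkap hNT
  have hfull := hF X ι n F K' io' (fun i => j (e i)) hzU (fun i a b => Qx_range F io' hcoef _ i a b) k k
    (fun l a => (c' l a : K')) b hb ?_ p hp
  · refine Eq.trans ?_ hfull
    unfold poly
    refine Finset.sum_congr rfl fun l _ => ?_
    congr 1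
    refine Finset.sum_congr rfl fun a _ => ?_
    rw [hcc]
  · intro Y hY
    have h1 := hbv Y hY
    rw [evU_Pc] at h1
    exact h1

/-- **The sets of exceptional points.** -/
theorem OSFam.main [Nonempty X] (hP : S_PATH) (hD : S_DIAG) (hO : S_ONE) (hR : S_REFL) (hE : S_EXT) (hF : S_FULL)
    (hK : S_KAP) (F : OSFam X n) :
    ∃ (ω : ℝ → ℕ) (T₀ : ℝ), Tendsto ω atTop atTop ∧ Monotone ω ∧ ∀ T, T₀ ≤ T → 0 < ω T ∧
      ∀ (K : Type) [Field K] [NumberField K], Module.finrank ℚ K ≤ ω T → ∀ (io : K →+* ℂ),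
        Cov ⌊T ^ ((ω T : ℝ)⁻¹)⌋₊ ⌊T ^ ((ω T : ℝ)⁻¹)⌋₊
          ((fun (e : X → K) j => io (e j)) '' F.Exceptional (ω T) K io T) ∧
        (F.Exceptional (ω T) K io T).Finite ∧
        ((F.Exceptional (ω T) K io T).ncard : ℝ) ≤
          T ^ ((ω T : ℝ)⁻¹) * ({x : K | Y120.HtLe K T x}.ncard : ℝ) ^ (Fintype.card X - 1) := by
  classical
  obtain ⟨ω, T₀, h1, h2, h3⟩ := omega_gen (X := X) (fun _ => Unit) (fun k K _ _ io _ T => F.Exceptional k K io T)
    (fun k K _ _ io _ T s hs => hs.1) (by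
      intro k ε hε
      rcases Nat.eq_zero_or_pos k with hk | hk
      · refine ⟨0, 0, 2, le_rfl, le_rfl, ?_⟩
        intro K _ _ hKk
        have h1 : 0 < Module.finrank ℚ K := Module.finrank_pos
        omega
      obtain ⟨D, C, T₀, hC, hT₀, H⟩ := F.cover hP hD hO hR hE hF hK k hk ε hε
      exact ⟨D, C, T₀, hC, hT₀, fun K _ _ hKk io _ T hT => H K hKk io T hT⟩)
  exact ⟨ω, T₀, h1, h2, fun T hT => ⟨(h3 T hT).1, fun K _ _ hKk io => (h3 T hT).2 K hKk io ()⟩⟩

end Pool.Agent.Helper6K9.OS
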