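import Pool.Agent.Y890.SM.Full

/-!
# Families with orthogonal and symplectic monodromy: definitions
-/

set_option autoImplicit false
set_option linter.unusedSectionVars false

open Matrix

namespace Pool.Agent.Helper6K9.OS

open Pool.Agent.Y890.MV
open Pool.Agent.Y890.SM (Ix bl tpi)
open Pool.Agent.Y890.SP (Qbar)

/-- A family over the open set `U` of the space with coordinates indexed by `X`, with orthogonal or symplectic monodromy.
`P i x` are matrices of analytic functions on `U` (periods of bases of algebraic forms over a basis of the homology with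
rational coefficients). `Q i` and `J i` are matrices with coefficients in `ℚ̄[x]` and `ℚ` (the polarization on the
forms and on the homology), symmetric if `orth i` (then the weight `w i` is even) and alternating otherwise, with
`P i * Q i * (P i)ᵀ = (2 π i) ^ w i J i` on `U`. `Γ` is a set of families of rational matrices which preserve the `J i`
(the monodromy), such that the polynomial relations over `ℂ[x]` between the entries of the `P i x` on `U` are relations
between the entries of the `γ i * P i x`, and every polynomial which vanishes on `Γ` vanishes on the product of the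
orthogonal, respectively symplectic groups of the forms `J i`. -/
structure OSFam (X : Type) [Fintype X] {ι : Type} (n : ι → ℕ) where
  U : Set (X → ℂ)
  isOpen : IsOpen U
  conn : IsPreconnected U
  nonempty : U.Nonempty
  P : ∀ i, (X → ℂ) → Matrix (Fin (n i)) (Fin (n i)) ℂ
  an : ∀ i l j, AnalyticOnNhd ℂ (fun x => P i x l j) U
  orth : ι → Bool
  w : ι → ℕ
  w_even : ∀ i, orth i = true → Even (w i)
  pos : ∀ i, orth i = true → 0 < n i
  Q : ∀ i, Matrix (Fin (n i)) (Fin (n i)) (MvPolynomial X Qbar)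
  Q_sym : ∀ i, orth i = true → (Q i).transpose = Q i
  Q_alt : ∀ i, orth i = false → (Q i).transpose = -Q i
  J : ∀ i, Matrix (Fin (n i)) (Fin (n i)) ℚ
  J_sym : ∀ i, orth i = true → (J i).transpose = J i
  J_alt : ∀ i, orth i = false → (J i).transpose = -J i
  J_det : ∀ i, (J i).det ≠ 0
  riemann : ∀ x ∈ U, ∀ i, P i x * (Q i).map (MvPolynomial.aeval x) * (P i x).transpose =
    tpi ^ w i • (J i).map (algebraMap ℚ ℂ)
  Γ : Set (∀ i, Matrix (Fin (n i)) (Fin (n i)) ℚ)
  pres : ∀ γ ∈ Γ, ∀ i, γ i * J i * (γ i).transpose = J i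
  mon : ∀ γ ∈ Γ, ∀ p : MvPolynomial (Ix n) (MvPolynomial X ℂ),
    (∀ x ∈ U, evX x (fun q => P q.1 x q.2.1 q.2.2) p = 0) →
    ∀ x ∈ U, evX x (fun q => ((γ q.1).map (algebraMap ℚ ℂ) * P q.1 x) q.2.1 q.2.2) p = 0
  dense : ∀ R : MvPolynomial (Ix n) ℂ,
    (∀ γ ∈ Γ, MvPolynomial.eval (fun q => ((γ q.1).map (algebraMap ℚ ℂ)) q.2.1 q.2.2) R = 0) →
    ∀ M : ∀ i, Matrix (Fin (n i)) (Fin (n i)) ℂ,
      (∀ i, M i * (J i).map (algebraMap ℚ ℂ) * (M i).transpose = (J i).map (algebraMap ℚ ℂ)) →
      MvPolynomial.eval (fun q => M q.1 q.2.1 q.2.2) R = 0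

variable {X : Type} [Fintype X] {ι : Type} {n : ι → ℕ}

/-- the functions -/
def OSFam.f (F : OSFam X n) (q : Ix n) (x : X → ℂ) : ℂ := F.P q.1 x q.2.1 q.2.2

/-- the values of the matrices of the polarization -/
noncomputable def OSFam.Qx (F : OSFam X n) (x : X → ℂ) (i : ι) : Matrix (Fin (n i)) (Fin (n i)) ℂ :=
  (F.Q i).map (MvPolynomial.aeval x)

/-- the complex form -/
noncomputable def OSFam.Jx (F : OSFam X n) (i : ι) : Matrix (Fin (n i)) (Fin (n i)) ℂ :=
  (F.J i).map (algebraMap ℚ ℂ)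

/-- the torsor with multiplier `2 π i` (all components) -/
def OSFam.Tor (F : OSFam X n) (x : X → ℂ) : Set (Ix n → ℂ) :=
  {Y | ∀ i, bl Y i * F.Qx x i * (bl Y i).transpose = tpi ^ F.w i • F.Jx i}

/-- **The torsor of the periods at `x`**: the `(Y, μ)`, `μ ≠ 0`, with `Y i * Q i(x) * (Y i)ᵀ = μ ^ w i J i` for all `i`,
and `det (Y i) / μ ^ (w i n i / 2) = det (P i x) / (2 π i) ^ (w i n i / 2)` for the orthogonal `i` -/
def OSFam.torsor (F : OSFam X n) (x : X → ℂ) : Set ((∀ i, Matrix (Fin (n i)) (Fin (n i)) ℂ) × ℂ) :=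
  {p | p.2 ≠ 0 ∧ (∀ i, p.1 i * (F.Q i).map (MvPolynomial.aeval x) * (p.1 i).transpose =
      p.2 ^ F.w i • (F.J i).map (algebraMap ℚ ℂ)) ∧
    ∀ i, F.orth i = true → (p.1 i).det * tpi ^ (F.w i / 2 * n i) = (F.P i x).det * p.2 ^ (F.w i / 2 * n i)}

/-- reflections -/
structure Flips (F : OSFam X n) where
  R : ∀ i, Matrix (Fin (n i)) (Fin (n i)) ℚ
  pres : ∀ i, R i * F.J i * (R i).transpose = F.J i
  invol : ∀ i, R i * R i = 1
  det : ∀ i, F.orth i = true → (R i).det = -1
  one : ∀ i, F.orth i = false → R i = 1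

/-- the product of the reflections given by `b` -/
noncomputable def Flips.act {F : OSFam X n} (S : Flips F) (b : ι → Bool) (Y : Ix n → ℂ) (q : Ix n) : ℂ :=
  ((if b q.1 then (S.R q.1).map (algebraMap ℚ ℂ) else 1) * bl Y q.1) q.2.1 q.2.2

end Pool.Agent.Helper6K9.OS
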