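import Pool.Agent.Helper6K9.OS.Leaves

/-!
# Diagonalization of symmetric matrices, reflections
-/

set_option autoImplicit false
set_option linter.unusedSectionVars false

open Matrix

namespace Pool.Agent.Helper6K9.OS

theorem so_diag : S_DIAG := by
  intro R _ _ _ n Q hQ hdet
  classical
  let K := FractionRing R
  have hinj : Function.Injective (algebraMap R K) := IsFractionRing.injective R K
  have : CharZero K := charZero_of_injective_algebraMap hinj
  have : Invertible (2 : K) := invertibleOfNonzero two_ne_zero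
  let QK : Matrix (Fin n) (Fin n) K := Q.map (algebraMap R K)
  have hQK : QK.transpose = QK := by
    change (Q.map (algebraMap R K)).transpose = Q.map (algebraMap R K)
    rw [← Matrix.transpose_map, hQ]
  let B : LinearMap.BilinForm K (Fin n → K) := Matrix.toLinearMap₂' K QK
  have hB : ∀ v w : Fin n → K, B v w = v ⬝ᵥ (QK *ᵥ w) := fun v w => by
    exact Matrix.toLinearMap₂'_apply' QK v w
  have hsym : LinearMap.IsSymm B := by
    refine ⟨fun v w => ?_⟩
    rw [RingHom.id_apply, hB, hB, Matrix.dotProduct_mulVec, ← Matrix.mulVec_transpose, hQK,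
      dotProduct_comm]
  obtain ⟨v₀, hv₀⟩ := LinearMap.BilinForm.exists_orthogonal_basis hsym
  have hfr : Module.finrank K (Fin n → K) = n := by simp
  let e : Fin (Module.finrank K (Fin n → K)) ≃ Fin n := finCongr hfr
  let v : Module.Basis (Fin n) K (Fin n → K) := v₀.reindex e
  have hv : ∀ i j, i ≠ j → B (v i) (v j) = 0 := by
    intro i j hij
    rw [Module.Basis.reindex_apply, Module.Basis.reindex_apply]
    exact hv₀ (fun h => hij (e.symm.injective h))
  let SK : Matrix (Fin n) (Fin n) K := Matrix.of fun i => v i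
  have hSKdet : SK.det ≠ 0 := by
    have h1 : LinearIndependent K (fun i => SK i) := v.linearIndependent
    have h2 := (Matrix.linearIndependent_rows_iff_isUnit (A := SK)).1 h1
    exact ((Matrix.isUnit_iff_isUnit_det _).1 h2).ne_zero
  obtain ⟨b, hb⟩ := IsLocalization.exist_integer_multiples_of_finite (nonZeroDivisors R)
    (fun p : Fin n × Fin n => SK p.1 p.2)
  have hb0 : (b : R) ≠ 0 := nonZeroDivisors.ne_zero b.2
  have hbK : algebraMap R K b ≠ 0 := fun h => hb0 (hinj (by rw [h, map_zero]))
  choose s hs using hb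
  let S : Matrix (Fin n) (Fin n) R := Matrix.of fun i j => s (i, j)
  have hS : S.map (algebraMap R K) = algebraMap R K b • SK := by
    ext i j
    rw [Matrix.map_apply, Matrix.smul_apply]
    have := hs (i, j)
    rw [Algebra.smul_def] at this
    exact this
  have hSdet : S.det ≠ 0 := by
    intro h
    have h1 := congrArg (algebraMap R K) h
    rw [RingHom.map_det, RingHom.mapMatrix_apply, hS, Matrix.det_smul, map_zero] at h1
    exact mul_ne_zero (pow_ne_zero _ hbK) hSKdet h1
  have hent : ∀ i j, i ≠ j → (S * Q * S.transpose) i j = 0 := by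
    intro i j hij
    apply hinj
    rw [map_zero]
    have h1 : (S * Q * S.transpose).map (algebraMap R K) =
        (algebraMap R K b • SK) * QK * (algebraMap R K b • SK).transpose := by
      rw [Matrix.map_mul, Matrix.map_mul, Matrix.transpose_map, hS]
    have h2 := congrFun (congrFun h1 i) j
    rw [Matrix.map_apply] at h2
    rw [h2, Matrix.transpose_smul, Matrix.smul_mul, Matrix.smul_mul, Matrix.mul_smul,
      Matrix.smul_apply, Matrix.smul_apply]
    have h3 : (SK * QK * SK.transpose) i j = B (v i) (v j) := by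
      rw [hB, Matrix.dotProduct_mulVec, Matrix.mul_apply]
      rfl
    rw [h3, hv i j hij, smul_zero, smul_zero]
  refine ⟨S, fun i => (S * Q * S.transpose) i i, hSdet, ?_, ?_⟩
  · have h1 : (S * Q * S.transpose).det ≠ 0 := by
      rw [Matrix.det_mul, Matrix.det_mul, Matrix.det_transpose]
      exact mul_ne_zero (mul_ne_zero hSdet hdet) hSdet
    have h2 : S * Q * S.transpose = Matrix.diagonal fun i => (S * Q * S.transpose) i i := by
      ext i j
      by_cases hij : i = j
      · subst hij; rw [Matrix.diagonal_apply_eq]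
      · rw [Matrix.diagonal_apply_ne _ hij, hent i j hij]
    rw [h2, Matrix.det_diagonal] at h1
    intro j h3
    exact h1 (Finset.prod_eq_zero (Finset.mem_univ j) h3)
  · ext i j
    by_cases hij : i = j
    · subst hij; rw [Matrix.diagonal_apply_eq]
    · rw [Matrix.diagonal_apply_ne _ hij, hent i j hij]

theorem so_one : S_ONE := by
  intro k _ _ _ n Q hQ hdet
  obtain ⟨S, q, hS, hq, h⟩ := so_diag k n Q hQ hdet
  have hr : ∀ j, ∃ r : k, r ^ 2 = (q j)⁻¹ := fun j =>
    IsAlgClosed.exists_pow_nat_eq _ (by norm_num)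
  choose r hr using hr
  have hr0 : ∀ j, r j ≠ 0 := by
    intro j h0
    have := hr j
    rw [h0, zero_pow two_ne_zero] at this
    exact inv_ne_zero (hq j) this.symm
  refine ⟨Matrix.diagonal r * S, ?_, ?_⟩
  · rw [Matrix.det_mul, Matrix.det_diagonal]
    exact mul_ne_zero (Finset.prod_ne_zero_iff.2 fun j _ => hr0 j) hS
  · rw [Matrix.transpose_mul, Matrix.diagonal_transpose]
    have h1 : Matrix.diagonal r * S * Q * (S.transpose * Matrix.diagonal r) =
        Matrix.diagonal r * (S * Q * S.transpose) * Matrix.diagonal r := by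
      simp only [Matrix.mul_assoc]
    rw [h1, h, Matrix.diagonal_mul_diagonal, Matrix.diagonal_mul_diagonal]
    rw [← Matrix.diagonal_one]
    congr 1
    funext j
    have h2 := hr j
    have h3 := hq j
    calc r j * q j * r j = r j ^ 2 * q j := by ring
      _ = 1 := by rw [h2, inv_mul_cancel₀ h3]

theorem so_refl : S_REFL := by
  intro n J hn hJ hdet
  obtain ⟨S, q, hS, hq, h⟩ := so_diag ℚ n J hJ hdet
  have hSu : IsUnit S.det := isUnit_iff_ne_zero.2 hS
  let d : Fin n → ℚ := fun j => if (j : ℕ) = 0 then -1 else 1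
  have hd : ∀ j, d j * d j = 1 := by
    intro j
    simp only [d]
    split_ifs <;> norm_num
  let D : Matrix (Fin n) (Fin n) ℚ := Matrix.diagonal d
  have hDD : D * D = 1 := by
    change Matrix.diagonal d * Matrix.diagonal d = 1
    rw [Matrix.diagonal_mul_diagonal, ← Matrix.diagonal_one]
    congr 1
    funext j
    exact hd j
  have hDdet : D.det = -1 := by
    change (Matrix.diagonal d).det = -1
    rw [Matrix.det_diagonal]
    rw [← Finset.mul_prod_erase Finset.univ d (Finset.mem_univ ⟨0, hn⟩)]
    have h1 : d ⟨0, hn⟩ = -1 := by simp [d]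
    rw [h1, Finset.prod_eq_one, mul_one]
    intro j hj
    have h2 : (j : ℕ) ≠ 0 := fun h0 => (Finset.mem_erase.1 hj).1 (Fin.ext h0)
    simp [d, h2]
  have hJeq : J = S⁻¹ * Matrix.diagonal q * (S⁻¹).transpose := by
    rw [← h, Matrix.transpose_nonsing_inv]
    have h1 : S⁻¹ * (S * J * S.transpose) * (S.transpose)⁻¹ =
        (S⁻¹ * S) * J * (S.transpose * (S.transpose)⁻¹) := by simp only [Matrix.mul_assoc]
    rw [h1, Matrix.nonsing_inv_mul _ hSu, Matrix.mul_nonsing_inv _ (by rwa [Matrix.det_transpose]),
      Matrix.one_mul, Matrix.mul_one]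
  have hDq : D * Matrix.diagonal q * D = Matrix.diagonal q := by
    change Matrix.diagonal d * Matrix.diagonal q * Matrix.diagonal d = _
    rw [Matrix.diagonal_mul_diagonal, Matrix.diagonal_mul_diagonal]
    congr 1
    funext j
    calc d j * q j * d j = q j * (d j * d j) := by ring
      _ = q j := by rw [hd, mul_one]
  have hDt : D.transpose = D := Matrix.diagonal_transpose d
  have hSS : S * S⁻¹ = 1 := Matrix.mul_nonsing_inv _ hSu
  have hSS' : S⁻¹ * S = 1 := Matrix.nonsing_inv_mul _ hSu
  refine ⟨S⁻¹ * D * S, ?_, ?_, ?_⟩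
  · rw [Matrix.transpose_mul, Matrix.transpose_mul, hDt]
    have hSt : (S⁻¹).transpose * S.transpose = 1 := by
      rw [← Matrix.transpose_mul, hSS, Matrix.transpose_one]
    calc S⁻¹ * D * S * J * (S.transpose * (D * (S⁻¹).transpose))
        = S⁻¹ * D * (S * J * S.transpose) * D * (S⁻¹).transpose := by
          simp only [Matrix.mul_assoc]
      _ = S⁻¹ * (D * Matrix.diagonal q * D) * (S⁻¹).transpose := by
          rw [h]; simp only [Matrix.mul_assoc]
      _ = J := by rw [hDq]; exact hJeq.symm
  · calc S⁻¹ * D * S * (S⁻¹ * D * S) = S⁻¹ * D * (S * S⁻¹) * D * S := by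
          simp only [Matrix.mul_assoc]
      _ = S⁻¹ * (D * D) * S := by rw [hSS, Matrix.mul_one, Matrix.mul_assoc S⁻¹ D D]
      _ = 1 := by rw [hDD, Matrix.mul_one, hSS']
  · rw [Matrix.det_mul, Matrix.det_mul, hDdet]
    have h1 : S⁻¹.det * S.det = 1 := by rw [← Matrix.det_mul, hSS', Matrix.det_one]
    linear_combination -h1

end Pool.Agent.Helper6K9.OS
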