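import Pool.Agent.Helper6K9.OS.Fam

/-!
# The elimination polynomial
-/

set_option autoImplicit false
set_option linter.unusedSectionVars false

open Matrix NumberField

namespace Pool.Agent.Helper6K9.OS

open Pool.Agent.Y890.MV
open Pool.Agent.Y890.SM (Ix bl tpi tpi_ne sp_diff sp_mul)
open Pool.Agent.Y890.SP (Qbar ioQ ioQ_coe)

/-! ## Polynomials with rational coefficients at algebraic integers -/

theorem exists_int {V : Type} [Fintype V] (p : MvPolynomial V ℚ) (d : ℕ) (hd : ∀ s ∈ p.support, ∃ z : ℤ, (z : ℚ) = d * p.coeff s) :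
    ∃ C : ℝ, 0 ≤ C ∧ ∀ (K : Type) [Field K] [NumberField K] (s : V → 𝓞 K) (B : ℝ), 1 ≤ B →
      (∀ v (φ : K →+* ℂ), ‖φ (s v : K)‖ ≤ B) → ∃ y : 𝓞 K,
        (y : K) = d * MvPolynomial.eval₂ (algebraMap ℚ K) (fun v => (s v : K)) p ∧
        ∀ φ : K →+* ℂ, ‖φ (y : K)‖ ≤ C * B ^ p.totalDegree := by
  classical
  choose! z hz using hd
  refine ⟨∑ s ∈ p.support, |(z s : ℝ)|, Finset.sum_nonneg fun _ _ => abs_nonneg _, ?_⟩
  intro K _ _ s B hB hs
  have hy : (((∑ t ∈ p.support, (z t : 𝓞 K) * ∏ v, s v ^ t v : 𝓞 K)) : K) =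
      ∑ t ∈ p.support, (z t : K) * ∏ v, (s v : K) ^ t v := by
    show algebraMap (𝓞 K) K _ = _
    rw [map_sum]
    refine Finset.sum_congr rfl fun t _ => ?_
    rw [map_mul, map_intCast, map_prod]
    simp only [map_pow]
  refine ⟨∑ t ∈ p.support, (z t : 𝓞 K) * ∏ v, s v ^ t v, ?_, ?_⟩
  · rw [hy, MvPolynomial.eval₂_eq', Finset.mul_sum]
    refine Finset.sum_congr rfl fun t ht => ?_
    have h1 := congrArg (algebraMap ℚ K) (hz t ht)
    rw [map_mul, map_natCast, map_intCast] at h1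
    rw [h1]
    ring
  · intro φ
    rw [hy, map_sum, Finset.sum_mul]
    refine (norm_sum_le _ _).trans (Finset.sum_le_sum fun t ht => ?_)
    rw [map_mul, map_intCast, map_prod, norm_mul, norm_prod]
    have h1 : ‖(z t : ℂ)‖ = |(z t : ℝ)| := by
      rw [Complex.norm_intCast]
    rw [h1]
    refine mul_le_mul_of_nonneg_left ?_ (abs_nonneg _)
    have h2 : ∏ v, ‖φ ((s v : K) ^ t v)‖ ≤ ∏ v, B ^ t v := by
      refine Finset.prod_le_prod (fun _ _ => norm_nonneg _) fun v _ => ?_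
      rw [map_pow, norm_pow]
      exact pow_le_pow_left₀ (norm_nonneg _) (hs v φ) _
    refine h2.trans ?_
    rw [Finset.prod_pow_eq_pow_sum]
    refine pow_le_pow_right₀ hB ?_
    rw [← Finsupp.degree_eq_sum]
    exact MvPolynomial.le_totalDegree ht

/-- a finite family of polynomials -/
theorem exists_int_fam {V τ : Type} [Fintype V] [Fintype τ] (p : τ → MvPolynomial V ℚ) :
    ∃ (d : ℕ) (C : ℝ) (A : ℕ), d ≠ 0 ∧ 0 ≤ C ∧ ∀ (K : Type) [Field K] [NumberField K] (s : V → 𝓞 K) (B : ℝ), 1 ≤ B →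
      (∀ v (φ : K →+* ℂ), ‖φ (s v : K)‖ ≤ B) → ∃ y : τ → 𝓞 K, ∀ m,
        (y m : K) = d * MvPolynomial.eval₂ (algebraMap ℚ K) (fun v => (s v : K)) (p m) ∧
        ∀ φ : K →+* ℂ, ‖φ (y m : K)‖ ≤ C * B ^ A := by
  classical
  set d : ℕ := ∏ m, ∏ s ∈ (p m).support, ((p m).coeff s).den with hd
  have hd0 : d ≠ 0 := Finset.prod_ne_zero_iff.2 fun m _ => Finset.prod_ne_zero_iff.2 fun s _ => Rat.den_ne_zero _
  have hdz : ∀ m, ∀ s ∈ (p m).support, ∃ z : ℤ, (z : ℚ) = d * (p m).coeff s := by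
    intro m s hs
    have h1 : ((p m).coeff s).den ∣ d :=
      (Finset.dvd_prod_of_mem (fun s => ((p m).coeff s).den) hs).trans
        (Finset.dvd_prod_of_mem (fun m => ∏ s ∈ (p m).support, ((p m).coeff s).den) (Finset.mem_univ m))
    obtain ⟨e, he⟩ := h1
    refine ⟨e * ((p m).coeff s).num, ?_⟩
    rw [he]
    push_cast
    have h3 := Rat.mul_den_eq_num ((p m).coeff s)
    linear_combination (-(e : ℚ)) * h3
  choose C hC H using fun m => exists_int (p m) d (hdz m)
  refine ⟨d, ∑ m, C m, ∑ m, (p m).totalDegree, hd0, Finset.sum_nonneg fun m _ => hC m, ?_⟩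
  intro K _ _ s B hB hs
  choose y hy hyb using fun m => H m K s B hB hs
  refine ⟨y, fun m => ⟨hy m, fun φ => (hyb m φ).trans ?_⟩⟩
  have h1 : C m ≤ ∑ m, C m := Finset.single_le_sum (f := C) (fun m _ => hC m) (Finset.mem_univ m)
  have h2 : (p m).totalDegree ≤ ∑ m, (p m).totalDegree :=
    Finset.single_le_sum (f := fun m => (p m).totalDegree) (fun m _ => Nat.zero_le _) (Finset.mem_univ m)
  exact mul_le_mul h1 (pow_le_pow_right₀ hB h2) (by positivity) (Finset.sum_nonneg fun m _ => hC m)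

variable {X : Type} [Fintype X] [DecidableEq X] {ι : Type} [Fintype ι] [DecidableEq ι] {n : ι → ℕ}

/-! ## Irreducibility of the components -/

theorem OSFam.irr (hP : S_PATH) (F : OSFam X n) {x : X → ℂ} {b : ι → Bool} {β : Type} (B : Finset β)
    (p : β → MvPolynomial (Ix n) ℂ) (hne : (F.Comp b x).Nonempty)
    (hp : ∀ i ∈ B, ∃ Y ∈ F.Comp b x, MvPolynomial.eval Y (p i) ≠ 0) :
    ∃ Y ∈ F.Comp b x, ∏ i ∈ B, MvPolynomial.eval Y (p i) ≠ 0 := by
  classical
  induction B using Finset.induction_on with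
  | empty =>
    obtain ⟨Y, hY⟩ := hne
    exact ⟨Y, hY, by simp⟩
  | insert i B hi ih =>
    obtain ⟨Y₁, hY₁, h₁⟩ := ih (fun j hj => hp j (Finset.mem_insert_of_mem hj))
    obtain ⟨Y₂, hY₂, h₂⟩ := hp i (Finset.mem_insert_self _ _)
    have hdet : ∀ i, F.orth i = true → (bl Y₁ i).det = (bl Y₂ i).det := fun i hi => by
      rw [hY₁.2 i hi, hY₂.2 i hi]
    obtain ⟨γ, q, hq0, hq1, h3, h4, h5⟩ := F.path hP hY₁.1 hY₂.1 hdet
    set p₁ : MvPolynomial (Ix n) ℂ := ∏ j ∈ B, p j with hp₁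
    have hp₁e : ∀ Y, MvPolynomial.eval Y p₁ = ∏ j ∈ B, MvPolynomial.eval Y (p j) := fun Y => map_prod _ _ _
    set M := max p₁.totalDegree (p i).totalDegree with hM
    have hev : ∀ (r : MvPolynomial (Ix n) ℂ), r.totalDegree ≤ M → ∀ t : ℂ, q.eval t ≠ 0 →
        (clg Polynomial.C M γ q r).eval t = q.eval t ^ M * MvPolynomial.eval (fun s => (γ s).eval t / q.eval t) r := by
      intro r hr t ht
      have h6 := clg_map Polynomial.C (Polynomial.evalRingHom t) M γ q r hr ht
      rw [Polynomial.coe_evalRingHom] at h6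
      rw [h6]
      congr 1
      have h7 : (Polynomial.evalRingHom t).comp Polynomial.C = RingHom.id ℂ := RingHom.ext fun y => by simp
      rw [h7]
      rfl
    have hq0' : q.eval 0 ≠ 0 := by rw [hq0]; exact one_ne_zero
    have e0 : (fun s => (γ s).eval 0 / q.eval 0) = Y₁ := by
      funext s
      rw [h3, hq0, div_one]
    have e1 : (fun s => (γ s).eval 1 / q.eval 1) = Y₂ := by
      funext s
      rw [h4, mul_div_cancel_left₀ _ hq1]
    have ha : clg Polynomial.C M γ q p₁ ≠ 0 := by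
      intro h0
      have h6 := hev p₁ (le_max_left _ _) 0 hq0'
      rw [h0, Polynomial.eval_zero, e0, hq0, one_pow, one_mul, hp₁e] at h6
      exact h₁ h6.symm
    have hb : clg Polynomial.C M γ q (p i) ≠ 0 := by
      intro h0
      have h6 := hev (p i) (le_max_right _ _) 1 hq1
      rw [h0, Polynomial.eval_zero, e1] at h6
      exact mul_ne_zero (pow_ne_zero _ hq1) h₂ h6.symm
    have hq : q ≠ 0 := by
      intro h0
      rw [h0, Polynomial.eval_zero] at hq0
      exact zero_ne_one hq0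
    obtain ⟨t, ht⟩ : ∃ t, (clg Polynomial.C M γ q p₁ * clg Polynomial.C M γ q (p i) * q).eval t ≠ 0 := by
      by_contra hcon
      push Not at hcon
      exact mul_ne_zero (mul_ne_zero ha hb) hq (Polynomial.funext fun t => by rw [hcon t, Polynomial.eval_zero])
    rw [Polynomial.eval_mul, Polynomial.eval_mul] at ht
    have ht2 := right_ne_zero_of_mul ht
    have ht1 := left_ne_zero_of_mul ht
    rw [hev p₁ (le_max_left _ _) t ht2, hev (p i) (le_max_right _ _) t ht2] at ht1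
    refine ⟨_, ⟨(h5 t ht2).1, fun j hj => ?_⟩, ?_⟩
    · rw [(h5 t ht2).2 j hj]
      exact hY₁.2 j hj
    · rw [Finset.prod_insert hi, ← hp₁e]
      exact mul_ne_zero (right_ne_zero_of_mul (right_ne_zero_of_mul ht1))
        (right_ne_zero_of_mul (left_ne_zero_of_mul ht1))

/-! ## The universal polynomial -/

section univ

variable (F : OSFam X n) (S : Flips F) (δ h : ℕ)

/-- the variables: the coefficients of the relation, and the numerators and denominators of the `κ_S` -/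
abbrev VV {ι : Type} (n : ι → ℕ) (δ h : ℕ) : Type := ((Ix n → Fin (δ + 1)) × Fin h) ⊕ (Finset ι × Bool)

/-- polynomials in the entries of the matrices and in `2 π i` -/
abbrev PP {ι : Type} (n : ι → ℕ) (δ h : ℕ) : Type := MvPolynomial (Option (Ix n)) (MvPolynomial (VV n δ h) ℚ)

/-- the orthogonal indices -/
def OSFam.O (F : OSFam X n) : Finset ι := Finset.univ.filter fun i => F.orth i = true

/-- half of the weights -/
def OSFam.ms (F : OSFam X n) (T : Finset ι) : ℕ := ∑ i ∈ T, F.w i / 2 * n i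

/-- the relation -/
noncomputable def Pc {ι : Type} [Fintype ι] [DecidableEq ι] (n : ι → ℕ) (δ h : ℕ) : PP n δ h :=
  ∑ l : Ix n → Fin (δ + 1), (∑ a : Fin h, MvPolynomial.X none ^ (a : ℕ) * MvPolynomial.C (MvPolynomial.X (Sum.inl (l, a)))) *
    ∏ y, MvPolynomial.X (some y) ^ (l y : ℕ)

/-- `2 ^ |O| (2 π i) ^ M v` times the idempotent -/
noncomputable def Ec : PP n δ h :=
  ∑ T ∈ F.O.powerset, MvPolynomial.C (MvPolynomial.X (Sum.inr (T, false)) *
    ∏ T' ∈ F.O.powerset.erase T, MvPolynomial.X (Sum.inr (T', true))) * MvPolynomial.X none ^ (F.ms F.O - F.ms T) *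
      ∏ i ∈ T, (Matrix.of fun a b => (MvPolynomial.X (some ⟨i, (a, b)⟩) : PP n δ h)).det

/-- the constant -/
noncomputable def Vc : PP n δ h :=
  MvPolynomial.C (2 ^ F.O.card * ∏ T' ∈ F.O.powerset, MvPolynomial.X (Sum.inr (T', true))) *
    MvPolynomial.X none ^ (F.ms F.O)

/-- the polynomial `W` -/
noncomputable def Wc : PP n δ h := Pc n δ h * Ec F δ h + (Vc F δ h - Ec F δ h)

/-- the matrices of the reflections -/
def Flips.RQ {F : OSFam X n} (S : Flips F) (b : ι → Bool) (i : ι) : Matrix (Fin (n i)) (Fin (n i)) ℚ :=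
  if b i then S.R i else 1

/-- the action of the reflections on polynomials -/
noncomputable def actP {F : OSFam X n} (S : Flips F) (δ h : ℕ) (b : ι → Bool) : PP n δ h →+* PP n δ h :=
  MvPolynomial.eval₂Hom MvPolynomial.C (fun o => o.elim (MvPolynomial.X none)
    (fun y => ∑ k, MvPolynomial.C (MvPolynomial.C (S.RQ b y.1 y.2.1 k)) * MvPolynomial.X (some ⟨y.1, (k, y.2.2)⟩)))

/-- the norm of `W` -/
noncomputable def Nc : PP n δ h := ∏ b : ι → Bool, actP S δ h b (Wc F δ h)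

/-- evaluation -/
noncomputable def evU {ι : Type} {n : ι → ℕ} {δ h : ℕ} (s : VV n δ h → ℂ) (Y : Ix n → ℂ) (t : ℂ) : PP n δ h →+* ℂ :=
  MvPolynomial.eval₂Hom (MvPolynomial.eval₂Hom (algebraMap ℚ ℂ) s) (fun o => o.elim t Y)

variable {δ h}

theorem evU_none (s : VV n δ h → ℂ) (Y : Ix n → ℂ) (t : ℂ) : evU s Y t (MvPolynomial.X none) = t :=
  MvPolynomial.eval₂Hom_X' _ _ _

theorem evU_some (s : VV n δ h → ℂ) (Y : Ix n → ℂ) (t : ℂ) (y : Ix n) : evU s Y t (MvPolynomial.X (some y)) = Y y :=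
  MvPolynomial.eval₂Hom_X' _ _ _

theorem evU_C (s : VV n δ h → ℂ) (Y : Ix n → ℂ) (t : ℂ) (p : MvPolynomial (VV n δ h) ℚ) :
    evU s Y t (MvPolynomial.C p) = MvPolynomial.eval₂Hom (algebraMap ℚ ℂ) s p := MvPolynomial.eval₂Hom_C _ _ _

theorem evU_actP (s : VV n δ h → ℂ) (Y : Ix n → ℂ) (t : ℂ) (b : ι → Bool) (p : PP n δ h) :
    evU s Y t (actP S δ h b p) = evU s (S.act b Y) t p := by
  have h1 : (evU s Y t).comp (actP S δ h b) = evU s (S.act b Y) t := by
    refine MvPolynomial.ringHom_ext (fun a => ?_) ?_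
    · rw [RingHom.comp_apply, actP, MvPolynomial.eval₂Hom_C, evU_C, evU_C]
    · rintro (_ | y)
      · rw [RingHom.comp_apply, actP, MvPolynomial.eval₂Hom_X', Option.elim_none, evU_none, evU_none]
      · rw [RingHom.comp_apply, actP, MvPolynomial.eval₂Hom_X', Option.elim_some, evU_some, map_sum]
        show _ = (S.Rb b y.1 * bl Y y.1) y.2.1 y.2.2
        rw [Matrix.mul_apply]
        refine Finset.sum_congr rfl fun k _ => ?_
        rw [map_mul, evU_C, evU_some, MvPolynomial.eval₂Hom_C]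
        congr 1
        unfold Flips.RQ Flips.Rb
        cases b y.1
        · simp only [Bool.false_eq_true, if_false]
          rw [Matrix.one_apply, Matrix.one_apply]
          split_ifs <;> simp
        · simp only [if_true]
          rfl
  exact congrArg (fun g => g p) h1

theorem evU_Pc (s : VV n δ h → ℂ) (Y : Ix n → ℂ) (t : ℂ) : evU s Y t (Pc n δ h) =
    ∑ l : Ix n → Fin (δ + 1), (∑ a : Fin h, t ^ (a : ℕ) * s (Sum.inl (l, a))) * ∏ y, Y y ^ (l y : ℕ) := by
  unfold Pc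
  simp only [map_sum, map_mul, map_prod, map_pow, evU_none, evU_some, evU_C, MvPolynomial.eval₂Hom_X']

theorem evU_Ec (s : VV n δ h → ℂ) (Y : Ix n → ℂ) (t : ℂ) : evU s Y t (Ec F δ h) =
    ∑ T ∈ F.O.powerset, (s (Sum.inr (T, false)) * ∏ T' ∈ F.O.powerset.erase T, s (Sum.inr (T', true))) *
      t ^ (F.ms F.O - F.ms T) * ∏ i ∈ T, (bl Y i).det := by
  unfold Ec
  rw [map_sum]
  refine Finset.sum_congr rfl fun T _ => ?_
  rw [map_mul, map_mul, evU_C, map_mul, map_prod, map_pow, evU_none, map_prod, MvPolynomial.eval₂Hom_X']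
  congr 1
  · congr 1
    congr 1
    exact Finset.prod_congr rfl fun T' _ => MvPolynomial.eval₂Hom_X' _ _ _
  · refine Finset.prod_congr rfl fun i _ => ?_
    rw [RingHom.map_det]
    congr 1
    ext a b
    exact evU_some _ _ _ _

theorem evU_Vc (s : VV n δ h → ℂ) (Y : Ix n → ℂ) (t : ℂ) : evU s Y t (Vc F δ h) =
    2 ^ F.O.card * (∏ T' ∈ F.O.powerset, s (Sum.inr (T', true))) * t ^ (F.ms F.O) := by
  unfold Vc
  rw [map_mul, evU_C, map_mul, map_pow, map_pow, map_ofNat, map_prod, evU_none]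
  congr 2
  exact Finset.prod_congr rfl fun T' _ => MvPolynomial.eval₂Hom_X' _ _ _

theorem evU_Nc (s : VV n δ h → ℂ) (Y : Ix n → ℂ) (t : ℂ) :
    evU s Y t (Nc F S δ h) = ∏ b : ι → Bool, evU s (S.act b Y) t (Wc F δ h) := by
  unfold Nc
  rw [map_prod]
  exact Finset.prod_congr rfl fun b _ => evU_actP F S s Y t b _

theorem evU_Nc_act (s : VV n δ h → ℂ) (Y : Ix n → ℂ) (t : ℂ) (b : ι → Bool) :
    evU s (S.act b Y) t (Nc F S δ h) = evU s Y t (Nc F S δ h) := by
  rw [evU_Nc, evU_Nc]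
  let e : (ι → Bool) ≃ (ι → Bool) :=
    { toFun := fun b' i => xor (b' i) (b i)
      invFun := fun b' i => xor (b' i) (b i)
      left_inv := fun b' => by funext i; simp
      right_inv := fun b' => by funext i; simp }
  refine Fintype.prod_equiv e _ _ fun b' => ?_
  rw [S.act_act]
  rfl

/-- the expansion -/
theorem evU_eq (s : VV n δ h → ℂ) (Y : Ix n → ℂ) (t : ℂ) (p : PP n δ h) : evU s Y t p =
    ∑ m : p.support, MvPolynomial.eval₂ (algebraMap ℚ ℂ) s (p.coeff m) * t ^ ((m : Option (Ix n) →₀ ℕ) none) *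
      ∏ y, Y y ^ ((m : Option (Ix n) →₀ ℕ) (some y)) := by
  have h1 : evU s Y t p = MvPolynomial.eval₂ (MvPolynomial.eval₂Hom (algebraMap ℚ ℂ) s)
    (fun o => o.elim t Y) p := rfl
  rw [h1, MvPolynomial.eval₂_eq', ← Finset.sum_coe_sort]
  refine Finset.sum_congr rfl fun m _ => ?_
  rw [Fintype.prod_option, ← mul_assoc]
  rfl

/-- the average of the norm -/
theorem avg_Nc (s : VV n δ h → ℂ) (Y : Ix n → ℂ) (t : ℂ) :
    ∑ m : (Nc F S δ h).support, MvPolynomial.eval₂ (algebraMap ℚ ℂ) s ((Nc F S δ h).coeff m) *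
      t ^ ((m : Option (Ix n) →₀ ℕ) none) * S.mono (fun y => (m : Option (Ix n) →₀ ℕ) (some y)) Y =
        2 ^ Fintype.card ι * evU s Y t (Nc F S δ h) := by
  have h1 : ∑ b : ι → Bool, evU s (S.act b Y) t (Nc F S δ h) = 2 ^ Fintype.card ι * evU s Y t (Nc F S δ h) := by
    rw [Finset.sum_congr rfl fun b _ => evU_Nc_act F S s Y t b, Finset.sum_const, Finset.card_univ, nsmul_eq_mul]
    congr 1
    rw [Fintype.card_fun, Fintype.card_bool]
    push_cast
    rfl
  rw [← h1]
  simp only [Flips.mono, Finset.mul_sum]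
  rw [Finset.sum_comm]
  refine Finset.sum_congr rfl fun b _ => ?_
  rw [evU_eq]

/-- specialization of the coefficients and of `t` -/
theorem exists_sp (s : VV n δ h → ℂ) (t : ℂ) (p : PP n δ h) : ∃ q : MvPolynomial (Ix n) ℂ, ∀ Y,
    MvPolynomial.eval Y q = evU s Y t p := by
  let g : PP n δ h →+* MvPolynomial (Ix n) ℂ :=
    MvPolynomial.eval₂Hom (MvPolynomial.C.comp (MvPolynomial.eval₂Hom (algebraMap ℚ ℂ) s))
      (fun o => o.elim (MvPolynomial.C t) MvPolynomial.X)
  refine ⟨g p, fun Y => ?_⟩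
  have h1 : (MvPolynomial.eval Y).comp g = evU s Y t := by
    refine MvPolynomial.ringHom_ext (fun a => ?_) ?_
    · rw [RingHom.comp_apply, MvPolynomial.eval₂Hom_C, RingHom.comp_apply, MvPolynomial.eval_C, evU_C]
    · rintro (_ | y)
      · rw [RingHom.comp_apply, MvPolynomial.eval₂Hom_X', evU_none]
        exact MvPolynomial.eval_C _
      · rw [RingHom.comp_apply, MvPolynomial.eval₂Hom_X', evU_some]
        exact MvPolynomial.eval_X _
  exact congrArg (fun g => g p) h1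

/-! ## The values on the components -/

/-- the sum over the characters -/
theorem char_sum (O : Finset ι) (A : Finset (ι → Bool)) (hA : ∀ b ∈ A, ∀ i, i ∉ O → b i = false) (b' : ι → Bool) :
    ∑ T ∈ O.powerset, (∑ b ∈ A, ∏ i ∈ T, (if b i then (-1 : ℂ) else 1)) * ∏ i ∈ T, (if b' i then (-1 : ℂ) else 1) =
      if (fun i => decide (i ∈ O) && b' i) ∈ A then 2 ^ O.card else 0 := by
  classical
  have h1 : ∀ b : ι → Bool, ∑ T ∈ O.powerset, (∏ i ∈ T, (if b i then (-1 : ℂ) else 1)) *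
      ∏ i ∈ T, (if b' i then (-1 : ℂ) else 1) =
      ∏ i ∈ O, (1 + (if b i then (-1 : ℂ) else 1) * (if b' i then (-1 : ℂ) else 1)) := by
    intro b
    rw [Finset.prod_one_add]
    refine Finset.sum_congr rfl fun T _ => ?_
    rw [Finset.prod_mul_distrib]
  simp only [Finset.sum_mul]
  rw [Finset.sum_comm, Finset.sum_congr rfl fun b _ => h1 b]
  have h2 : ∀ b ∈ A, ∏ i ∈ O, (1 + (if b i then (-1 : ℂ) else 1) * (if b' i then (-1 : ℂ) else 1)) =
      if b = (fun i => decide (i ∈ O) && b' i) then 2 ^ O.card else 0 := by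
    intro b hb
    split_ifs with h
    · rw [← Finset.prod_const]
      refine Finset.prod_congr rfl fun i hi => ?_
      rw [h]
      simp only [hi, decide_true, Bool.true_and]
      cases b' i <;> norm_num
    · have h3 : ∃ i ∈ O, b i ≠ b' i := by
        by_contra hcon
        push Not at hcon
        apply h
        funext i
        by_cases hi : i ∈ O
        · simp [hi, hcon i hi]
        · simp [hi, hA b hb i hi]
      obtain ⟨i, hi, h4⟩ := h3
      refine Finset.prod_eq_zero hi ?_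
      cases h5 : b i <;> cases h6 : b' i <;> simp_all
  rw [Finset.sum_congr rfl h2, Finset.sum_ite_eq']

variable {F}

theorem OSFam.mem_O {i : ι} : i ∈ F.O ↔ F.orth i = true := by
  unfold OSFam.O
  simp

/-- the relation between the numbers `u`, `v` and the determinants of the periods -/
def KapRel (F : OSFam X n) (x : X → ℂ) (K : Type) [Field K] [NumberField K] (io : K →+* ℂ)
    (u v : Finset ι → ℂ) : Prop :=
  ∀ T : Finset ι, (∀ i ∈ T, F.orth i = true) → v T ≠ 0 ∧ u T / v T * ∏ i ∈ T, (F.P i x).det =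
    (∑ᶠ b ∈ {b : ι → Bool | (∀ i, F.orth i = false → b i = false) ∧ b ∈ F.Sg x K io},
      ∏ i ∈ T, (if b i then (-1 : ℂ) else 1)) * ∏ i ∈ T, tpi ^ (F.w i / 2 * n i)

theorem Ec_comp {x : X → ℂ} {K : Type} [Field K] [NumberField K] {io : K →+* ℂ}
    (s : VV n δ h → ℂ) (hs : KapRel F x K io (fun T => s (Sum.inr (T, false))) (fun T => s (Sum.inr (T, true))))
    (b' : ι → Bool) (Y : Ix n → ℂ) (hY : Y ∈ F.Comp b' x) :
    (b' ∈ F.Sg x K io → evU s Y tpi (Ec F δ h) = evU s Y tpi (Vc F δ h)) ∧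
    (b' ∉ F.Sg x K io → evU s Y tpi (Ec F δ h) = 0) := by
  classical
  set A : Finset (ι → Bool) := Finset.univ.filter fun b => (∀ i, F.orth i = false → b i = false) ∧ b ∈ F.Sg x K io
    with hA
  have hset : {b : ι → Bool | (∀ i, F.orth i = false → b i = false) ∧ b ∈ F.Sg x K io} = (A : Set (ι → Bool)) := by
    ext b
    simp [hA]
  have hmO : ∀ T ∈ F.O.powerset, ∀ i ∈ T, F.orth i = true := fun T hT i hi =>
    OSFam.mem_O.1 (Finset.mem_powerset.1 hT hi)
  have h1 : evU s Y tpi (Ec F δ h) = (∏ T' ∈ F.O.powerset, s (Sum.inr (T', true))) * tpi ^ F.ms F.O *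
      ∑ T ∈ F.O.powerset, (∑ b ∈ A, ∏ i ∈ T, (if b i then (-1 : ℂ) else 1)) *
        ∏ i ∈ T, (if b' i then (-1 : ℂ) else 1) := by
    rw [evU_Ec, Finset.mul_sum]
    refine Finset.sum_congr rfl fun T hT => ?_
    obtain ⟨hv, hu⟩ := hs T (hmO T hT)
    rw [hset, finsum_mem_coe_finset] at hu
    have h2 : ∏ i ∈ T, (bl Y i).det = (∏ i ∈ T, (if b' i then (-1 : ℂ) else 1)) * ∏ i ∈ T, (F.P i x).det := by
      rw [← Finset.prod_mul_distrib]
      exact Finset.prod_congr rfl fun i hi => hY.2 i (hmO T hT i hi)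
    have h3 : ∏ i ∈ T, tpi ^ (F.w i / 2 * n i) = tpi ^ F.ms T := by
      rw [Finset.prod_pow_eq_pow_sum]
      rfl
    have h4 : F.ms T ≤ F.ms F.O := by
      unfold OSFam.ms
      exact Finset.sum_le_sum_of_subset (Finset.mem_powerset.1 hT)
    have h5 : tpi ^ F.ms F.O = tpi ^ (F.ms F.O - F.ms T) * tpi ^ F.ms T := by
      rw [← pow_add, Nat.sub_add_cancel h4]
    rw [h3] at hu
    rw [h2, h5, ← Finset.mul_prod_erase _ _ hT]
    have h6 : s (Sum.inr (T, false)) * ∏ i ∈ T, (F.P i x).det = s (Sum.inr (T, true)) *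
        ((∑ b ∈ A, ∏ i ∈ T, (if b i then (-1 : ℂ) else 1)) * tpi ^ F.ms T) := by
      rw [← hu]
      field_simp
    linear_combination (∏ T' ∈ F.O.powerset.erase T, s (Sum.inr (T', true))) * tpi ^ (F.ms F.O - F.ms T) *
      (∏ i ∈ T, (if b' i then (-1 : ℂ) else 1)) * h6
  have h2 : (fun i => decide (i ∈ F.O) && b' i) ∈ A ↔ b' ∈ F.Sg x K io := by
    rw [hA, Finset.mem_filter]
    constructor
    · rintro ⟨_, _, σ, h3, h4⟩
      refine ⟨σ, h3, fun i hi t ht => ?_⟩
      have h5 := h4 i hi t ht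
      simpa [OSFam.mem_O.2 hi] using h5
    · rintro ⟨σ, h3, h4⟩
      refine ⟨Finset.mem_univ _, fun i hi => ?_, σ, h3, fun i hi t ht => ?_⟩
      · have h5 : i ∉ F.O := by
          rw [OSFam.mem_O, hi]
          simp
        simp [h5]
      · have h5 := h4 i hi t ht
        simpa [OSFam.mem_O.2 hi] using h5
  have h3 := char_sum F.O A (fun b hb i hi => by
    rw [hA, Finset.mem_filter] at hb
    refine hb.2.1 i ?_
    rw [OSFam.mem_O] at hi
    exact Bool.eq_false_of_not_eq_true hi) b'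
  rw [h1, h3, evU_Vc]
  refine ⟨fun h4 => ?_, fun h4 => ?_⟩
  · rw [if_pos (h2.2 h4)]
    ring
  · rw [if_neg (fun h5 => h4 (h2.1 h5)), mul_zero]

theorem Vc_ne {x : X → ℂ} {K : Type} [Field K] [NumberField K] {io : K →+* ℂ}
    (s : VV n δ h → ℂ) (hs : KapRel F x K io (fun T => s (Sum.inr (T, false))) (fun T => s (Sum.inr (T, true))))
    (Y : Ix n → ℂ) : evU s Y tpi (Vc F δ h) ≠ 0 := by
  rw [evU_Vc]
  refine mul_ne_zero (mul_ne_zero (pow_ne_zero _ two_ne_zero) ?_) (pow_ne_zero _ tpi_ne)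
  refine Finset.prod_ne_zero_iff.2 fun T hT => (hs T ?_).1
  exact fun i hi => OSFam.mem_O.1 (Finset.mem_powerset.1 hT hi)

variable {S}

theorem zero_mem_Sg (x : X → ℂ) (K : Type) [Field K] [NumberField K] (io : K →+* ℂ) :
    (fun _ => false) ∈ F.Sg x K io :=
  ⟨RingEquiv.refl _, fun _ => rfl, fun _ _ _ _ => by simp⟩

/-- the norm vanishes at the periods -/
theorem Nc_periods {x : X → ℂ} (hx : x ∈ F.U) {K : Type} [Field K] [NumberField K] {io : K →+* ℂ}
    (s : VV n δ h → ℂ) (hs : KapRel F x K io (fun T => s (Sum.inr (T, false))) (fun T => s (Sum.inr (T, true))))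
    (h0 : evU s (fun y => F.f y x) tpi (Pc n δ h) = 0) : evU s (fun y => F.f y x) tpi (Nc F S δ h) = 0 := by
  have h1 : (fun y => F.f y x) ∈ F.Comp (fun _ => false) x := by
    refine ⟨F.self x hx, fun i _ => ?_⟩
    simp only [Bool.false_eq_true, if_false, one_mul]
    rfl
  rw [evU_Nc]
  refine Finset.prod_eq_zero (Finset.mem_univ (fun _ => false)) ?_
  rw [S.act_zero, Wc, map_add, map_sub, map_mul, h0, zero_mul, zero_add,
    (Ec_comp s hs _ _ h1).1 (zero_mem_Sg x K io), sub_self]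

/-- **Vanishing of the norm on the torsor.** -/
theorem Nc_torsor (hP : S_PATH) {x : X → ℂ} (hx : x ∈ F.U) {K : Type} [Field K] [NumberField K] {io : K →+* ℂ}
    (s : VV n δ h → ℂ) (hs : KapRel F x K io (fun T => s (Sum.inr (T, false))) (fun T => s (Sum.inr (T, true))))
    (h0 : ∀ Y ∈ F.Tor x, evU s Y tpi (Nc F S δ h) = 0) :
    ∃ b ∈ F.Sg x K io, ∀ Y ∈ F.Comp b x, evU s Y tpi (Pc n δ h) = 0 := by
  classical
  have h1 : (fun y => F.f y x) ∈ F.Comp (fun _ => false) x := by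
    refine ⟨F.self x hx, fun i _ => ?_⟩
    simp only [Bool.false_eq_true, if_false, one_mul]
    rfl
  choose q hq using fun b : ι → Bool => exists_sp s tpi (actP S δ h b (Wc F δ h))
  have hex : ∃ b : ι → Bool, ∀ Y ∈ F.Comp (fun _ => false) x, MvPolynomial.eval Y (q b) = 0 := by
    by_contra hcon
    push Not at hcon
    obtain ⟨Y, hY, h2⟩ := F.irr hP Finset.univ q ⟨_, h1⟩ (fun b _ => hcon b)
    apply h2
    rw [← h0 Y hY.1, Nc, map_prod]
    exact Finset.prod_congr rfl fun b _ => hq b Y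
  obtain ⟨b, hb⟩ := hex
  have hW : ∀ Y ∈ F.Comp b x, evU s Y tpi (Wc F δ h) = 0 := by
    intro Y hY
    have h2 : S.act b Y ∈ F.Comp (fun _ => false) x := by
      refine ⟨S.act_mem b hY.1, fun i hi => ?_⟩
      rw [S.act_det b Y i hi, hY.2 i hi]
      simp only [Bool.false_eq_true, if_false, one_mul]
      split_ifs <;> ring
    have h3 := hb _ h2
    rw [hq, evU_actP, S.act_self] at h3
    exact h3
  have h2 : S.act b (fun y => F.f y x) ∈ F.Comp b x := by
    refine ⟨S.act_mem b (F.self x hx), fun i hi => ?_⟩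
    rw [S.act_det b _ i hi]
    rfl
  have hbS : b ∈ F.Sg x K io := by
    by_contra hcon
    have h3 := hW _ h2
    rw [Wc, map_add, map_sub, map_mul, (Ec_comp s hs b _ h2).2 hcon, mul_zero, zero_add, sub_zero] at h3
    exact Vc_ne s hs _ h3
  refine ⟨b, hbS, fun Y hY => ?_⟩
  have h3 := hW Y hY
  rw [Wc, map_add, map_sub, map_mul, (Ec_comp s hs b _ hY).1 hbS, sub_self, add_zero] at h3
  exact (mul_eq_zero.1 h3).resolve_right (Vc_ne s hs _)

end univ

end Pool.Agent.Helper6K9.OS
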