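import Pool.Agent.Helper6K9.OS.Leaves

/-!
# Enlarging a number field
-/

set_option autoImplicit false

open NumberField

namespace Pool.Agent.Helper6K9.OS

open Pool.Agent.Y120

/-- the image of an integer -/
theorem ext_int {K K' : Type} [Field K] [NumberField K] [Field K'] [NumberField K'] (j : K →+* K') (a : 𝓞 K) :
    ∃ a' : 𝓞 K', (a' : K') = j a ∧ ∀ B : ℝ, (∀ φ : K →+* ℂ, ‖φ (a : K)‖ ≤ B) → ∀ φ : K' →+* ℂ, ‖φ (a' : K')‖ ≤ B := by
  have h1 : IsIntegral ℤ (j (a : K)) := (RingOfIntegers.isIntegral_coe a).map j.toIntAlgHom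
  refine ⟨⟨j a, h1⟩, rfl, fun B hB φ => ?_⟩
  exact hB (φ.comp j)

theorem ext_house {K K' : Type} [Field K] [NumberField K] [Field K'] [NumberField K'] (j : K →+* K') (x : K) :
    house (j x) ≤ house x :=
  house_le K' (norm_nonneg _) fun φ => house_ge K x (φ.comp j)

theorem ext_ht {K K' : Type} [Field K] [NumberField K] [Field K'] [NumberField K'] (j : K →+* K') (T : ℝ) (x : K)
    (h : HtLe K T x) : HtLe K' T (j x) := by
  obtain ⟨a, b, hb, haT, hbT, rfl⟩ := h
  obtain ⟨a', ha', -⟩ := ext_int j a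
  obtain ⟨b', hb', -⟩ := ext_int j b
  refine ⟨a', b', ?_, ?_, ?_, ?_⟩
  · rintro rfl
    apply hb
    have h1 : j (b : K) = 0 := by
      rw [← hb']
      rfl
    have h2 : (b : K) = 0 := (map_eq_zero j).1 h1
    exact_mod_cast h2
  · rw [ha']
    exact (ext_house j _).trans haT
  · rw [hb']
    exact (ext_house j _).trans hbT
  · rw [map_div₀, ha', hb']

theorem so_ext : S_EXT := by
  intro K _ _ io K0 _
  let E : IntermediateField ℚ ℂ := io.toRatAlgHom.fieldRange
  have hE : ∀ x : K, io x ∈ E := fun x => ⟨x, rfl⟩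
  have e : K ≃ₐ[ℚ] E := AlgEquiv.ofInjectiveField io.toRatAlgHom
  have : FiniteDimensional ℚ E := Module.Finite.equiv e.toLinearEquiv
  have hfr : Module.finrank ℚ E = Module.finrank ℚ K := e.toLinearEquiv.finrank_eq.symm
  have : FiniteDimensional ℚ (E ⊔ K0 : IntermediateField ℚ ℂ) := IntermediateField.finiteDimensional_sup _ _
  let _ : NumberField (E ⊔ K0 : IntermediateField ℚ ℂ) := ⟨⟩
  let j : K →+* (E ⊔ K0 : IntermediateField ℚ ℂ) :=
    io.codRestrict (E ⊔ K0 : IntermediateField ℚ ℂ) fun x => (le_sup_left : E ≤ E ⊔ K0) (hE x)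
  refine ⟨(E ⊔ K0 : IntermediateField ℚ ℂ), inferInstance, inferInstance, j,
    (algebraMap (E ⊔ K0 : IntermediateField ℚ ℂ) ℂ), fun x => rfl, ?_, ?_, ?_, ?_⟩
  · intro a ha
    exact ⟨⟨a, (le_sup_right : K0 ≤ E ⊔ K0) ha⟩, rfl⟩
  · rw [← hfr]
    exact IntermediateField.finrank_sup_le E K0
  · intro T x hx
    exact ext_ht j T x hx
  · intro c B hB
    obtain ⟨c', hc', h⟩ := ext_int j c
    exact ⟨c', hc', h B hB⟩

end Pool.Agent.Helper6K9.OS
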