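import Pool.Agent.Y890.MV.Tor

/-!
# Functions invariant under a finite group: regularity
-/

set_option autoImplicit false
set_option linter.unusedSectionVars false

open NumberField Filter Topology Polynomial

namespace Pool.Agent.Helper6K9.OS

open Pool.Agent.Y890.MV

section clear

variable {R S σ : Type*} [CommRing R] [CommRing S] [Fintype σ]

/-- substitution of fractions with a common denominator -/
noncomputable def clg (φ : R →+* S) (M : ℕ) (v : σ → S) (c : S) (p : MvPolynomial σ R) : S :=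
  ∑ s ∈ p.support, φ (p.coeff s) * (∏ i, v i ^ s i) * c ^ (M - s.degree)

theorem clg_map {k : Type*} [Field k] (φ : R →+* S) (ψ : S →+* k) (M : ℕ) (v : σ → S) (c : S) (p : MvPolynomial σ R)
    (hM : p.totalDegree ≤ M) (hc : ψ c ≠ 0) : ψ (clg φ M v c p) =
      ψ c ^ M * MvPolynomial.eval₂ (ψ.comp φ) (fun i => ψ (v i) / ψ c) p := by
  classical
  rw [MvPolynomial.eval₂_eq', Finset.mul_sum, clg, map_sum]
  refine Finset.sum_congr rfl fun s hs => ?_
  have h1 : s.degree ≤ M := (MvPolynomial.le_totalDegree hs).trans hM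
  have h2 : ψ c ^ M = ψ c ^ (M - s.degree) * ∏ i, ψ c ^ s i := by
    rw [Finset.prod_pow_eq_pow_sum, ← pow_add]
    congr 1
    have h3 : s.degree = ∑ i, s i := Finsupp.degree_eq_sum s
    omega
  rw [map_mul, map_mul, map_prod, map_pow, h2]
  simp only [map_pow, div_pow]
  rw [Finset.prod_div_distrib]
  have h4 : (∏ i, ψ c ^ s i) ≠ 0 := Finset.prod_ne_zero_iff.2 fun i _ => pow_ne_zero _ hc
  field_simp
  rw [RingHom.comp_apply]
  ring

end clear

section signs

variable {R J : Type*} [CommRing R] [Fintype J] [DecidableEq J]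

/-- the even part, squares of the variables being replaced by the elements `q j` -/
noncomputable def evn (q : J → R) (G : MvPolynomial J R) : R :=
  ∑ s ∈ G.support, G.coeff s * ∏ j, if Even (s j) then q j ^ (s j / 2) else 0

theorem evn_sum (φ : R →+* ℂ) (q : J → R) (G : MvPolynomial J R) (e : J → ℂ) (he : ∀ j, e j ^ 2 = φ (q j)) :
    ∑ ε : J → Bool, MvPolynomial.eval₂ φ (fun j => (if ε j then -1 else 1) * e j) G =
      2 ^ Fintype.card J * φ (evn q G) := by
  classical
  have h1 : ∀ ε : J → Bool, MvPolynomial.eval₂ φ (fun j => (if ε j then -1 else 1) * e j) G =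
      ∑ s ∈ G.support, φ (G.coeff s) * ∏ j, (((if ε j then -1 else 1) : ℂ) * e j) ^ s j := fun ε =>
    MvPolynomial.eval₂_eq' _ _ _
  rw [Finset.sum_congr rfl fun ε _ => h1 ε, Finset.sum_comm, evn, map_sum, Finset.mul_sum]
  refine Finset.sum_congr rfl fun s _ => ?_
  rw [← Finset.mul_sum]
  have h2 : ∑ ε : J → Bool, ∏ j, (((if ε j then -1 else 1) : ℂ) * e j) ^ s j =
      ∏ j, ∑ b : Bool, (((if b then -1 else 1) : ℂ) * e j) ^ s j := by
    rw [Finset.prod_univ_sum, Fintype.piFinset_univ]
  have h3 : ∀ j, ∑ b : Bool, (((if b then -1 else 1) : ℂ) * e j) ^ s j =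
      2 * φ (if Even (s j) then q j ^ (s j / 2) else 0) := by
    intro j
    rw [Fintype.sum_bool]
    simp only [if_true, Bool.false_eq_true, if_false, one_mul, neg_mul]
    by_cases h : Even (s j)
    · rw [if_pos h, h.neg_pow, map_pow, ← he, ← pow_mul, Nat.mul_div_cancel' h.two_dvd]
      ring
    · rw [if_neg h, (Nat.not_even_iff_odd.1 h).neg_pow, map_zero]
      ring
  rw [h2, Finset.prod_congr rfl fun j _ => h3 j, Finset.prod_mul_distrib, Finset.prod_const, Finset.card_univ, map_mul,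
    map_prod]
  ring

end signs

/-- **Regularity of functions invariant under a group which permutes the components of the torsor.** -/
theorem reg_inv {X σ τ J : Type} [Fintype X] [DecidableEq X] [Fintype σ] [Fintype τ] [Fintype J] [DecidableEq J]
    {U : Set (X → ℂ)} {f : σ → (X → ℂ) → ℂ} {Tor : (X → ℂ) → Set (σ → ℂ)} (hU : IsPreconnected U)
    (hf : ∀ i, AnalyticOnNhd ℂ (f i) U) (self : ∀ x ∈ U, (fun s => f s x) ∈ Tor x)
    (inv : ∀ p : MvPolynomial σ (MvPolynomial X ℂ), (∀ x ∈ U, evM f x p = 0) → ∀ x ∈ U, ∀ Y ∈ Tor x, evX x Y p = 0)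
    (mm : τ → MvPolynomial σ ℂ)
    (path : ∀ x ∈ U, ∀ Y ∈ Tor x, ∃ (Y' : σ → ℂ) (γ : σ → ℂ[X]) (q : ℂ[X]),
      (∀ l, MvPolynomial.eval Y' (mm l) = MvPolynomial.eval Y (mm l)) ∧ q.eval 0 = 1 ∧ q.eval 1 ≠ 0 ∧
      (∀ s, (γ s).eval 0 = f s x) ∧ (∀ s, (γ s).eval 1 = q.eval 1 * Y' s) ∧
      ∀ t, q.eval t ≠ 0 → (fun s => (γ s).eval t / q.eval t) ∈ Tor x)
    (c : MvPolynomial X ℂ) (hc : c ≠ 0) (q : J → MvPolynomial X ℂ)
    (sec : ∀ x0 ∈ U, MvPolynomial.eval x0 c ≠ 0 → ∀ Y0 ∈ Tor x0,
      ∃ (v : σ → MvPolynomial J (MvPolynomial X ℂ)) (e0 : J → ℂ),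
        (∀ j, e0 j ≠ 0 ∧ e0 j ^ 2 = MvPolynomial.eval x0 (q j)) ∧
        (∀ s, evX x0 e0 (v s) / MvPolynomial.eval x0 c = Y0 s) ∧
        ∀ x ∈ U, MvPolynomial.eval x c ≠ 0 → ∀ e : J → ℂ, (∀ j, e j ^ 2 = MvPolynomial.eval x (q j)) →
          (fun s => evX x e (v s) / MvPolynomial.eval x c) ∈ Tor x) :
    RegularM U (fun (l : τ) (x : X → ℂ) => MvPolynomial.eval (fun s => f s x) (mm l)) := by
  classical
  intro V g P₀ Q₀ R hVo hVne hVU hg hR hQ₀ hPQ₀ hRg
  -- substitution of the invariants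
  set sb : MvPolynomial τ (MvPolynomial X ℂ) →+* MvPolynomial σ (MvPolynomial X ℂ) :=
    MvPolynomial.eval₂Hom MvPolynomial.C (fun l => MvPolynomial.map MvPolynomial.C (mm l)) with hsb
  have hsbe : ∀ (x : X → ℂ) (Y : σ → ℂ) (p : MvPolynomial τ (MvPolynomial X ℂ)),
      evX x Y (sb p) = evX x (fun l => MvPolynomial.eval Y (mm l)) p := by
    intro x Y p
    have h1 : (MvPolynomial.eval₂Hom (MvPolynomial.eval x) Y).comp sb =
        MvPolynomial.eval₂Hom (MvPolynomial.eval x) (fun l => MvPolynomial.eval Y (mm l)) := by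
      refine MvPolynomial.ringHom_ext (fun a => ?_) (fun l => ?_)
      · simp [hsb]
      · rw [RingHom.comp_apply, hsb, MvPolynomial.eval₂Hom_X', MvPolynomial.eval₂Hom_X',
          MvPolynomial.coe_eval₂Hom, MvPolynomial.eval₂_map]
        have h2 : (MvPolynomial.eval x).comp MvPolynomial.C = RingHom.id ℂ := RingHom.ext fun a => by simp
        rw [h2]
        rfl
    exact congrArg (fun g => g p) h1
  set P := sb P₀ with hP
  set Q := sb Q₀ with hQdef
  have hevP : ∀ x, evM f x P = evM (fun (l : τ) (x : X → ℂ) => MvPolynomial.eval (fun s => f s x) (mm l)) x P₀ :=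
    fun x => hsbe x _ _
  have hevQ : ∀ x, evM f x Q = evM (fun (l : τ) (x : X → ℂ) => MvPolynomial.eval (fun s => f s x) (mm l)) x Q₀ :=
    fun x => hsbe x _ _
  have hQ : ∀ x ∈ V, evM f x Q ≠ 0 := by
    intro x hx
    rw [hevQ]
    exact hQ₀ x hx
  have hPQ : ∀ x ∈ V, evM f x Q * g x = evM f x P := by
    intro x hx
    rw [hevQ, hevP]
    exact hPQ₀ x hx
  set N := R.natDegree with hN
  set W : MvPolynomial σ (MvPolynomial X ℂ) :=
    ∑ k ∈ Finset.range (N + 1), MvPolynomial.C (R.coeff k) * P ^ k * Q ^ (N - k) with hW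
  have hWev : ∀ (x : X → ℂ) (Y : σ → ℂ), evX x Y W =
      ∑ k ∈ Finset.range (N + 1), MvPolynomial.eval x (R.coeff k) * evX x Y P ^ k * evX x Y Q ^ (N - k) := by
    intro x Y
    have h1 : ∀ p, evX x Y p = MvPolynomial.eval₂Hom (MvPolynomial.eval x) Y p := fun p => rfl
    simp only [h1, hW, map_sum, map_mul, map_pow, MvPolynomial.eval₂Hom_C]
  have hWV : ∀ x ∈ V, evM f x W = 0 := by
    intro x hx
    rw [evM_eq, hWev]
    have h1 : evX x (fun i => f i x) P = evX x (fun i => f i x) Q * g x := (hPQ x hx).symm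
    have h2 := hRg x hx
    rw [Polynomial.eval_map, Polynomial.eval₂_eq_sum_range] at h2
    calc ∑ k ∈ Finset.range (N + 1), MvPolynomial.eval x (R.coeff k) * evX x (fun i => f i x) P ^ k *
          evX x (fun i => f i x) Q ^ (N - k)
        = evX x (fun i => f i x) Q ^ N * ∑ k ∈ Finset.range (N + 1), MvPolynomial.eval x (R.coeff k) * g x ^ k := by
          rw [Finset.mul_sum]
          refine Finset.sum_congr rfl fun k hk => ?_
          have hk' : k ≤ N := Nat.lt_succ_iff.1 (Finset.mem_range.1 hk)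
          have h3 : evX x (fun i => f i x) Q ^ N =
              evX x (fun i => f i x) Q ^ (N - k) * evX x (fun i => f i x) Q ^ k := by
            rw [← pow_add, Nat.sub_add_cancel hk']
          rw [h1, h3, mul_pow]
          ring
      _ = 0 := by rw [h2, mul_zero]
  have hWU : ∀ x ∈ U, evM f x W = 0 := by
    obtain ⟨x0, hx0⟩ := hVne
    have h1 : (fun x => evM f x W) =ᶠ[𝓝 x0] 0 := by
      filter_upwards [hVo.mem_nhds hx0] with x hx
      exact hWV x hx
    exact (evM_an hf W).eqOn_zero_of_preconnected_of_eventuallyEq_zero hU (hVU hx0) h1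
  have hWT := inv W hWU
  -- on `Tor x` the quotient is constant
  have hconst : ∀ x ∈ V, MvPolynomial.eval x R.leadingCoeff ≠ 0 → ∀ Y ∈ Tor x, evX x Y P = g x * evX x Y Q := by
    intro x hx hr Y hY
    obtain ⟨Y', γ, d, hmm, hd0, hd1, h0, h1, h2⟩ := path x (hVU hx) Y hY
    set M := max P.totalDegree Q.totalDegree with hM
    set a : ℂ[X] := clg (C.comp (MvPolynomial.eval x)) M γ d P with ha
    set b : ℂ[X] := clg (C.comp (MvPolynomial.eval x)) M γ d Q with hb
    have hev : ∀ (p : MvPolynomial σ (MvPolynomial X ℂ)), p.totalDegree ≤ M → ∀ (t : ℂ), d.eval t ≠ 0 →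
        (clg (C.comp (MvPolynomial.eval x)) M γ d p).eval t =
          d.eval t ^ M * evX x (fun s => (γ s).eval t / d.eval t) p := by
      intro p hp t ht
      have h3 := clg_map (C.comp (MvPolynomial.eval x)) (Polynomial.evalRingHom t) M γ d p hp ht
      rw [Polynomial.coe_evalRingHom] at h3
      rw [h3, evX]
      congr 2
      exact RingHom.ext fun y => by simp
    have hd0' : d.eval 0 ≠ 0 := by rw [hd0]; exact one_ne_zero
    have h00 : (fun s => (γ s).eval 0 / d.eval 0) = fun s => f s x := by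
      funext s
      rw [h0, hd0, div_one]
    have h11 : (fun s => (γ s).eval 1 / d.eval 1) = Y' := by
      funext s
      rw [h1, mul_div_cancel_left₀ _ hd1]
    have hd : d ≠ 0 := by
      intro h3
      rw [h3, Polynomial.eval_zero] at hd0
      exact zero_ne_one hd0
    have hb0 : b ≠ 0 := by
      intro h3
      have h4 := hev Q (le_max_right _ _) 0 hd0'
      rw [← hb, h3, Polynomial.eval_zero, h00, hd0, one_pow, one_mul] at h4
      exact hQ x hx h4.symm
    obtain ⟨r, hr'⟩ := const_ratio (a := a) hb0 N (fun k => MvPolynomial.eval x (R.coeff k)) hr (by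
      have h3 : d * ∑ k ∈ Finset.range (N + 1), C (MvPolynomial.eval x (R.coeff k)) * a ^ k * b ^ (N - k) = 0 := by
        refine Polynomial.funext fun t => ?_
        rw [Polynomial.eval_zero, Polynomial.eval_mul]
        by_cases ht : d.eval t = 0
        · rw [ht, zero_mul]
        rw [Polynomial.eval_finsetSum]
        have h4 := hWT x (hVU hx) _ (h2 t ht)
        rw [hWev] at h4
        have h5 : ∑ k ∈ Finset.range (N + 1), Polynomial.eval t (C (MvPolynomial.eval x (R.coeff k)) * a ^ k *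
            b ^ (N - k)) = (d.eval t ^ M) ^ N * ∑ k ∈ Finset.range (N + 1), MvPolynomial.eval x (R.coeff k) *
              evX x (fun s => (γ s).eval t / d.eval t) P ^ k * evX x (fun s => (γ s).eval t / d.eval t) Q ^ (N - k) := by
          rw [Finset.mul_sum]
          refine Finset.sum_congr rfl fun k hk => ?_
          have hk' : k ≤ N := Nat.lt_succ_iff.1 (Finset.mem_range.1 hk)
          have h6 : (d.eval t ^ M) ^ N = (d.eval t ^ M) ^ (N - k) * (d.eval t ^ M) ^ k := by
            rw [← pow_add, Nat.sub_add_cancel hk']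
          rw [Polynomial.eval_mul, Polynomial.eval_mul, Polynomial.eval_pow, Polynomial.eval_pow, Polynomial.eval_C,
            ha, hb, hev P (le_max_left _ _) t ht, hev Q (le_max_right _ _) t ht, h6, mul_pow, mul_pow]
          ring
        rw [h5, h4, mul_zero, mul_zero]
      exact (mul_eq_zero.1 h3).resolve_left hd)
    have h3 := congrArg (Polynomial.eval 0) hr'
    have h4 := congrArg (Polynomial.eval 1) hr'
    rw [Polynomial.eval_mul, Polynomial.eval_C, ha, hb, hev P (le_max_left _ _) _ hd0',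
      hev Q (le_max_right _ _) _ hd0', h00, hd0, one_pow, one_mul, one_mul] at h3
    rw [Polynomial.eval_mul, Polynomial.eval_C, ha, hb, hev P (le_max_left _ _) _ hd1,
      hev Q (le_max_right _ _) _ hd1, h11] at h4
    have h5 : r = g x := by
      have h6 := hPQ x hx
      rw [evM_eq, evM_eq, h3, mul_comm] at h6
      exact (mul_right_cancel₀ (hQ x hx) h6).symm
    have h7 : evX x Y' P = g x * evX x Y' Q := by
      have h8 : d.eval 1 ^ M ≠ 0 := pow_ne_zero _ hd1
      refine mul_left_cancel₀ h8 ?_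
      rw [h4, h5]
      ring
    have h8 : ∀ p, evX x Y (sb p) = evX x Y' (sb p) := by
      intro p
      rw [hsbe, hsbe]
      congr 1
      funext l
      exact (hmm l).symm
    rw [hP, hQdef, h8, h8]
    exact h7
  have hcr : c * R.leadingCoeff ≠ 0 := mul_ne_zero hc (Polynomial.leadingCoeff_ne_zero.2 hR)
  obtain ⟨x0, hx0, hx0'⟩ : ∃ x0 ∈ V, MvPolynomial.eval x0 (c * R.leadingCoeff) ≠ 0 := by
    by_contra hcon
    push Not at hcon
    exact hcr (poly_zero hVo hVne _ hcon)
  rw [map_mul, mul_ne_zero_iff] at hx0'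
  obtain ⟨v, e0, he0, hv0, hv⟩ := sec x0 (hVU hx0) hx0'.1 _ (self x0 (hVU hx0))
  set M := max P.totalDegree Q.totalDegree with hM
  let CC : MvPolynomial X ℂ →+* MvPolynomial J (MvPolynomial X ℂ) := MvPolynomial.C
  set Pt : MvPolynomial J (MvPolynomial X ℂ) := clg CC M v (MvPolynomial.C c) P with hPt
  set Qt : MvPolynomial J (MvPolynomial X ℂ) := clg CC M v (MvPolynomial.C c) Q with hQt
  set mt : MvPolynomial J (MvPolynomial X ℂ) := ∏ j, (MvPolynomial.X j + MvPolynomial.C (MvPolynomial.C (e0 j)))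
    with hmt
  have hcl : ∀ (p : MvPolynomial σ (MvPolynomial X ℂ)), p.totalDegree ≤ M → ∀ (x : X → ℂ) (e : J → ℂ),
      MvPolynomial.eval x c ≠ 0 → evX x e (clg CC M v (MvPolynomial.C c) p) =
        MvPolynomial.eval x c ^ M * evX x (fun s => evX x e (v s) / MvPolynomial.eval x c) p := by
    intro p hp x e hxc
    have h1 := clg_map CC (MvPolynomial.eval₂Hom (MvPolynomial.eval x) e) M v (MvPolynomial.C c) p hp (by
      rw [MvPolynomial.eval₂Hom_C]
      exact hxc)
    rw [MvPolynomial.eval₂Hom_C] at h1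
    have h2 : (MvPolynomial.eval₂Hom (MvPolynomial.eval x) e).comp CC = MvPolynomial.eval x :=
      RingHom.ext fun a => MvPolynomial.eval₂Hom_C _ _ _
    rw [h2] at h1
    exact h1
  have hmte : ∀ (x : X → ℂ) (e : J → ℂ), evX x e mt = ∏ j, (e j + e0 j) := by
    intro x e
    have h1 : evX x e mt = MvPolynomial.eval₂Hom (MvPolynomial.eval x) e mt := rfl
    rw [h1, hmt, map_prod]
    refine Finset.prod_congr rfl fun j _ => ?_
    rw [map_add, MvPolynomial.eval₂Hom_X', MvPolynomial.eval₂Hom_C, MvPolynomial.eval_C]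
  have hmul : ∀ (x : X → ℂ) (e : J → ℂ) (p p' : MvPolynomial J (MvPolynomial X ℂ)),
      evX x e (p * p') = evX x e p * evX x e p' := fun x e p p' => MvPolynomial.eval₂_mul _ _
  refine ⟨evn q (Pt * mt), evn q (Qt * mt), ?_, ?_⟩
  · intro h0
    have h1 := evn_sum (MvPolynomial.eval x0) q (Qt * mt) e0 (fun j => (he0 j).2)
    rw [h0, map_zero, mul_zero] at h1
    have h2 : ∀ ε : J → Bool, MvPolynomial.eval₂ (MvPolynomial.eval x0) (fun j => (if ε j then -1 else 1) * e0 j)
        (Qt * mt) = evX x0 (fun j => (if ε j then -1 else 1) * e0 j) (Qt * mt) := fun ε => rfl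
    rw [Finset.sum_eq_single (fun _ => false)] at h1
    · rw [h2, hmul, hmte] at h1
      simp only [Bool.false_eq_true, if_false, one_mul] at h1
      have h3 : (fun s => evX x0 e0 (v s) / MvPolynomial.eval x0 c) = fun s => f s x0 := funext hv0
      rw [hcl Q (le_max_right _ _) x0 e0 hx0'.1, h3] at h1
      refine mul_ne_zero (mul_ne_zero (pow_ne_zero _ hx0'.1) (hQ x0 hx0)) ?_ h1
      refine Finset.prod_ne_zero_iff.2 fun j _ => ?_
      rw [← two_mul]
      exact mul_ne_zero two_ne_zero (he0 j).1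
    · intro ε _ hε
      have h3 : ∃ j, ε j = true := by
        by_contra hcon
        push Not at hcon
        apply hε
        funext j
        exact Bool.eq_false_of_not_eq_true (hcon j)
      obtain ⟨j, hj⟩ := h3
      rw [h2, hmul, hmte, Finset.prod_eq_zero (Finset.mem_univ j) (by rw [hj]; simp), mul_zero]
    · intro h
      exact absurd (Finset.mem_univ _) h
  · intro x hx
    by_contra hne
    have hcont : ContinuousOn (fun x => MvPolynomial.eval x (evn q (Qt * mt)) * g x -
        MvPolynomial.eval x (evn q (Pt * mt))) V :=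
      ((MvPolynomial.continuous_eval _).continuousOn.mul hg.continuousOn).sub
        (MvPolynomial.continuous_eval _).continuousOn
    have h1 : ∀ᶠ y in 𝓝 x, MvPolynomial.eval y (evn q (Qt * mt)) * g y - MvPolynomial.eval y (evn q (Pt * mt)) ≠ 0 :=
      (hcont.continuousAt (hVo.mem_nhds hx)).eventually_ne (sub_ne_zero.2 hne)
    obtain ⟨O, hO, hOo, hxO⟩ := eventually_nhds_iff.1 (h1.and (hVo.mem_nhds hx))
    apply hcr
    refine poly_zero hOo ⟨x, hxO⟩ _ fun y hy => ?_
    by_contra hy0
    rw [map_mul, mul_eq_zero, not_or] at hy0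
    obtain ⟨h2, h3⟩ := hO y hy
    apply h2
    -- square roots
    have hsq : ∀ j, ∃ z : ℂ, z ^ 2 = MvPolynomial.eval y (q j) := fun j =>
      IsAlgClosed.exists_pow_nat_eq _ two_pos
    choose e he using hsq
    have h4 := evn_sum (MvPolynomial.eval y) q (Qt * mt) e he
    have h5 := evn_sum (MvPolynomial.eval y) q (Pt * mt) e he
    have h6 : ∀ ε : J → Bool, ∀ j, ((if ε j then -1 else 1) * e j) ^ 2 = MvPolynomial.eval y (q j) := by
      intro ε j
      rw [← he j]
      split_ifs <;> ring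
    have h7 : ∀ ε : J → Bool, MvPolynomial.eval₂ (MvPolynomial.eval y) (fun j => (if ε j then -1 else 1) * e j)
        (Pt * mt) = g y * MvPolynomial.eval₂ (MvPolynomial.eval y) (fun j => (if ε j then -1 else 1) * e j)
        (Qt * mt) := by
      intro ε
      change evX y _ (Pt * mt) = g y * evX y _ (Qt * mt)
      rw [hmul, hmul, hcl P (le_max_left _ _) y _ hy0.1, hcl Q (le_max_right _ _) y _ hy0.1,
        hconst y h3 hy0.2 _ (hv y (hVU h3) hy0.1 _ (h6 ε))]
      ring
    rw [Finset.sum_congr rfl fun ε _ => h7 ε, ← Finset.mul_sum, h4] at h5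
    have h8 : (2 : ℂ) ^ Fintype.card J ≠ 0 := pow_ne_zero _ two_ne_zero
    rw [sub_eq_zero]
    refine mul_left_cancel₀ h8 ?_
    rw [← h5]
    ring

end Pool.Agent.Helper6K9.OS
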