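import Pool.Agent.Helper6K9.OS.Leaves
import Pool.Agent.Helper6K9.OS.Reg

/-!
# Families with orthogonal and symplectic monodromy: paths, reflections, sections
-/

set_option autoImplicit false
set_option linter.unusedSectionVars false

open Matrix

namespace Pool.Agent.Helper6K9.OS

open Pool.Agent.Y890.MV
open Pool.Agent.Y890.SM (Ix bl tpi tpi_ne sp_diff sp_mul sp_path diag_of_alt)
open Pool.Agent.Y890.SP (Qbar ioQ ioQ_coe)

variable {X : Type} [Fintype X] [DecidableEq X] {ι : Type} [Fintype ι] [DecidableEq ι] {n : ι → ℕ}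

theorem OSFam.Jx_det (F : OSFam X n) (i : ι) : (F.Jx i).det ≠ 0 := by
  intro h0
  have h1 : (F.Jx i).det = algebraMap ℚ ℂ (F.J i).det := (RingHom.map_det (algebraMap ℚ ℂ) (F.J i)).symm
  rw [h1, map_eq_zero] at h0
  exact F.J_det i h0

theorem OSFam.Jx_alt (F : OSFam X n) (i : ι) (h : F.orth i = false) : (F.Jx i).transpose = -F.Jx i := by
  unfold OSFam.Jx
  rw [← Matrix.transpose_map, F.J_alt i h]
  ext a b
  simp

theorem OSFam.Jx_sym (F : OSFam X n) (i : ι) (h : F.orth i = true) : (F.Jx i).transpose = F.Jx i := by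
  unfold OSFam.Jx
  rw [← Matrix.transpose_map, F.J_sym i h]

theorem OSFam.Qx_det (F : OSFam X n) {x : X → ℂ} (hx : x ∈ F.U) (i : ι) : (F.Qx x i).det ≠ 0 := by
  intro h0
  have h1 := congrArg Matrix.det (F.riemann x hx i)
  have h2 : ((F.Q i).map (MvPolynomial.aeval x)).det = 0 := h0
  rw [Matrix.det_mul, Matrix.det_mul, h2, mul_zero, zero_mul, Matrix.det_smul] at h1
  exact mul_ne_zero (pow_ne_zero _ (pow_ne_zero _ tpi_ne)) (F.Jx_det i) h1.symm

/-- substitution of a linear expression in new variables -/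
noncomputable def sub (F : OSFam X n) (x : X → ℂ) (p : MvPolynomial (Ix n) (MvPolynomial X ℂ)) :
    MvPolynomial (Ix n) ℂ :=
  MvPolynomial.eval₂ ((MvPolynomial.C).comp (MvPolynomial.eval x)) (fun q => ∑ k, MvPolynomial.X ⟨q.1, (q.2.1, k)⟩ *
    MvPolynomial.C (F.P q.1 x k q.2.2)) p

theorem sub_eval (F : OSFam X n) (x : X → ℂ) (p : MvPolynomial (Ix n) (MvPolynomial X ℂ))
    (M : ∀ i, Matrix (Fin (n i)) (Fin (n i)) ℂ) : MvPolynomial.eval (fun q => M q.1 q.2.1 q.2.2) (sub F x p) =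
      evX x (fun q => (M q.1 * F.P q.1 x) q.2.1 q.2.2) p := by
  unfold sub evX
  rw [MvPolynomial.hom_eval₂]
  congr 1
  · ext a
    · simp
    · simp
  · funext q
    simp [Matrix.mul_apply]

theorem OSFam.inv (F : OSFam X n) (p : MvPolynomial (Ix n) (MvPolynomial X ℂ))
    (hp : ∀ x ∈ F.U, evM F.f x p = 0) (x : X → ℂ) (hx : x ∈ F.U) (M : ∀ i, Matrix (Fin (n i)) (Fin (n i)) ℂ)
    (hM : ∀ i, M i * F.Jx i * (M i).transpose = F.Jx i) :
    evX x (fun q => (M q.1 * F.P q.1 x) q.2.1 q.2.2) p = 0 := by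
  rw [← sub_eval]
  refine F.dense _ ?_ M hM
  intro γ hγ
  rw [sub_eval F x p fun i => (γ i).map (algebraMap ℚ ℂ)]
  exact F.mon γ hγ p hp x hx

theorem OSFam.invT (F : OSFam X n) (p : MvPolynomial (Ix n) (MvPolynomial X ℂ))
    (hp : ∀ x ∈ F.U, evM F.f x p = 0) (x : X → ℂ) (hx : x ∈ F.U) (Y : Ix n → ℂ) (hY : Y ∈ F.Tor x) :
    evX x Y p = 0 := by
  have h1 := fun i => sp_diff (pow_ne_zero (F.w i) tpi_ne) (F.Jx_det i) (hY i) (F.riemann x hx i)
  have h3 := F.inv p hp x hx (fun i => bl Y i * (F.P i x)⁻¹) (fun i => (h1 i).1)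
  have h4 : (fun q : Ix n => (bl Y q.1 * (F.P q.1 x)⁻¹ * F.P q.1 x) q.2.1 q.2.2) = Y := by
    funext q
    rw [(h1 q.1).2]
    rfl
  rw [h4] at h3
  exact h3

theorem OSFam.self (F : OSFam X n) (x : X → ℂ) (hx : x ∈ F.U) : (fun s => F.f s x) ∈ F.Tor x :=
  fun i => F.riemann x hx i

theorem OSFam.det_sq (F : OSFam X n) {x : X → ℂ} (hx : x ∈ F.U) {Y Y' : Ix n → ℂ} (hY : Y ∈ F.Tor x)
    (hY' : Y' ∈ F.Tor x) (i : ι) : (bl Y i).det ^ 2 = (bl Y' i).det ^ 2 := by
  have h1 := congrArg Matrix.det (hY i)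
  have h2 := congrArg Matrix.det (hY' i)
  rw [← h2, Matrix.det_mul, Matrix.det_mul, Matrix.det_mul, Matrix.det_mul, Matrix.det_transpose,
    Matrix.det_transpose] at h1
  have h3 := F.Qx_det hx i
  refine mul_right_cancel₀ h3 ?_
  linear_combination h1

theorem OSFam.det_ne (F : OSFam X n) {x : X → ℂ} {Y : Ix n → ℂ} (hY : Y ∈ F.Tor x) (i : ι) :
    (bl Y i).det ≠ 0 := by
  intro h0
  have h1 := congrArg Matrix.det (hY i)
  rw [Matrix.det_mul, Matrix.det_mul, h0, zero_mul, zero_mul, Matrix.det_smul] at h1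
  exact mul_ne_zero (pow_ne_zero _ (pow_ne_zero _ tpi_ne)) (F.Jx_det i) h1.symm

/-- **Rational paths in the components of the torsor.** -/
theorem OSFam.path (hP : S_PATH) (F : OSFam X n) {x : X → ℂ} {Y₁ Y₂ : Ix n → ℂ} (h₁ : Y₁ ∈ F.Tor x)
    (h₂ : Y₂ ∈ F.Tor x) (hdet : ∀ i, F.orth i = true → (bl Y₁ i).det = (bl Y₂ i).det) :
    ∃ (γ : Ix n → Polynomial ℂ) (q : Polynomial ℂ), q.eval 0 = 1 ∧ q.eval 1 ≠ 0 ∧ (∀ s, (γ s).eval 0 = Y₁ s) ∧
      (∀ s, (γ s).eval 1 = q.eval 1 * Y₂ s) ∧ ∀ t, q.eval t ≠ 0 → (fun s => (γ s).eval t / q.eval t) ∈ F.Tor x ∧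
        ∀ i, F.orth i = true → (bl (fun s => (γ s).eval t / q.eval t) i).det = (bl Y₁ i).det := by
  classical
  have h12 := fun i => sp_diff (pow_ne_zero (F.w i) tpi_ne) (F.Jx_det i) (h₂ i) (h₁ i)
  have hG : ∀ i, ∃ (G : Matrix (Fin (n i)) (Fin (n i)) (Polynomial ℂ)) (q : Polynomial ℂ), q.eval 0 = 1 ∧
      q.eval 1 ≠ 0 ∧ G.map (Polynomial.eval 0) = 1 ∧
      G.map (Polynomial.eval 1) = q.eval 1 • (bl Y₂ i * (bl Y₁ i)⁻¹) ∧
      ∀ t : ℂ, G.map (Polynomial.eval t) * F.Jx i * (G.map (Polynomial.eval t)).transpose = q.eval t ^ 2 • F.Jx i ∧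
        (F.orth i = true → (G.map (Polynomial.eval t)).det = q.eval t ^ n i) := by
    intro i
    cases ho : F.orth i with
    | false =>
      obtain ⟨G, h0, h1, h2⟩ := sp_path (F.Jx_alt i ho) (F.Jx_det i) _ (h12 i).1
      refine ⟨G, 1, by simp, by simp, h0, ?_, fun t => ⟨?_, by simp⟩⟩
      · rw [Polynomial.eval_one, one_smul, h1]
      · rw [Polynomial.eval_one, one_pow, one_smul, h2]
    | true =>
      have h3 : (bl Y₂ i * (bl Y₁ i)⁻¹).det = 1 := by
        rw [Matrix.det_mul, Matrix.det_nonsing_inv, hdet i ho, Ring.mul_inverse_cancel]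
        exact isUnit_iff_ne_zero.2 (F.det_ne h₂ i)
      obtain ⟨G, q, h4, h5, h6, h7, h8⟩ := hP (n i) (F.Jx i) (F.Jx_sym i ho) (F.Jx_det i) _ (h12 i).1 h3
      exact ⟨G, q, h4, h5, h6, h7, fun t => ⟨(h8 t).1, fun _ => (h8 t).2⟩⟩
  choose G q hq0 hq1 hG0 hG1 hGt using hG
  have hqm : ∀ (t : ℂ) (i : ι), (∏ j, q j).eval t = (q i).eval t * (∏ j ∈ Finset.univ.erase i, q j).eval t := by
    intro t i
    rw [← Polynomial.eval_mul, Finset.mul_prod_erase _ _ (Finset.mem_univ i)]
  have hev : ∀ (t : ℂ) (s : Ix n), ((∑ k, G s.1 s.2.1 k * Polynomial.C (Y₁ ⟨s.1, (k, s.2.2)⟩)) *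
      ∏ j ∈ Finset.univ.erase s.1, q j).eval t = ((G s.1).map (Polynomial.eval t) * bl Y₁ s.1) s.2.1 s.2.2 *
      (∏ j ∈ Finset.univ.erase s.1, q j).eval t := by
    intro t s
    rw [Polynomial.eval_mul, Polynomial.eval_finsetSum, Matrix.mul_apply]
    congr 1
    refine Finset.sum_congr rfl fun k _ => ?_
    rw [Polynomial.eval_mul, Polynomial.eval_C, Matrix.map_apply]
    rfl
  refine ⟨fun s => (∑ k, G s.1 s.2.1 k * Polynomial.C (Y₁ ⟨s.1, (k, s.2.2)⟩)) *
    ∏ j ∈ Finset.univ.erase s.1, q j, ∏ j, q j, ?_, ?_, ?_, ?_, ?_⟩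
  · rw [Polynomial.eval_prod]
    exact Finset.prod_eq_one fun i _ => hq0 i
  · rw [Polynomial.eval_prod]
    exact Finset.prod_ne_zero_iff.2 fun i _ => hq1 i
  · intro s
    rw [hev, hG0, one_mul, Polynomial.eval_prod, Finset.prod_eq_one fun i _ => hq0 i, mul_one]
    rfl
  · intro s
    rw [hev, hG1, hqm 1 s.1, Matrix.smul_mul, (h12 s.1).2, Matrix.smul_apply, smul_eq_mul]
    show _ * Y₂ s * _ = _
    ring
  · intro t ht
    have hqi : ∀ i, (q i).eval t ≠ 0 := by
      intro i h0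
      apply ht
      rw [hqm t i, h0, zero_mul]
    have hqe : ∀ i, (∏ j ∈ Finset.univ.erase i, q j).eval t ≠ 0 := by
      intro i h0
      apply ht
      rw [hqm t i, h0, mul_zero]
    have hb : ∀ i, bl (fun s : Ix n => ((∑ k, G s.1 s.2.1 k * Polynomial.C (Y₁ ⟨s.1, (k, s.2.2)⟩)) *
        ∏ j ∈ Finset.univ.erase s.1, q j).eval t / (∏ j, q j).eval t) i =
        ((q i).eval t)⁻¹ • ((G i).map (Polynomial.eval t) * bl Y₁ i) := by
      intro i
      ext a b
      show ((∑ k, G i a k * Polynomial.C (Y₁ ⟨i, (k, b)⟩)) *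
        ∏ j ∈ Finset.univ.erase i, q j).eval t / (∏ j, q j).eval t = _
      have h3 := hev t ⟨i, (a, b)⟩
      simp only at h3
      rw [h3, hqm t i, Matrix.smul_apply, smul_eq_mul, mul_div_mul_right _ _ (hqe i), div_eq_inv_mul]
    refine ⟨fun i => ?_, fun i hi => ?_⟩
    · rw [hb i, Matrix.transpose_smul, Matrix.smul_mul, Matrix.mul_smul, Matrix.smul_mul, smul_smul]
      have h3 : (G i).map (Polynomial.eval t) * bl Y₁ i * F.Qx x i *
          ((G i).map (Polynomial.eval t) * bl Y₁ i).transpose = (tpi ^ F.w i * (q i).eval t ^ 2) • F.Jx i := by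
        calc _ = (G i).map (Polynomial.eval t) * (bl Y₁ i * F.Qx x i * (bl Y₁ i).transpose) *
              ((G i).map (Polynomial.eval t)).transpose := by
              rw [Matrix.transpose_mul]
              simp only [Matrix.mul_assoc]
          _ = _ := by
              rw [h₁ i, Matrix.mul_smul, Matrix.smul_mul, (hGt i t).1, smul_smul]
      rw [h3, smul_smul]
      congr 1
      have := hqi i
      field_simp
    · rw [hb i, Matrix.det_smul, Fintype.card_fin, Matrix.det_mul, (hGt i t).2 hi, ← mul_assoc, ← mul_pow,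
        inv_mul_cancel₀ (hqi i), one_pow, one_mul]

/-! ## Reflections -/

/-- the matrices of the reflections -/
noncomputable def Flips.Rb {F : OSFam X n} (S : Flips F) (b : ι → Bool) (i : ι) : Matrix (Fin (n i)) (Fin (n i)) ℂ :=
  if b i then (S.R i).map (algebraMap ℚ ℂ) else 1

theorem Flips.bl_act {F : OSFam X n} (S : Flips F) (b : ι → Bool) (Y : Ix n → ℂ) (i : ι) :
    bl (S.act b Y) i = S.Rb b i * bl Y i := rfl

theorem Flips.Rb_mul {F : OSFam X n} (S : Flips F) (b b' : ι → Bool) (i : ι) :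
    S.Rb b i * S.Rb b' i = S.Rb (fun i => xor (b i) (b' i)) i := by
  unfold Flips.Rb
  have h1 : (S.R i).map (algebraMap ℚ ℂ) * (S.R i).map (algebraMap ℚ ℂ) = 1 := by
    rw [← Matrix.map_mul, S.invol]
    simp
  show _ = if xor (b i) (b' i) then (S.R i).map (algebraMap ℚ ℂ) else 1
  cases b i <;> cases b' i <;> simp [h1]

theorem Flips.act_act {F : OSFam X n} (S : Flips F) (b b' : ι → Bool) (Y : Ix n → ℂ) :
    S.act b (S.act b' Y) = S.act (fun i => xor (b i) (b' i)) Y := by
  have h1 : ∀ i, bl (S.act b (S.act b' Y)) i = bl (S.act (fun i => xor (b i) (b' i)) Y) i := by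
    intro i
    rw [S.bl_act, S.bl_act, S.bl_act, ← Matrix.mul_assoc, S.Rb_mul]
  funext q
  exact congrFun (congrFun (h1 q.1) q.2.1) q.2.2

theorem Flips.act_zero {F : OSFam X n} (S : Flips F) (Y : Ix n → ℂ) : S.act (fun _ => false) Y = Y := by
  funext q
  have h1 : bl (S.act (fun _ => false) Y) q.1 = bl Y q.1 := by
    rw [S.bl_act, Flips.Rb]
    simp
  exact congrFun (congrFun h1 q.2.1) q.2.2

theorem Flips.act_self {F : OSFam X n} (S : Flips F) (b : ι → Bool) (Y : Ix n → ℂ) : S.act b (S.act b Y) = Y := by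
  rw [S.act_act]
  have h1 : (fun i => xor (b i) (b i)) = fun _ => false := by
    funext i
    simp
  rw [h1]
  exact S.act_zero Y

theorem Flips.Rb_pres {F : OSFam X n} (S : Flips F) (b : ι → Bool) (i : ι) :
    S.Rb b i * F.Jx i * (S.Rb b i).transpose = F.Jx i := by
  unfold Flips.Rb
  split_ifs
  · have h7 := congrArg (fun M : Matrix (Fin (n i)) (Fin (n i)) ℚ => M.map (algebraMap ℚ ℂ)) (S.pres i)
    simp only [Matrix.map_mul] at h7
    rw [Matrix.transpose_map] at h7
    exact h7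
  · simp

theorem Flips.act_mem {F : OSFam X n} (S : Flips F) (b : ι → Bool) {x : X → ℂ} {Y : Ix n → ℂ} (hY : Y ∈ F.Tor x) :
    S.act b Y ∈ F.Tor x := by
  intro i
  rw [S.bl_act]
  exact sp_mul (S.Rb_pres b i) (hY i)

theorem Flips.act_det {F : OSFam X n} (S : Flips F) (b : ι → Bool) (Y : Ix n → ℂ) (i : ι) (hi : F.orth i = true) :
    (bl (S.act b Y) i).det = (if b i then -1 else 1) * (bl Y i).det := by
  rw [S.bl_act, Matrix.det_mul]
  congr 1
  unfold Flips.Rb
  split_ifs
  · have h1 : ((S.R i).map (algebraMap ℚ ℂ)).det = algebraMap ℚ ℂ (S.R i).det :=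
      (RingHom.map_det (algebraMap ℚ ℂ) _).symm
    rw [h1, S.det i hi]
    simp
  · exact Matrix.det_one

/-- reflecting into the component of a given point -/
theorem Flips.exists_b {F : OSFam X n} (S : Flips F) {x : X → ℂ} (hx : x ∈ F.U) {Y Y' : Ix n → ℂ} (hY : Y ∈ F.Tor x)
    (hY' : Y' ∈ F.Tor x) : ∃ b : ι → Bool, ∀ i, F.orth i = true → (bl (S.act b Y) i).det = (bl Y' i).det := by
  classical
  refine ⟨fun i => decide ((bl Y i).det ≠ (bl Y' i).det), fun i hi => ?_⟩
  rw [S.act_det _ _ _ hi]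
  by_cases h : (bl Y i).det = (bl Y' i).det
  · simp [h]
  · have h1 : (bl Y i).det = -(bl Y' i).det := (sq_eq_sq_iff_eq_or_eq_neg.1 (F.det_sq hx hY hY' i)).resolve_left h
    simp only [ne_eq, h, not_false_eq_true, decide_true, if_true]
    rw [h1]
    ring

/-- the invariant monomials -/
noncomputable def Flips.mono {F : OSFam X n} (S : Flips F) (m : Ix n → ℕ) (Y : Ix n → ℂ) : ℂ :=
  ∑ b : ι → Bool, ∏ y, S.act b Y y ^ m y

theorem Flips.mono_inv {F : OSFam X n} (S : Flips F) (m : Ix n → ℕ) (b : ι → Bool) (Y : Ix n → ℂ) :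
    S.mono m (S.act b Y) = S.mono m Y := by
  unfold Flips.mono
  let e : (ι → Bool) ≃ (ι → Bool) :=
    { toFun := fun b' i => xor (b' i) (b i)
      invFun := fun b' i => xor (b' i) (b i)
      left_inv := fun b' => by funext i; simp
      right_inv := fun b' => by funext i; simp }
  refine Fintype.sum_equiv e _ _ fun b' => ?_
  rw [S.act_act]
  rfl

/-- the invariant monomials as polynomials -/
noncomputable def Flips.mm {F : OSFam X n} (S : Flips F) (m : Ix n → ℕ) : MvPolynomial (Ix n) ℂ :=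
  ∑ b : ι → Bool, ∏ y, (∑ k, MvPolynomial.C (S.Rb b y.1 y.2.1 k) * MvPolynomial.X (⟨y.1, (k, y.2.2)⟩ : Ix n)) ^ m y

theorem Flips.eval_mm {F : OSFam X n} (S : Flips F) (m : Ix n → ℕ) (Y : Ix n → ℂ) :
    MvPolynomial.eval Y (S.mm m) = S.mono m Y := by
  unfold Flips.mm Flips.mono
  simp only [map_sum, map_prod, map_pow, map_mul, MvPolynomial.eval_C, MvPolynomial.eval_X]
  rfl

/-! ## Sections -/

theorem OSFam.exists_sec (hD : S_DIAG) (hO : S_ONE) (F : OSFam X n) (i : ι) :
    ∃ (c : MvPolynomial X ℂ) (q : Fin (n i) → MvPolynomial X ℂ)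
      (W : Matrix (Fin (n i)) (Fin (n i)) (MvPolynomial (Fin (n i)) (MvPolynomial X ℂ))), c ≠ 0 ∧
      (∀ x, MvPolynomial.eval x c ≠ 0 → ∀ j, MvPolynomial.eval x (q j) ≠ 0) ∧
      ∀ (x : X → ℂ) (e : Fin (n i) → ℂ), (∀ j, e j ^ 2 = MvPolynomial.eval x (q j)) →
        W.map (evX x e) * F.Qx x i * (W.map (evX x e)).transpose = MvPolynomial.eval x c ^ 2 • F.Jx i := by
  classical
  set QQ : Matrix (Fin (n i)) (Fin (n i)) (MvPolynomial X ℂ) := (F.Q i).map (MvPolynomial.map (algebraMap Qbar ℂ)) with hQQ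
  have hQx : ∀ x, F.Qx x i = QQ.map (MvPolynomial.eval x) := by
    intro x
    ext a b
    rw [hQQ, Matrix.map_apply, Matrix.map_apply, MvPolynomial.eval_map]
    rfl
  have hQd : QQ.det ≠ 0 := by
    intro h0
    obtain ⟨x, hx⟩ := F.nonempty
    apply F.Qx_det hx i
    have h2 : (QQ.map (MvPolynomial.eval x)).det = MvPolynomial.eval x QQ.det :=
      (RingHom.map_det (MvPolynomial.eval x) _).symm
    rw [hQx, h2, h0, map_zero]
  cases ho : F.orth i with
  | false =>
    set K := FractionRing (MvPolynomial X ℂ) with hK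
    set φ : (MvPolynomial X ℂ) →+* K := algebraMap (MvPolynomial X ℂ) K with hφ
    have hinj : Function.Injective φ := IsFractionRing.injective (MvPolynomial X ℂ) K
    set JJ : Matrix (Fin (n i)) (Fin (n i)) (MvPolynomial X ℂ) := (F.J i).map (algebraMap ℚ (MvPolynomial X ℂ)) with hJJ
    have hQQa : QQ.transpose = -QQ := by
      rw [hQQ, ← Matrix.transpose_map, F.Q_alt i ho]
      refine Matrix.ext fun a b => ?_
      rw [Matrix.map_apply, Matrix.neg_apply, Matrix.neg_apply, Matrix.map_apply, map_neg]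
    have hJJa : JJ.transpose = -JJ := by
      rw [hJJ, ← Matrix.transpose_map, F.J_alt i ho]
      refine Matrix.ext fun a b => ?_
      rw [Matrix.map_apply, Matrix.neg_apply, Matrix.neg_apply, Matrix.map_apply, map_neg]
    have hma : ∀ A : Matrix (Fin (n i)) (Fin (n i)) (MvPolynomial X ℂ), A.transpose = -A → (A.map φ).transpose = -A.map φ := by
      intro A hA
      rw [← Matrix.transpose_map, hA]
      ext a b
      simp
    have hmd : ∀ A : Matrix (Fin (n i)) (Fin (n i)) (MvPolynomial X ℂ), A.det ≠ 0 → (A.map φ).det ≠ 0 := by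
      intro A hA
      have h1 : (A.map φ).det = φ A.det := (RingHom.map_det φ _).symm
      rw [h1]
      exact fun h => hA (hinj (by rw [h, map_zero]))
    have hJd : JJ.det ≠ 0 := by
      have h1 : JJ.det = algebraMap ℚ (MvPolynomial X ℂ) (F.J i).det := (RingHom.map_det (algebraMap ℚ (MvPolynomial X ℂ)) _).symm
      rw [h1]
      intro h0
      exact F.J_det i ((map_eq_zero_iff _ (algebraMap ℚ (MvPolynomial X ℂ)).injective).1 h0)
    have : CharZero K := charZero_of_injective_algebraMap (algebraMap ℚ K).injective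
    obtain ⟨U0, _, hU⟩ := Pool.Agent.Y122.HPDar.darboux (QQ.map φ) (JJ.map φ) (hma _ hQQa)
      (diag_of_alt (hma _ hQQa)) (hmd _ hQd) (hma _ hJJa) (diag_of_alt (hma _ hJJa)) (hmd _ hJd)
    obtain ⟨b, hb⟩ := IsLocalization.exist_integer_multiples_of_finite (nonZeroDivisors (MvPolynomial X ℂ))
      (fun x : Fin (n i) × Fin (n i) => U0 x.1 x.2)
    choose u hu using hb
    set U : Matrix (Fin (n i)) (Fin (n i)) (MvPolynomial X ℂ) := Matrix.of fun a b => u (a, b) with hUd
    have hUm : U.map φ = φ (b : (MvPolynomial X ℂ)) • U0 := by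
      ext i j
      rw [Matrix.map_apply, hUd, Matrix.of_apply, Matrix.smul_apply, smul_eq_mul]
      have := hu (i, j)
      rw [Algebra.smul_def] at this
      exact this
    set c : (MvPolynomial X ℂ) := (b : (MvPolynomial X ℂ)) with hc
    have hc0 : c ≠ 0 := nonZeroDivisors.ne_zero b.2
    have hUQ : U * QQ * U.transpose = c ^ 2 • JJ := by
      apply Matrix.map_injective hinj
      show (U * QQ * U.transpose).map φ = (c ^ 2 • JJ).map φ
      rw [Matrix.map_mul, Matrix.map_mul, Matrix.transpose_map, hUm]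
      have e1 : (c ^ 2 • JJ).map φ = φ c ^ 2 • JJ.map φ := by
        ext a b
        simp [Matrix.smul_apply, smul_eq_mul]
      rw [e1, ← hU]
      rw [Matrix.transpose_smul, Matrix.smul_mul, Matrix.mul_smul, Matrix.smul_mul, smul_smul, ← sq]
    refine ⟨c, fun _ => 1, U.map MvPolynomial.C, hc0, fun x _ j => by simp, ?_⟩
    intro x e _
    have h2 : ∀ r : ℚ, MvPolynomial.eval x (algebraMap ℚ (MvPolynomial X ℂ) r) = algebraMap ℚ ℂ r := fun r =>
      RingHom.congr_fun (Subsingleton.elim ((MvPolynomial.eval x).comp (algebraMap ℚ (MvPolynomial X ℂ)))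
        (algebraMap ℚ ℂ)) r
    have h3 : (U.map MvPolynomial.C).map (evX x e) = U.map (MvPolynomial.eval x) := by
      ext a b
      rw [Matrix.map_apply, Matrix.map_apply, Matrix.map_apply]
      exact MvPolynomial.eval₂_C _ _ _
    rw [h3, hQx, ← Matrix.transpose_map, ← Matrix.map_mul, ← Matrix.map_mul, hUQ]
    refine Matrix.ext fun a b => ?_
    show MvPolynomial.eval x (c ^ 2 * algebraMap ℚ (MvPolynomial X ℂ) (F.J i a b)) =
      MvPolynomial.eval x c ^ 2 * algebraMap ℚ ℂ (F.J i a b)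
    rw [map_mul, map_pow, h2]
  | true =>
    have hQs : QQ.transpose = QQ := by
      rw [hQQ, ← Matrix.transpose_map, F.Q_sym i ho]
    have : CharZero (MvPolynomial X ℂ) := charZero_of_injective_algebraMap (algebraMap ℚ (MvPolynomial X ℂ)).injective
    obtain ⟨S, q, hS, hq, hSQ⟩ := hD (MvPolynomial X ℂ) (n i) QQ hQs hQd
    obtain ⟨B, hB, hBJ⟩ := hO ℂ (n i) (F.Jx i) (F.Jx_sym i ho) (F.Jx_det i)
    have hBu : IsUnit B.det := isUnit_iff_ne_zero.2 hB
    have hJB : B⁻¹ * (B⁻¹).transpose = F.Jx i := by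
      have h1 : B⁻¹ * B = 1 := Matrix.nonsing_inv_mul B hBu
      have h2 : B.transpose * (B⁻¹).transpose = 1 := by
        rw [← Matrix.transpose_mul, h1, Matrix.transpose_one]
      calc B⁻¹ * (B⁻¹).transpose = B⁻¹ * (B * F.Jx i * B.transpose) * (B⁻¹).transpose := by
            rw [hBJ, Matrix.mul_one]
        _ = (B⁻¹ * B) * F.Jx i * (B.transpose * (B⁻¹).transpose) := by simp only [Matrix.mul_assoc]
        _ = _ := by rw [h1, h2, Matrix.one_mul, Matrix.mul_one]
    let CC : ℂ → MvPolynomial (Fin (n i)) (MvPolynomial X ℂ) := fun z => MvPolynomial.C (MvPolynomial.C z)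
    refine ⟨∏ j, q j, q, (B⁻¹).map CC * Matrix.diagonal (fun j => MvPolynomial.X j *
      MvPolynomial.C (∏ k ∈ Finset.univ.erase j, q k)) * S.map MvPolynomial.C,
      Finset.prod_ne_zero_iff.2 fun j _ => hq j, ?_, ?_⟩
    · intro x hx j h0
      apply hx
      rw [map_prod]
      exact Finset.prod_eq_zero (Finset.mem_univ j) h0
    · intro x e he
      let E : MvPolynomial (Fin (n i)) (MvPolynomial X ℂ) →+* ℂ := MvPolynomial.eval₂Hom (MvPolynomial.eval x) e
      have hE : evX x e = E := rfl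
      have h3 : ((B⁻¹).map CC * Matrix.diagonal (fun j => MvPolynomial.X j *
          MvPolynomial.C (∏ k ∈ Finset.univ.erase j, q k)) * S.map MvPolynomial.C).map (evX x e) =
          B⁻¹ * Matrix.diagonal (fun j => e j * MvPolynomial.eval x (∏ k ∈ Finset.univ.erase j, q k)) *
            S.map (MvPolynomial.eval x) := by
        rw [hE, Matrix.map_mul, Matrix.map_mul]
        congr 1
        · congr 1
          · ext a b
            simp [CC, E]
          · rw [Matrix.diagonal_map (map_zero _)]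
            congr 1
            funext j
            show E (MvPolynomial.X j * MvPolynomial.C (∏ k ∈ Finset.univ.erase j, q k)) = _
            rw [map_mul, MvPolynomial.eval₂Hom_X', MvPolynomial.eval₂Hom_C]
        · ext a b
          exact MvPolynomial.eval₂Hom_C _ _ _
      have h4 : S.map (MvPolynomial.eval x) * F.Qx x i * (S.map (MvPolynomial.eval x)).transpose =
          Matrix.diagonal (fun j => MvPolynomial.eval x (q j)) := by
        rw [hQx, ← Matrix.transpose_map, ← Matrix.map_mul, ← Matrix.map_mul, hSQ, Matrix.diagonal_map (map_zero _)]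
      set D := Matrix.diagonal (fun j => e j * MvPolynomial.eval x (∏ k ∈ Finset.univ.erase j, q k)) with hDd
      have h5 : D * Matrix.diagonal (fun j => MvPolynomial.eval x (q j)) * D.transpose =
          (MvPolynomial.eval x (∏ j, q j) ^ 2) • (1 : Matrix (Fin (n i)) (Fin (n i)) ℂ) := by
        rw [hDd, Matrix.diagonal_transpose, Matrix.diagonal_mul_diagonal, Matrix.diagonal_mul_diagonal,
          Matrix.smul_one_eq_diagonal]
        congr 1
        funext j
        rw [← Finset.mul_prod_erase Finset.univ q (Finset.mem_univ j), map_mul]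
        have h6 := he j
        linear_combination (MvPolynomial.eval x (∏ k ∈ Finset.univ.erase j, q k)) ^ 2 *
          MvPolynomial.eval x (q j) * h6
      rw [h3]
      calc B⁻¹ * D * S.map (MvPolynomial.eval x) * F.Qx x i * (B⁻¹ * D * S.map (MvPolynomial.eval x)).transpose
          = B⁻¹ * (D * (S.map (MvPolynomial.eval x) * F.Qx x i * (S.map (MvPolynomial.eval x)).transpose) *
              D.transpose) * (B⁻¹).transpose := by
            rw [Matrix.transpose_mul, Matrix.transpose_mul]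
            simp only [Matrix.mul_assoc]
        _ = _ := by
            rw [h4, h5, Matrix.mul_smul, Matrix.mul_one, Matrix.smul_mul, hJB]

/-- **The invariant functions are regular.** -/
theorem OSFam.reg (hP : S_PATH) (hD : S_DIAG) (hO : S_ONE) (F : OSFam X n) (S : Flips F) {τ : Type} [Fintype τ]
    (m : τ → Ix n → ℕ) : RegularM F.U (fun (l : τ) (x : X → ℂ) => S.mono (m l) (fun s => F.f s x)) := by
  classical
  have hf : ∀ q, AnalyticOnNhd ℂ (F.f q) F.U := fun q => F.an q.1 q.2.1 q.2.2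
  choose c q W hc hcq hW using F.exists_sec hD hO
  obtain ⟨s, hs⟩ := IsAlgClosed.exists_pow_nat_eq tpi (n := 2) two_pos
  have hci : ∀ (x : X → ℂ), MvPolynomial.eval x (∏ i, c i) ≠ 0 → ∀ i, MvPolynomial.eval x (c i) ≠ 0 := by
    intro x hx i h0
    apply hx
    rw [map_prod]
    exact Finset.prod_eq_zero (Finset.mem_univ i) h0
  have hT : ∀ (x : X → ℂ) (i : ι) (e : Fin (n i) → ℂ), MvPolynomial.eval x (c i) ≠ 0 →
      (∀ j, e j ^ 2 = MvPolynomial.eval x (q i j)) →
      ((s ^ F.w i / MvPolynomial.eval x (c i)) • (W i).map (evX x e)) * F.Qx x i *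
        ((s ^ F.w i / MvPolynomial.eval x (c i)) • (W i).map (evX x e)).transpose =
        tpi ^ F.w i • F.Jx i := by
    intro x i e hx he
    rw [Matrix.transpose_smul, Matrix.smul_mul, Matrix.mul_smul, Matrix.smul_mul, hW i x e he, smul_smul, smul_smul,
      ← hs]
    congr 1
    field_simp
    ring
  have key := reg_inv (J := Σ i, Fin (n i)) F.conn hf F.self (fun p hp x hx Y hY => F.invT p hp x hx Y hY)
    (fun l => S.mm (m l)) ?_ (∏ i, c i) (Finset.prod_ne_zero_iff.2 fun i _ => hc i) (fun j => q j.1 j.2) ?_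
  · have h1 : (fun (l : τ) (x : X → ℂ) => S.mono (m l) (fun s => F.f s x)) =
        fun (l : τ) (x : X → ℂ) => MvPolynomial.eval (fun s => F.f s x) (S.mm (m l)) := by
      funext l x
      rw [S.eval_mm]
    rw [h1]
    exact key
  · intro x hx Y hY
    obtain ⟨b, hb⟩ := S.exists_b hx hY (F.self x hx)
    obtain ⟨γ, d, h0, h1, h2, h3, h4⟩ := F.path hP (F.self x hx) (S.act_mem b hY) (fun i hi => (hb i hi).symm)
    refine ⟨S.act b Y, γ, d, ?_, h0, h1, h2, h3, fun t ht => (h4 t ht).1⟩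
    intro l
    rw [S.eval_mm, S.eval_mm, S.mono_inv]
  · intro x0 _ hx0 Y0 hY0
    have hsq : ∀ j : Σ i, Fin (n i), ∃ z : ℂ, z ^ 2 = MvPolynomial.eval x0 (q j.1 j.2) := fun j =>
      IsAlgClosed.exists_pow_nat_eq _ two_pos
    choose e0 he0 using hsq
    have h1 := fun i => sp_diff (pow_ne_zero (F.w i) tpi_ne) (F.Jx_det i) (hY0 i)
      (hT x0 i (fun j => e0 ⟨i, j⟩) (hci x0 hx0 i) (fun j => he0 ⟨i, j⟩))
    set g : ∀ i, Matrix (Fin (n i)) (Fin (n i)) ℂ := fun i => bl Y0 i *
      ((s ^ F.w i / MvPolynomial.eval x0 (c i)) • (W i).map (evX x0 (fun j => e0 ⟨i, j⟩)))⁻¹ with hg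
    let ren : ∀ i, MvPolynomial (Fin (n i)) (MvPolynomial X ℂ) →+*
        MvPolynomial (Σ i, Fin (n i)) (MvPolynomial X ℂ) := fun i =>
      (MvPolynomial.rename (fun j : Fin (n i) => (⟨i, j⟩ : Σ i, Fin (n i)))).toRingHom
    have hren : ∀ (x : X → ℂ) (e : (Σ i, Fin (n i)) → ℂ) (i : ι) (p : MvPolynomial (Fin (n i)) (MvPolynomial X ℂ)),
        evX x e (ren i p) = evX x (fun j => e ⟨i, j⟩) p := by
      intro x e i p
      exact MvPolynomial.eval₂_rename _ _ _ _
    set v : Ix n → MvPolynomial (Σ i, Fin (n i)) (MvPolynomial X ℂ) := fun y =>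
      (∑ k, MvPolynomial.C (MvPolynomial.C (s ^ F.w y.1 * g y.1 y.2.1 k)) * ren y.1 (W y.1 k y.2.2)) *
        MvPolynomial.C (∏ j ∈ Finset.univ.erase y.1, c j) with hv
    have hev : ∀ (x : X → ℂ) (e : (Σ i, Fin (n i)) → ℂ), MvPolynomial.eval x (∏ i, c i) ≠ 0 → ∀ y : Ix n,
        evX x e (v y) / MvPolynomial.eval x (∏ i, c i) =
        (g y.1 * ((s ^ F.w y.1 / MvPolynomial.eval x (c y.1)) •
          (W y.1).map (evX x (fun j => e ⟨y.1, j⟩)))) y.2.1 y.2.2 := by
      intro x e hx y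
      have h2 : MvPolynomial.eval x (∏ i, c i) = MvPolynomial.eval x (c y.1) *
          MvPolynomial.eval x (∏ j ∈ Finset.univ.erase y.1, c j) := by
        rw [← map_mul, Finset.mul_prod_erase _ _ (Finset.mem_univ y.1)]
      have h3 : MvPolynomial.eval x (∏ j ∈ Finset.univ.erase y.1, c j) ≠ 0 := by
        intro h0
        apply hx
        rw [h2, h0, mul_zero]
      have h5 : evX x e (v y) = (∑ k, (s ^ F.w y.1 * g y.1 y.2.1 k) *
          evX x (fun j => e ⟨y.1, j⟩) (W y.1 k y.2.2)) * MvPolynomial.eval x (∏ j ∈ Finset.univ.erase y.1, c j) := by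
        let E : MvPolynomial (Σ i, Fin (n i)) (MvPolynomial X ℂ) →+* ℂ :=
          MvPolynomial.eval₂Hom (MvPolynomial.eval x) e
        have hE : ∀ p, evX x e p = E p := fun p => rfl
        rw [hE, hv]
        simp only
        rw [map_mul, map_sum, MvPolynomial.eval₂Hom_C]
        congr 1
        refine Finset.sum_congr rfl fun k _ => ?_
        rw [map_mul, MvPolynomial.eval₂Hom_C, MvPolynomial.eval_C, ← hE, hren]
      rw [h5, h2, mul_div_mul_right _ _ h3, Matrix.mul_apply, Finset.sum_div]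
      refine Finset.sum_congr rfl fun k _ => ?_
      rw [Matrix.smul_apply, Matrix.map_apply, smul_eq_mul]
      ring
    refine ⟨v, e0, ?_, ?_, ?_⟩
    · rintro ⟨i, j⟩
      refine ⟨?_, he0 ⟨i, j⟩⟩
      intro h0
      have h2 := he0 ⟨i, j⟩
      rw [h0] at h2
      exact hcq i x0 (hci x0 hx0 i) j (by rw [← h2]; ring)
    · intro y
      rw [hev x0 e0 hx0 y, (h1 y.1).2]
      rfl
    · intro x _ hx e he i
      have h2 : bl (fun y : Ix n => evX x e (v y) / MvPolynomial.eval x (∏ i, c i)) i =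
          g i * ((s ^ F.w i / MvPolynomial.eval x (c i)) • (W i).map (evX x (fun j => e ⟨i, j⟩))) := by
        ext a b
        exact hev x e hx ⟨i, (a, b)⟩
      rw [h2]
      exact sp_mul (h1 i).1 (hT x i _ (hci x hx i) (fun j => he ⟨i, j⟩))

end Pool.Agent.Helper6K9.OS
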