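import Pool.Agent.Helper6K9.OS.Leaves

/-!
# From a component with multiplier `2 π i` to the full torsor
-/

set_option autoImplicit false
set_option linter.unusedSectionVars false

open Matrix

namespace Pool.Agent.Helper6K9.OS.Fl

open Pool.Agent.Y890.MV
open Pool.Agent.Y890.SM (Ix bl tpi tpi_ne sp_mul sp_diff diag_of_alt root_trans)
open Pool.Agent.Y890.SP (Qbar ioQ ioQ_coe)

variable {X : Type} [Fintype X] [DecidableEq X] {ι : Type} [Fintype ι] [DecidableEq ι] {n : ι → ℕ}

theorem Jx_det (F : OSFam X n) (i : ι) : (F.Jx i).det ≠ 0 := by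
  intro h0
  have h1 : (F.Jx i).det = algebraMap ℚ ℂ (F.J i).det := (RingHom.map_det (algebraMap ℚ ℂ) (F.J i)).symm
  rw [h1, map_eq_zero] at h0
  exact F.J_det i h0

theorem riem (F : OSFam X n) {x : X → ℂ} (hx : x ∈ F.U) (i : ι) :
    F.P i x * F.Qx x i * (F.P i x).transpose = tpi ^ F.w i • F.Jx i := F.riemann x hx i

theorem det_riem (F : OSFam X n) {x : X → ℂ} (hx : x ∈ F.U) (i : ι) :
    (F.P i x).det * (F.Qx x i).det * (F.P i x).det = (tpi ^ F.w i) ^ n i * (F.Jx i).det := by
  have h1 := congrArg Matrix.det (riem F hx i)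
  rwa [Matrix.det_mul, Matrix.det_mul, Matrix.det_transpose, Matrix.det_smul, Fintype.card_fin] at h1

theorem Qx_det (F : OSFam X n) {x : X → ℂ} (hx : x ∈ F.U) (i : ι) : (F.Qx x i).det ≠ 0 := by
  intro h0
  have h1 := det_riem F hx i
  rw [h0, mul_zero, zero_mul] at h1
  exact mul_ne_zero (pow_ne_zero _ (pow_ne_zero _ tpi_ne)) (Jx_det F i) h1.symm

theorem P_det (F : OSFam X n) {x : X → ℂ} (hx : x ∈ F.U) (i : ι) : (F.P i x).det ≠ 0 := by
  intro h0
  have h1 := det_riem F hx i
  rw [h0, mul_zero] at h1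
  exact mul_ne_zero (pow_ne_zero _ (pow_ne_zero _ tpi_ne)) (Jx_det F i) h1.symm

theorem J_map (F : OSFam X n) (i : ι) :
    ((F.J i).map (algebraMap ℚ Qbar)).map (algebraMap Qbar ℂ) = F.Jx i := by
  refine Matrix.ext fun a b => ?_
  rw [Matrix.map_apply, Matrix.map_apply, OSFam.Jx, Matrix.map_apply]
  simp

/-- a basis over the field of algebraic numbers adapted to the form -/
theorem exists_U (h1 : S_ONE) (F : OSFam X n) (e : X → Qbar)
    (he : (fun j => algebraMap Qbar ℂ (e j)) ∈ F.U) (i : ι) :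
    ∃ U : Matrix (Fin (n i)) (Fin (n i)) Qbar,
      U.map (algebraMap Qbar ℂ) * F.Qx (fun j => algebraMap Qbar ℂ (e j)) i *
        (U.map (algebraMap Qbar ℂ)).transpose = F.Jx i := by
  classical
  set φ : Qbar →+* ℂ := algebraMap Qbar ℂ with hφ
  set QQ : Matrix (Fin (n i)) (Fin (n i)) Qbar := (F.Q i).map (MvPolynomial.eval e) with hQQ
  set JJ : Matrix (Fin (n i)) (Fin (n i)) Qbar := (F.J i).map (algebraMap ℚ Qbar) with hJJ
  have hQm : QQ.map φ = F.Qx (fun j => φ (e j)) i := by
    refine Matrix.ext fun a b => ?_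
    rw [hQQ, Matrix.map_apply, Matrix.map_apply, OSFam.Qx, Matrix.map_apply]
    have h1 := MvPolynomial.eval₂_comp_left φ (RingHom.id Qbar) e (F.Q i a b)
    rw [MvPolynomial.aeval_def]
    rw [MvPolynomial.eval, MvPolynomial.coe_eval₂Hom, h1]
    rfl
  have hJm : JJ.map φ = F.Jx i := J_map F i
  have hdet : ∀ A : Matrix (Fin (n i)) (Fin (n i)) Qbar, (A.map φ).det ≠ 0 → A.det ≠ 0 := by
    intro A hA h0
    have h1 : (A.map φ).det = φ A.det := (RingHom.map_det φ _).symm
    rw [h0, map_zero] at h1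
    exact hA h1
  have hQd : QQ.det ≠ 0 := hdet _ (by rw [hQm]; exact Qx_det F he i)
  have hJd : JJ.det ≠ 0 := hdet _ (by rw [hJm]; exact Jx_det F i)
  have main : ∃ U : Matrix (Fin (n i)) (Fin (n i)) Qbar, U * QQ * U.transpose = JJ := by
    rcases Bool.eq_false_or_eq_true (F.orth i) with ho | ho
    · have hQQs : QQ.transpose = QQ := by
        rw [hQQ, ← Matrix.transpose_map, F.Q_sym i ho]
      have hJJs : JJ.transpose = JJ := by
        rw [hJJ, ← Matrix.transpose_map, F.J_sym i ho]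
      have : IsAlgClosed Qbar := (algebraicClosure.isAlgClosure (F := ℚ) (E := ℂ)).isAlgClosed
      obtain ⟨S, -, hS⟩ := h1 Qbar (n i) QQ hQQs hQd
      obtain ⟨S', hS'd, hS'⟩ := h1 Qbar (n i) JJ hJJs hJd
      have hu : IsUnit S'.det := isUnit_iff_ne_zero.2 hS'd
      have h2 : S'⁻¹ * S' = 1 := nonsing_inv_mul S' hu
      have h3 : S'.transpose * (S'⁻¹).transpose = 1 := by
        rw [← Matrix.transpose_mul, h2, Matrix.transpose_one]
      refine ⟨S'⁻¹ * S, ?_⟩
      calc S'⁻¹ * S * QQ * (S'⁻¹ * S).transpose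
          = S'⁻¹ * (S * QQ * S.transpose) * (S'⁻¹).transpose := by
            rw [Matrix.transpose_mul]; simp only [Matrix.mul_assoc]
        _ = S'⁻¹ * (S' * JJ * S'.transpose) * (S'⁻¹).transpose := by rw [hS, hS']
        _ = (S'⁻¹ * S') * JJ * (S'.transpose * (S'⁻¹).transpose) := by
            simp only [Matrix.mul_assoc]
        _ = JJ := by rw [h2, h3, Matrix.one_mul, Matrix.mul_one]
    · have hQQa : QQ.transpose = -QQ := by
        rw [hQQ, ← Matrix.transpose_map, F.Q_alt i ho]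
        refine Matrix.ext fun a b => ?_
        rw [Matrix.map_apply, Matrix.neg_apply, Matrix.neg_apply, Matrix.map_apply, map_neg]
      have hJJa : JJ.transpose = -JJ := by
        rw [hJJ, ← Matrix.transpose_map, F.J_alt i ho]
        refine Matrix.ext fun a b => ?_
        rw [Matrix.map_apply, Matrix.neg_apply, Matrix.neg_apply, Matrix.map_apply, map_neg]
      obtain ⟨U, _, hU⟩ := Pool.Agent.Y122.HPDar.darboux QQ JJ hQQa (diag_of_alt hQQa) hQd hJJa
        (diag_of_alt hJJa) hJd
      exact ⟨U, hU⟩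
  obtain ⟨U, hU⟩ := main
  refine ⟨U, ?_⟩
  rw [← hQm, ← Matrix.transpose_map, ← Matrix.map_mul, ← Matrix.map_mul, hU, hJm]

theorem half_w (F : OSFam X n) {i : ι} (ho : F.orth i = true) : 2 * (F.w i / 2) = F.w i := by
  obtain ⟨k, hk⟩ := F.w_even i ho
  omega

/-- a basis with prescribed sign of the determinant -/
theorem exists_Ub (h1 : S_ONE) (h2 : S_REFL) (F : OSFam X n) (e : X → Qbar)
    (he : (fun j => algebraMap Qbar ℂ (e j)) ∈ F.U) (b : ι → Bool) (i : ι) :
    ∃ U : Matrix (Fin (n i)) (Fin (n i)) Qbar,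
      U.map (algebraMap Qbar ℂ) * F.Qx (fun j => algebraMap Qbar ℂ (e j)) i *
        (U.map (algebraMap Qbar ℂ)).transpose = F.Jx i ∧
      (F.orth i = true → algebraMap Qbar ℂ U.det * tpi ^ (F.w i / 2 * n i) =
        (if b i then -1 else 1) * (F.P i (fun j => algebraMap Qbar ℂ (e j))).det) := by
  classical
  set φ : Qbar →+* ℂ := algebraMap Qbar ℂ with hφ
  set x : X → ℂ := fun j => φ (e j) with hx
  obtain ⟨U, hU⟩ := exists_U h1 F e he i
  rcases Bool.eq_false_or_eq_true (F.orth i) with ho | ho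
  swap
  · exact ⟨U, hU, fun h => by rw [ho] at h; exact absurd h (by decide)⟩
  have hd : ∀ A : Matrix (Fin (n i)) (Fin (n i)) Qbar, (A.map φ).det = φ A.det := fun A =>
    (RingHom.map_det φ _).symm
  have e1 := congrArg Matrix.det hU
  rw [Matrix.det_mul, Matrix.det_mul, Matrix.det_transpose] at e1
  have e1' : φ U.det * (F.Qx x i).det * φ U.det = (F.Jx i).det := by
    rw [← hd]
    exact e1
  have e2 := det_riem F he i
  have e3 : (φ U.det * tpi ^ (F.w i / 2 * n i)) ^ 2 = (F.P i x).det ^ 2 := by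
    apply mul_right_cancel₀ (Qx_det F he i)
    have h3 : (tpi ^ F.w i) ^ n i = (tpi ^ (F.w i / 2 * n i)) ^ 2 := by
      rw [← pow_mul, ← pow_mul]
      congr 1
      have := half_w F ho
      calc F.w i * n i = 2 * (F.w i / 2) * n i := by rw [this]
        _ = F.w i / 2 * n i * 2 := by ring
    rw [h3] at e2
    linear_combination (tpi ^ (F.w i / 2 * n i)) ^ 2 * e1' - e2
  obtain ⟨R, hR, hRR, hRd⟩ := h2 (n i) (F.J i) (F.pos i ho) (F.J_sym i ho) (F.J_det i)
  set R' : Matrix (Fin (n i)) (Fin (n i)) Qbar := R.map (algebraMap ℚ Qbar) with hR'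
  have hRm : R'.map φ = R.map (algebraMap ℚ ℂ) := by
    refine Matrix.ext fun a b => ?_
    rw [hR', Matrix.map_apply, Matrix.map_apply, Matrix.map_apply]
    simp [hφ]
  have hRd' : R'.det = -1 := by
    have h3 : R'.det = algebraMap ℚ Qbar R.det := (RingHom.map_det (algebraMap ℚ Qbar) _).symm
    rw [h3, hRd, map_neg, map_one]
  have hRU : (R' * U).map φ * F.Qx x i * ((R' * U).map φ).transpose = F.Jx i := by
    have h7 := congrArg (fun M : Matrix (Fin (n i)) (Fin (n i)) ℚ => M.map (algebraMap ℚ ℂ)) hR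
    simp only [Matrix.map_mul] at h7
    rw [Matrix.transpose_map] at h7
    have h8 : U.map φ * F.Qx x i * (U.map φ).transpose = (1 : ℂ) • F.Jx i := by rw [one_smul]; exact hU
    have h9 := sp_mul (μ := (1 : ℂ)) h7 h8
    rw [one_smul, ← hRm, ← Matrix.map_mul] at h9
    exact h9
  have e4 : φ (R' * U).det = -φ U.det := by
    rw [Matrix.det_mul, hRd', map_mul, map_neg, map_one]
    ring
  rcases sq_eq_sq_iff_eq_or_eq_neg.1 e3 with h3 | h3
  · rcases Bool.eq_false_or_eq_true (b i) with hb | hb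
    · refine ⟨R' * U, hRU, fun _ => ?_⟩
      rw [hb, e4, if_pos rfl]
      linear_combination -h3
    · refine ⟨U, hU, fun _ => ?_⟩
      rw [hb, h3]
      simp
  · rcases Bool.eq_false_or_eq_true (b i) with hb | hb
    · refine ⟨U, hU, fun _ => ?_⟩
      rw [hb, h3]
      simp
    · refine ⟨R' * U, hRU, fun _ => ?_⟩
      rw [hb, e4]
      simp only [Bool.false_eq_true, if_false]
      linear_combination -h3

theorem comp_mem (F : OSFam X n) (b : ι → Bool) (x : X → ℂ) (M : ∀ i, Matrix (Fin (n i)) (Fin (n i)) ℂ)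
    (h : ∀ i, M i * F.Qx x i * (M i).transpose = tpi ^ F.w i • F.Jx i)
    (hd : ∀ i, F.orth i = true → (M i).det = (if b i then -1 else 1) * (F.P i x).det) :
    (fun q : Ix n => M q.1 q.2.1 q.2.2) ∈ F.Comp b x := ⟨fun i => h i, fun i ho => hd i ho⟩

/-- the polynomial in the square root of the multiplier -/
noncomputable def pol (F : OSFam X n) {δ h : ℕ} (c : (Ix n → Fin (δ + 1)) → Fin h → Qbar)
    (W : ∀ i, Matrix (Fin (n i)) (Fin (n i)) Qbar) : Polynomial Qbar :=
  ∑ l : Ix n → Fin (δ + 1), (∑ a : Fin h, (Polynomial.X ^ 2) ^ (a : ℕ) * Polynomial.C (c l a)) *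
      ∏ y : Ix n, (Polynomial.X ^ F.w y.1 * Polynomial.C (W y.1 y.2.1 y.2.2)) ^ (l y : ℕ)

theorem pol_eval (F : OSFam X n) {δ h : ℕ} (c : (Ix n → Fin (δ + 1)) → Fin h → Qbar)
    (γ : ∀ i, Matrix (Fin (n i)) (Fin (n i)) ℚ) (U : ∀ i, Matrix (Fin (n i)) (Fin (n i)) Qbar) (w : ℂ) :
    Polynomial.eval₂ (algebraMap Qbar ℂ) w (pol F c fun i => (γ i).map (algebraMap ℚ Qbar) * U i) =
      ∑ l : Ix n → Fin (δ + 1), (∑ a : Fin h, (w ^ 2) ^ (a : ℕ) * algebraMap Qbar ℂ (c l a)) *
      ∏ y : Ix n, (((γ y.1).map (algebraMap ℚ ℂ) * (w ^ F.w y.1 • (U y.1).map (algebraMap Qbar ℂ))) y.2.1 y.2.2) ^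
        (l y : ℕ) := by
  set φ : Qbar →+* ℂ := algebraMap Qbar ℂ with hφ
  have e1 : ∀ r : ℚ, φ (algebraMap ℚ Qbar r) = algebraMap ℚ ℂ r := fun r =>
    (IsScalarTower.algebraMap_apply ℚ Qbar ℂ r).symm
  have hWm : ∀ (w : ℂ) (y : Ix n), w ^ F.w y.1 * φ (((γ y.1).map (algebraMap ℚ Qbar) * U y.1) y.2.1 y.2.2) =
      ((γ y.1).map (algebraMap ℚ ℂ) * (w ^ F.w y.1 • (U y.1).map φ)) y.2.1 y.2.2 := by
    intro w y
    simp only [Matrix.mul_apply, Matrix.map_apply, Matrix.smul_apply, smul_eq_mul, map_sum, map_mul, e1,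
      Finset.mul_sum]
    refine Finset.sum_congr rfl fun k _ => ?_
    ring
  have h3 : ∀ p : Polynomial Qbar, Polynomial.eval₂ φ w p = Polynomial.eval₂RingHom φ w p := fun _ => rfl
  rw [h3]
  unfold pol
  simp only [map_sum, map_mul, map_prod, map_pow, Polynomial.coe_eval₂RingHom, Polynomial.eval₂_X,
    Polynomial.eval₂_C, hWm]

theorem pol_map (F : OSFam X n) {δ h : ℕ} (c : (Ix n → Fin (δ + 1)) → Fin h → Qbar)
    (W : ∀ i, Matrix (Fin (n i)) (Fin (n i)) Qbar) (σ : Qbar →+* Qbar) :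
    (pol F c W).map σ = pol F (fun l a => σ (c l a)) (fun i => (W i).map σ) := by
  unfold pol
  simp only [Polynomial.map_sum, Polynomial.map_mul, Polynomial.map_prod, Polynomial.map_pow,
    Polynomial.map_X, Polynomial.map_C, Matrix.map_apply]

/-- the determinant as a polynomial in the entries -/
noncomputable def dt (n : ι → ℕ) (i : ι) : MvPolynomial (Ix n) ℂ :=
  (Matrix.of fun a b => (MvPolynomial.X (⟨i, (a, b)⟩ : Ix n) : MvPolynomial (Ix n) ℂ)).det

theorem dt_eval (i : ι) (M : ∀ i, Matrix (Fin (n i)) (Fin (n i)) ℂ) :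
    MvPolynomial.eval (fun q : Ix n => M q.1 q.2.1 q.2.2) (dt n i) = (M i).det := by
  unfold dt
  rw [RingHom.map_det]
  congr 1
  refine Matrix.ext fun a b => ?_
  rw [RingHom.mapMatrix_apply, Matrix.map_apply, Matrix.of_apply, MvPolynomial.eval_X]

end Pool.Agent.Helper6K9.OS.Fl

namespace Pool.Agent.Helper6K9.OS

open Pool.Agent.Y890.MV
open Pool.Agent.Y890.SM (Ix bl tpi tpi_ne sp_mul sp_diff diag_of_alt root_trans)
open Pool.Agent.Y890.SP (Qbar ioQ ioQ_coe)
open Fl

/-- **From a component with multiplier `2 π i` to the full torsor.** -/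
theorem so_full (h1 : S_ONE) (h2 : S_REFL) : S_FULL := by
  intro X _ _ ι _ _ n F K _ _ io e he hQ δ h c b hb H p hp
  classical
  obtain ⟨σ, hσ, hσt⟩ := hb
  set φ : Qbar →+* ℂ := algebraMap Qbar ℂ with hφ
  set x : X → ℂ := fun j => io (e j) with hx
  have hex : ∀ i, ∃ U : Matrix (Fin (n i)) (Fin (n i)) Qbar,
      U.map φ * F.Qx x i * (U.map φ).transpose = F.Jx i ∧
      (F.orth i = true → φ U.det * tpi ^ (F.w i / 2 * n i) = (if b i then -1 else 1) * (F.P i x).det) :=
    fun i => exists_Ub h1 h2 F (fun j => ioQ io (e j)) he b i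
  choose U hU hUd using hex
  set sg : ι → ℂ := fun i => if b i then -1 else 1 with hsg
  have hsg2 : ∀ i, sg i * sg i = 1 := by
    intro i
    simp only [hsg]
    split_ifs <;> norm_num
  have hscal : ∀ (V : ∀ i, Matrix (Fin (n i)) (Fin (n i)) Qbar),
      (∀ i, (V i).map φ * F.Qx x i * ((V i).map φ).transpose = F.Jx i) → ∀ (z : ℂ) (i : ι),
      (z ^ F.w i • (V i).map φ) * F.Qx x i * (z ^ F.w i • (V i).map φ).transpose =
        ((z ^ 2) ^ F.w i) • F.Jx i := by
    intro V hV z i
    rw [Matrix.transpose_smul, Matrix.smul_mul, Matrix.mul_smul, Matrix.smul_mul, smul_smul, hV i]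
    congr 1
    ring
  -- the conjugate basis
  set V : ∀ i, Matrix (Fin (n i)) (Fin (n i)) Qbar := fun i => (U i).map σ with hV
  have hφi : Function.Injective φ := φ.injective
  choose cQ hcQ using hQ
  have hVU : ∀ i, (V i).map φ * F.Qx x i * ((V i).map φ).transpose = F.Jx i := by
    intro i
    set QK : Matrix (Fin (n i)) (Fin (n i)) Qbar := Matrix.of fun a b => ioQ io (cQ i a b) with hQK
    have hQm : QK.map φ = F.Qx x i := by
      refine Matrix.ext fun a b => ?_
      rw [Matrix.map_apply, hQK, Matrix.of_apply]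
      exact hcQ i a b
    have hQs : QK.map σ = QK := by
      refine Matrix.ext fun a b => ?_
      rw [Matrix.map_apply, hQK, Matrix.of_apply, hσ]
    have hJs : ((F.J i).map (algebraMap ℚ Qbar)).map σ = (F.J i).map (algebraMap ℚ Qbar) := by
      refine Matrix.ext fun a b => ?_
      rw [Matrix.map_apply, Matrix.map_apply]
      exact map_ratCast σ _
    have h3 : U i * QK * (U i).transpose = (F.J i).map (algebraMap ℚ Qbar) := by
      have h4 : (U i * QK * (U i).transpose).map φ = ((F.J i).map (algebraMap ℚ Qbar)).map φ := by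
        rw [J_map, Matrix.map_mul, Matrix.map_mul, hQm, Matrix.transpose_map]
        exact hU i
      exact Matrix.map_injective hφi h4
    have h5 := congrArg (fun M : Matrix (Fin (n i)) (Fin (n i)) Qbar => M.map σ) h3
    simp only [Matrix.map_mul, Matrix.transpose_map] at h5
    rw [hQs, hJs] at h5
    have h6 := congrArg (fun M : Matrix (Fin (n i)) (Fin (n i)) Qbar => M.map φ) h5
    simp only [Matrix.map_mul, Matrix.transpose_map] at h6
    rw [hQm, J_map] at h6
    exact h6
  have hVd : ∀ i, F.orth i = true → φ (V i).det * tpi ^ (F.w i / 2 * n i) = (F.P i x).det := by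
    intro i ho
    have hPd := P_det F he i
    have h3 : φ (U i).det * tpi ^ (F.w i / 2 * n i) = sg i * (F.P i x).det := hUd i ho
    have hUd0 : φ (U i).det ≠ 0 := by
      intro h4
      rw [h4, zero_mul] at h3
      have h5 : sg i ≠ 0 := fun h6 => by
        have := hsg2 i
        rw [h6, zero_mul] at this
        exact zero_ne_one this
      exact mul_ne_zero h5 hPd h3.symm
    have hUd1 : (U i).det ≠ 0 := fun h4 => hUd0 (by rw [h4, map_zero])
    set sq : Qbar := if b i then -1 else 1 with hsq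
    have hsq2 : sq * sq = 1 := by
      rw [hsq]
      split_ifs <;> norm_num
    have hsqφ : φ sq = sg i := by
      rw [hsq]
      simp only [hsg]
      split_ifs
      · rw [map_neg, map_one]
      · rw [map_one]
    have hsqσ : σ sq = sq := by
      rw [hsq]
      split_ifs
      · rw [map_neg, map_one]
      · rw [map_one]
    have hTh : F.IsTh x i (sq * (U i).det⁻¹) := by
      show φ (sq * (U i).det⁻¹) * (F.P i x).det = tpi ^ (F.w i / 2 * n i)
      rw [map_mul, map_inv₀, hsqφ]
      field_simp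
      linear_combination -h3
    have h4 := hσt i ho _ hTh
    have h5 : (if b i = true then -(sq * (U i).det⁻¹) else sq * (U i).det⁻¹) =
        sq * (sq * (U i).det⁻¹) := by
      rw [hsq]
      split_ifs <;> ring
    rw [h5, map_mul, hsqσ, map_inv₀] at h4
    have hsq0 : sq ≠ 0 := fun h6 => by rw [h6, zero_mul] at hsq2; exact zero_ne_one hsq2
    have h6 : (σ (U i).det)⁻¹ = sq * (U i).det⁻¹ := mul_left_cancel₀ hsq0 h4
    have h7 : σ (U i).det = sq * (U i).det := by
      have h8 : ((σ (U i).det)⁻¹)⁻¹ = (sq * (U i).det⁻¹)⁻¹ := by rw [h6]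
      rw [inv_inv, mul_inv, inv_inv] at h8
      have h9 : sq⁻¹ = sq := by
        rw [eq_comm]
        exact eq_inv_of_mul_eq_one_left hsq2
      rw [h8, h9]
    have h8 : (V i).det = σ (U i).det := (RingHom.map_det (σ : Qbar →+* Qbar) (U i)).symm
    rw [h8, h7, map_mul, hsqφ]
    linear_combination sg i * h3 + (F.P i x).det * hsg2 i
  -- the polynomials in the square root of the multiplier
  have key1 : ∀ γ ∈ F.Γ, (∀ i, F.orth i = true → (γ i).det = 1) → ∀ z : ℂ,
      ∑ l : Ix n → Fin (δ + 1), (∑ a : Fin h, (z ^ 2) ^ (a : ℕ) * io (c l a)) *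
      ∏ y : Ix n, (((γ y.1).map (algebraMap ℚ ℂ) * (z ^ F.w y.1 • (V y.1).map φ)) y.2.1 y.2.2) ^
        (l y : ℕ) = 0 := by
    intro γ hγ hγ1 z
    have h7 : ∀ i, (γ i).map (algebraMap ℚ ℂ) * F.Jx i * ((γ i).map (algebraMap ℚ ℂ)).transpose =
        F.Jx i := by
      intro i
      have h7 := congrArg (fun M : Matrix (Fin (n i)) (Fin (n i)) ℚ => M.map (algebraMap ℚ ℂ)) (F.pres γ hγ i)
      simp only [Matrix.map_mul] at h7
      rw [Matrix.transpose_map] at h7
      exact h7
    have hp0 : pol F (fun l a => ioQ io (c l a)) (fun i => (γ i).map (algebraMap ℚ Qbar) * U i) = 0 := by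
      obtain ⟨s, hs⟩ := IsAlgClosed.exists_pow_nat_eq tpi (n := 2) two_pos
      refine root_trans s hs _ ?_
      rw [pol_eval]
      have h5 : (fun q : Ix n => ((γ q.1).map (algebraMap ℚ ℂ) * (s ^ F.w q.1 • (U q.1).map φ)) q.2.1 q.2.2) ∈
          F.Comp b x := by
        refine comp_mem F b x (fun i => (γ i).map (algebraMap ℚ ℂ) * (s ^ F.w i • (U i).map φ))
          (fun i => ?_) (fun i ho => ?_)
        · have h6 := hscal U hU s i
          rw [hs] at h6
          exact sp_mul (h7 i) h6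
        · show ((γ i).map (algebraMap ℚ ℂ) * (s ^ F.w i • (U i).map φ)).det = sg i * (F.P i x).det
          have h8 : ((γ i).map (algebraMap ℚ ℂ)).det = algebraMap ℚ ℂ (γ i).det :=
            (RingHom.map_det (algebraMap ℚ ℂ) (γ i)).symm
          have h9 : ((U i).map φ).det = φ (U i).det := (RingHom.map_det φ (U i)).symm
          have h10 : (s ^ F.w i) ^ n i = tpi ^ (F.w i / 2 * n i) := by
            rw [← hs, ← pow_mul, ← pow_mul]
            congr 1
            have := half_w F ho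
            calc F.w i * n i = 2 * (F.w i / 2) * n i := by rw [this]
              _ = 2 * (F.w i / 2 * n i) := by ring
          rw [Matrix.det_mul, Matrix.det_smul, Fintype.card_fin, h8, hγ1 i ho, map_one, one_mul, h9, h10]
          have := hUd i ho
          linear_combination this
      have h8 := H _ h5
      rw [hs]
      exact h8
    have hp1 := congrArg (Polynomial.map (σ : Qbar →+* Qbar)) hp0
    rw [pol_map, Polynomial.map_zero] at hp1
    have e1 : (fun (l : Ix n → Fin (δ + 1)) (a : Fin h) => (σ : Qbar →+* Qbar) (ioQ io (c l a))) =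
        fun l a => ioQ io (c l a) := by
      funext l a
      exact hσ _
    have e2 : (fun i => ((γ i).map (algebraMap ℚ Qbar) * U i).map (σ : Qbar →+* Qbar)) =
        fun i => (γ i).map (algebraMap ℚ Qbar) * V i := by
      funext i
      rw [Matrix.map_mul]
      congr 1
      refine Matrix.ext fun a b => ?_
      rw [Matrix.map_apply, Matrix.map_apply]
      exact map_ratCast σ _
    rw [e1, e2] at hp1
    have h9 := pol_eval F (fun l a => ioQ io (c l a)) γ V z
    rw [hp1, Polynomial.eval₂_zero] at h9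
    exact h9.symm
  -- density
  obtain ⟨hμ, hY, hYd⟩ := hp
  obtain ⟨z, hz⟩ := IsAlgClosed.exists_pow_nat_eq p.2 (n := 2) two_pos
  have hz0 : z ^ 2 ≠ 0 := by rw [hz]; exact hμ
  have hY' : ∀ i, p.1 i * F.Qx x i * (p.1 i).transpose = (z ^ 2) ^ F.w i • F.Jx i := by
    intro i
    rw [hz]
    exact hY i
  have h3 := fun i => sp_diff (pow_ne_zero (F.w i) hz0) (Jx_det F i) (hY' i) (hscal V hVU z i)
  set g : ∀ i, Matrix (Fin (n i)) (Fin (n i)) ℂ := fun i =>
    p.1 i * (z ^ F.w i • (V i).map φ)⁻¹ with hg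
  have hgd : ∀ i, F.orth i = true → (g i).det = 1 := by
    intro i ho
    have h4 := congrArg Matrix.det (h3 i).2
    have h4' : (g i * (z ^ F.w i • (V i).map φ)).det = (p.1 i).det := h4
    have h9 : ((V i).map φ).det = φ (V i).det := (RingHom.map_det φ (V i)).symm
    have h10 : (z ^ F.w i) ^ n i = (z ^ 2) ^ (F.w i / 2 * n i) := by
      rw [← pow_mul, ← pow_mul]
      congr 1
      have := half_w F ho
      calc F.w i * n i = 2 * (F.w i / 2) * n i := by rw [this]
        _ = 2 * (F.w i / 2 * n i) := by ring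
    rw [Matrix.det_mul, Matrix.det_smul, Fintype.card_fin, h9, h10] at h4'
    have h5 := hYd i ho
    have h6 := hVd i ho
    rw [← hz] at h5
    have hne : (z ^ 2) ^ (F.w i / 2 * n i) * (F.P i x).det ≠ 0 :=
      mul_ne_zero (pow_ne_zero _ hz0) (P_det F he i)
    apply mul_right_cancel₀ hne
    calc (g i).det * ((z ^ 2) ^ (F.w i / 2 * n i) * (F.P i x).det)
        = ((g i).det * ((z ^ 2) ^ (F.w i / 2 * n i) * φ (V i).det)) * tpi ^ (F.w i / 2 * n i) := by
          rw [← h6]; ring
      _ = (p.1 i).det * tpi ^ (F.w i / 2 * n i) := by rw [h4']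
      _ = 1 * ((z ^ 2) ^ (F.w i / 2 * n i) * (F.P i x).det) := by rw [h5]; ring
  set R : MvPolynomial (Ix n) ℂ :=
    ∑ l : Ix n → Fin (δ + 1), (∑ a : Fin h, MvPolynomial.C ((z ^ 2) ^ (a : ℕ) * io (c l a))) *
      ∏ y : Ix n, (∑ k, MvPolynomial.X (⟨y.1, (y.2.1, k)⟩ : Ix n) *
        MvPolynomial.C (z ^ F.w y.1 * φ (V y.1 k y.2.2))) ^ (l y : ℕ) with hR
  have hRe : ∀ g : ∀ i, Matrix (Fin (n i)) (Fin (n i)) ℂ,
      MvPolynomial.eval (fun q => (g q.1) q.2.1 q.2.2) R = ∑ l : Ix n → Fin (δ + 1),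
        (∑ a : Fin h, (z ^ 2) ^ (a : ℕ) * io (c l a)) *
        ∏ y : Ix n, ((g y.1 * (z ^ F.w y.1 • (V y.1).map φ)) y.2.1 y.2.2) ^ (l y : ℕ) := by
    intro g
    rw [hR]
    simp only [map_sum, map_mul, map_prod, map_pow, MvPolynomial.eval_C, MvPolynomial.eval_X, Matrix.mul_apply,
      Matrix.smul_apply, Matrix.map_apply, smul_eq_mul]
  have key := F.dense (R * ∏ i : ι, if F.orth i = true then 1 + dt n i else 1) ?_ g (fun i => (h3 i).1)
  · rw [map_mul, map_prod] at key
    have h4 : ∏ i : ι, MvPolynomial.eval (fun q : Ix n => g q.1 q.2.1 q.2.2)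
        (if F.orth i = true then 1 + dt n i else 1) ≠ 0 := by
      rw [Finset.prod_ne_zero_iff]
      intro i _
      split_ifs with ho
      · rw [map_add, map_one, dt_eval, hgd i ho]
        norm_num
      · rw [map_one]
        exact one_ne_zero
    have h5 := (mul_eq_zero.1 key).resolve_right h4
    rw [hRe, hz] at h5
    refine Eq.trans (Finset.sum_congr rfl fun l _ => ?_) h5
    congr 1
    refine Finset.prod_congr rfl fun y _ => ?_
    congr 1
    exact (congrFun (congrFun (h3 y.1).2 y.2.1) y.2.2).symm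
  · intro γ hγ
    rw [map_mul]
    by_cases hall : ∀ i, F.orth i = true → (γ i).det = 1
    · have h4 := hRe (fun i => (γ i).map (algebraMap ℚ ℂ))
      rw [key1 γ hγ hall z] at h4
      rw [h4, zero_mul]
    · push Not at hall
      obtain ⟨i, ho, hi⟩ := hall
      rw [map_prod]
      have h4 : ∏ i : ι, MvPolynomial.eval (fun q : Ix n => ((γ q.1).map (algebraMap ℚ ℂ)) q.2.1 q.2.2)
          (if F.orth i = true then 1 + dt n i else 1) = 0 := by
        refine Finset.prod_eq_zero (Finset.mem_univ i) ?_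
        rw [if_pos ho, map_add, map_one,
          dt_eval i (fun i => (γ i).map (algebraMap ℚ ℂ))]
        have h5 : ((γ i).map (algebraMap ℚ ℂ)).det = algebraMap ℚ ℂ (γ i).det :=
          (RingHom.map_det (algebraMap ℚ ℂ) (γ i)).symm
        have h6 := congrArg Matrix.det (F.pres γ hγ i)
        rw [Matrix.det_mul, Matrix.det_mul, Matrix.det_transpose] at h6
        have h7 : ((γ i).det - 1) * ((γ i).det + 1) = 0 := by
          apply mul_right_cancel₀ (F.J_det i)
          linear_combination h6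
        have h8 : (γ i).det = -1 := by
          rcases mul_eq_zero.1 h7 with h8 | h8
          · exact absurd (sub_eq_zero.1 h8) hi
          · linear_combination h8
        rw [h5, h8, map_neg, map_one]
        ring
      rw [h4, mul_zero]

end Pool.Agent.Helper6K9.OS
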