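import Pool.Agent.Helper6K9.OS.InstDefs

/-!
# Products of Kummer surfaces
-/

set_option autoImplicit false
set_option linter.unusedSectionVars false
set_option linter.unusedSimpArgs false

open Matrix

namespace Pool.Agent.Helper6K9.OS.Ins

open Pool.Agent.Y118.HP (jm SpS jm_det jm_transpose jm_map SpS_map qm)
open Pool.Agent.Y890.MV
open Pool.Agent.Y890.HE
open Pool.Agent.Y890.SM (Ix bl tpi hyp)
open Pool.Agent.Y890.SP (Qbar)

/-! ### the symmetric square -/

/-- the symmetric square in the basis `e₀², e₀ e₁, e₁²` -/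
def SG {R : Type} [CommRing R] (g : Matrix (Fin 2) (Fin 2) R) : Matrix (Fin 3) (Fin 3) R :=
  Matrix.of ![![g 0 0 ^ 2, 2 * (g 0 0 * g 0 1), g 0 1 ^ 2],
    ![g 0 0 * g 1 0, g 0 0 * g 1 1 + g 0 1 * g 1 0, g 0 1 * g 1 1],
    ![g 1 0 ^ 2, 2 * (g 1 0 * g 1 1), g 1 1 ^ 2]]

/-- the form -/
def J3 : Matrix (Fin 3) (Fin 3) ℚ := Matrix.of ![![0, 0, 1], ![0, -1 / 2, 0], ![1, 0, 0]]

/-- the complex form -/
noncomputable def J3C : Matrix (Fin 3) (Fin 3) ℂ := Matrix.of ![![0, 0, 1], ![0, -1 / 2, 0], ![1, 0, 0]]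

theorem J3_map : J3.map (algebraMap ℚ ℂ) = J3C := by
  refine Matrix.ext fun a b => ?_
  fin_cases a <;> fin_cases b <;> simp [J3, J3C]

theorem J3_det : J3.det ≠ 0 := by
  rw [Matrix.det_fin_three]
  simp [J3]

theorem J3_sym : J3.transpose = J3 := by
  refine Matrix.ext fun a b => ?_
  fin_cases a <;> fin_cases b <;> simp [J3]

theorem SG_map {R S : Type} [CommRing R] [CommRing S] (φ : R →+* S) (g : Matrix (Fin 2) (Fin 2) R) :
    (SG g).map φ = SG (g.map φ) := by
  refine Matrix.ext fun a b => ?_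
  have h2 : φ 2 = 2 := map_ofNat φ 2
  fin_cases a <;> fin_cases b <;> simp [SG, h2]

theorem SG_pres (g : Matrix (Fin 2) (Fin 2) ℚ) : SG g * J3 * (SG g).transpose = g.det ^ 2 • J3 := by
  rw [Matrix.det_fin_two]
  refine Matrix.ext fun a b => ?_
  fin_cases a <;> fin_cases b <;>
    simp [SG, J3, Matrix.mul_apply, Fin.sum_univ_three] <;> ring

theorem sy_mul (g A : Matrix (Fin 2) (Fin 2) ℂ) : sy (g * A) = SG g * sy A := by
  refine Matrix.ext fun a b => ?_
  fin_cases a <;> fin_cases b <;>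
    simp [SG, sy, p0, p1, Matrix.mul_apply, Fin.sum_univ_three, Fin.sum_univ_two] <;> ring

/-- the dual form -/
noncomputable def Q3C : Matrix (Fin 3) (Fin 3) ℂ := Matrix.of ![![0, 0, 1], ![0, -2, 0], ![1, 0, 0]]

theorem sy_form (A : Matrix (Fin 2) (Fin 2) ℂ) :
    sy A * Q3C * (sy A).transpose = A.det ^ 2 • J3C := by
  rw [Matrix.det_fin_two]
  refine Matrix.ext fun a b => ?_
  fin_cases a <;> fin_cases b <;>
    simp [sy, p0, p1, Q3C, J3C, Matrix.mul_apply, Fin.sum_univ_three] <;> ring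

theorem jm_two {K : Type} [Field K] : jm K 2 = Matrix.of ![![0, -1], ![1, 0]] := by
  refine Matrix.ext fun a b => ?_
  fin_cases a <;> fin_cases b <;> simp [jm]

theorem two_form {K : Type} [Field K] (A : Matrix (Fin 2) (Fin 2) K) :
    A * jm K 2 * A.transpose = A.det • jm K 2 := by
  rw [Matrix.det_fin_two, jm_two]
  refine Matrix.ext fun a b => ?_
  fin_cases a <;> fin_cases b <;>
    simp [Matrix.mul_apply, Fin.sum_univ_two] <;> ring

theorem mem_SpS {K : Type} [Field K] (A : Matrix (Fin 2) (Fin 2) K) : A ∈ SpS K 2 ↔ A.det = 1 := by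
  show A * jm K 2 * A.transpose = jm K 2 ↔ _
  rw [two_form]
  constructor
  · intro h
    have h1 := congrFun (congrFun h 1) 0
    rw [Matrix.smul_apply, jm_two] at h1
    simpa using h1
  · intro h
    rw [h, one_smul]

/-- **the orthogonal group of the form is the product of the image of `SL₂` and of the signs** -/
theorem O3 (M : Matrix (Fin 3) (Fin 3) ℂ) (h : M * J3C * M.transpose = J3C) :
    ∃ (s : ℚ) (g : Matrix (Fin 2) (Fin 2) ℂ), (s = 1 ∨ s = -1) ∧ g.det = 1 ∧ M = (s : ℂ) • SG g := by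
  have hent : ∀ a b, M a 0 * M b 2 + M a 2 * M b 0 - M a 1 * M b 1 / 2 = J3C a b := by
    intro a b
    have h1 := congrFun (congrFun h a) b
    simp only [Matrix.mul_apply, Fin.sum_univ_three, Matrix.transpose_apply] at h1
    rw [← h1]
    simp [J3C]
    ring
  have h00 := hent 0 0
  have h01 := hent 0 1
  have h02 := hent 0 2
  have h11 := hent 1 1
  have h12 := hent 1 2
  have h22 := hent 2 2
  simp only [J3C, Matrix.of_apply, Matrix.cons_val] at h00 h01 h02 h11 h12 h22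
  -- isotropic vectors
  have iso : ∀ x y z : ℂ, x * z + z * x - y * y / 2 = 0 → ∃ α β : ℂ, x = α ^ 2 ∧ y = 2 * (α * β) ∧ z = β ^ 2 := by
    intro x y z hxyz
    by_cases hx : x = 0
    · obtain ⟨β, hβ⟩ := IsAlgClosed.exists_pow_nat_eq z (n := 2) two_pos
      have hy : y = 0 := by
        have h1 : y * y = 0 := by rw [hx] at hxyz; linear_combination -2 * hxyz
        exact mul_self_eq_zero.1 h1
      exact ⟨0, β, by rw [hx]; ring, by rw [hy]; ring, hβ.symm⟩
    · obtain ⟨α, hα⟩ := IsAlgClosed.exists_pow_nat_eq x (n := 2) two_pos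
      have hα0 : α ≠ 0 := by
        rintro rfl
        apply hx
        rw [← hα]
        ring
      refine ⟨α, y / (2 * α), hα.symm, by field_simp, ?_⟩
      rw [← hα] at hxyz
      field_simp
      linear_combination 2 * hxyz
  obtain ⟨α, β, a0, a1, a2⟩ := iso _ _ _ h00
  obtain ⟨γ, δ, c0, c1, c2⟩ := iso _ _ _ h22
  have hD : (α * δ - β * γ) ^ 2 = 1 := by
    rw [a0, a1, a2, c0, c1, c2] at h02
    linear_combination h02
  -- change the sign of the second vector
  obtain ⟨γ', δ', c0', c1', c2', hD'⟩ : ∃ γ' δ' : ℂ, M 2 0 = γ' ^ 2 ∧ M 2 1 = 2 * (γ' * δ') ∧ M 2 2 = δ' ^ 2 ∧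
      α * δ' - β * γ' = 1 := by
    have h0 : (α * δ - β * γ - 1) * (α * δ - β * γ + 1) = 0 := by linear_combination hD
    have hc : α * δ - β * γ = 1 ∨ α * δ - β * γ = -1 := by
      rcases mul_eq_zero.1 h0 with h1 | h1
      · exact Or.inl (sub_eq_zero.1 h1)
      · exact Or.inr (by linear_combination h1)
    rcases hc with h1 | h1
    · exact ⟨γ, δ, c0, c1, c2, h1⟩
    · exact ⟨-γ, -δ, by rw [c0]; ring, by rw [c1]; ring, by rw [c2]; ring, by linear_combination -h1⟩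
  set x := M 1 0
  set y := M 1 1
  set z := M 1 2
  have E1 : α ^ 2 * z + β ^ 2 * x - α * β * y = 0 := by
    rw [a0, a1, a2] at h01
    linear_combination h01
  have E2 : δ' ^ 2 * x + γ' ^ 2 * z - γ' * δ' * y = 0 := by
    rw [c0', c1', c2'] at h12
    linear_combination h12
  obtain ⟨c, hc⟩ : ∃ c : ℂ, c = y * (α * δ' + β * γ') - 2 * x * β * δ' - 2 * z * α * γ' := ⟨_, rfl⟩
  have hD2 : (α * δ' - β * γ') ^ 2 = 1 := by rw [hD']; ring
  have ex : x = c * (α * γ') := by
    rw [hc]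
    linear_combination α ^ 2 * E2 + γ' ^ 2 * E1 - x * hD2
  have ez : z = c * (β * δ') := by
    rw [hc]
    linear_combination β ^ 2 * E2 + δ' ^ 2 * E1 - z * hD2
  have ey : y = c * (α * δ' + β * γ') := by
    rw [hc]
    linear_combination 2 * α * β * E2 + 2 * γ' * δ' * E1 - y * hD2
  have hc2 : c ^ 2 = 1 := by
    rw [ex, ey, ez] at h11
    linear_combination -2 * h11 - c ^ 2 * hD2
  have hc3 : c = 1 ∨ c = -1 := by
    have h0 : (c - 1) * (c + 1) = 0 := by linear_combination hc2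
    rcases mul_eq_zero.1 h0 with h1 | h1
    · exact Or.inl (sub_eq_zero.1 h1)
    · exact Or.inr (by linear_combination h1)
  rcases hc3 with h1 | h1
  · refine ⟨1, Matrix.of ![![α, β], ![γ', δ']], Or.inl rfl, ?_, ?_⟩
    · rw [Matrix.det_fin_two]
      simpa using hD'
    · rw [h1] at ex ey ez
      refine Matrix.ext fun a b => ?_
      fin_cases a <;> fin_cases b <;>
        simp only [SG, Matrix.smul_apply, Matrix.of_apply, Matrix.cons_val, Matrix.cons_val_zero,
          Matrix.cons_val_one, Fin.zero_eta, Fin.mk_one, Fin.isValue, Fin.reduceFinMk, smul_eq_mul,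
          Rat.cast_one, one_mul]
      · exact a0
      · exact a1
      · exact a2
      · linear_combination ex
      · linear_combination ey
      · linear_combination ez
      · exact c0'
      · exact c1'
      · exact c2'
  · refine ⟨-1, Matrix.of ![![Complex.I * α, Complex.I * β], ![-(Complex.I * γ'), -(Complex.I * δ')]],
      Or.inr rfl, ?_, ?_⟩
    · rw [Matrix.det_fin_two]
      simp only [Matrix.of_apply, Matrix.cons_val, Matrix.cons_val_zero, Matrix.cons_val_one]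
      linear_combination hD' + (-α * δ' + β * γ') * Complex.I_sq
    · rw [h1] at ex ey ez
      refine Matrix.ext fun a b => ?_
      fin_cases a <;> fin_cases b <;>
        simp only [SG, Matrix.smul_apply, Matrix.of_apply, Matrix.cons_val, Matrix.cons_val_zero,
          Matrix.cons_val_one, Fin.zero_eta, Fin.mk_one, Fin.isValue, Fin.reduceFinMk, smul_eq_mul,
          Rat.cast_neg, Rat.cast_one]
      · linear_combination a0 + α ^ 2 * Complex.I_sq
      · linear_combination a1 + 2 * (α * β) * Complex.I_sq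
      · linear_combination a2 + β ^ 2 * Complex.I_sq
      · linear_combination ex - α * γ' * Complex.I_sq
      · linear_combination ey - (α * δ' + β * γ') * Complex.I_sq
      · linear_combination ez - β * δ' * Complex.I_sq
      · linear_combination c0' + γ' ^ 2 * Complex.I_sq
      · linear_combination c1' + 2 * (γ' * δ') * Complex.I_sq
      · linear_combination c2' + δ' ^ 2 * Complex.I_sq

/-! ### the family -/

section fam

variable {ι : Type} [Fintype ι] [DecidableEq ι]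

/-- the index set of the coordinates -/
abbrev XI (ι : Type) : Type := (Σ _ : ι, Fin (2 + 1)) ⊕ ι

/-- the domain -/
def UK (ι : Type) : Set (XI ι → ℂ) := {x | (∀ i, 0 < (x (Sum.inr i)).re) ∧
  (fun s => x (Sum.inl s)) ∈ Conf (fun _ : ι => 2)}

/-- the periods -/
noncomputable def PK (i : ι) (x : XI ι → ℂ) : Matrix (Fin 3) (Fin 3) ℂ :=
  ((x (Sum.inr i)) ^ (-(1 / 2) : ℂ)) • sy (pm (fun _ : ι => 2) (fun s => x (Sum.inl s)) i)

theorem hn2 : ∀ _ : ι, Even 2 := fun _ => even_two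

theorem cpow_sq {d : ℂ} (hd : d ≠ 0) : (d ^ (-(1 / 2) : ℂ)) ^ 2 = d⁻¹ := by
  rw [← Complex.cpow_nat_mul, ← Complex.cpow_neg_one]
  congr 1
  push_cast
  ring

theorem cpow_of_sq {u : ℂ} (hu : 0 < u.re) : (u ^ 2) ^ (-(1 / 2) : ℂ) = u⁻¹ := by
  rw [Complex.cpow_neg, one_div, Complex.sq_cpow_two_inv hu]

/-- the sign changes -/
theorem flip (p : MvPolynomial (Ix (fun _ : ι => 3)) (MvPolynomial (XI ι) ℂ))
    (hp : ∀ x ∈ UK ι, evX x (fun q => PK q.1 x q.2.1 q.2.2) p = 0)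
    {e : (Σ _ : ι, Fin (2 + 1)) → ℂ} (he : e ∈ Conf (fun _ : ι => 2)) (u : ι → ℂ) (hu : ∀ i, u i ≠ 0) :
    evX (Sum.elim e fun i => u i ^ 2)
      (fun q => (u q.1)⁻¹ * sy (pm (fun _ : ι => 2) e q.1) q.2.1 q.2.2) p = 0 := by
  classical
  set B : Ix (fun _ : ι => 3) → ℂ := fun q => sy (pm (fun _ : ι => 2) e q.1) q.2.1 q.2.2 with hB
  obtain ⟨K, hK⟩ : ∃ K : ℕ, ∀ m ∈ p.support, ∀ q, m q ≤ K := by
    refine ⟨∑ m ∈ p.support, ∑ q, m q, fun m hm q => ?_⟩
    calc m q ≤ ∑ q, m q := Finset.single_le_sum (f := fun q => m q) (fun _ _ => Nat.zero_le _) (Finset.mem_univ q)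
      _ ≤ _ := Finset.single_le_sum (f := fun m : (Ix (fun _ : ι => 3)) →₀ ℕ => ∑ q, m q)
          (fun _ _ => Nat.zero_le _) hm
  set W : MvPolynomial ι ℂ := ∑ m ∈ p.support,
    (MvPolynomial.aeval (Sum.elim (fun s => (MvPolynomial.C (e s) : MvPolynomial ι ℂ))
      (fun i => MvPolynomial.X i ^ 2)) (p.coeff m)) *
    ∏ q : Ix (fun _ : ι => 3), (MvPolynomial.C (B q ^ m q) * MvPolynomial.X q.1 ^ (K - m q)) with hW
  have hWe : ∀ w : ι → ℂ, (∀ i, w i ≠ 0) → MvPolynomial.eval w W =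
      (∏ q : Ix (fun _ : ι => 3), w q.1 ^ K) *
        evX (Sum.elim e fun i => w i ^ 2) (fun q => (w q.1)⁻¹ * B q) p := by
    intro w hw
    unfold evX
    rw [MvPolynomial.eval₂_eq', Finset.mul_sum, hW, map_sum]
    refine Finset.sum_congr rfl fun m hm => ?_
    have e1 : MvPolynomial.eval w (MvPolynomial.aeval (Sum.elim (fun s => (MvPolynomial.C (e s) : MvPolynomial ι ℂ))
        (fun i => MvPolynomial.X i ^ 2)) (p.coeff m)) =
        MvPolynomial.eval (Sum.elim e fun i => w i ^ 2) (p.coeff m) := by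
      rw [MvPolynomial.aeval_def, MvPolynomial.hom_eval₂]
      have e3 : (MvPolynomial.eval w).comp (algebraMap ℂ (MvPolynomial ι ℂ)) = RingHom.id ℂ := by
        ext a
        simp
      have e4 : (fun i => MvPolynomial.eval w (Sum.elim (fun s => (MvPolynomial.C (e s) : MvPolynomial ι ℂ))
          (fun i => MvPolynomial.X i ^ 2) i)) = Sum.elim e fun i => w i ^ 2 := by
        funext i
        rcases i with i | i <;> simp
      rw [e3, e4]
      rfl
    rw [map_mul, e1, map_prod]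
    have e2 : ∀ q : Ix (fun _ : ι => 3), MvPolynomial.eval w (MvPolynomial.C (B q ^ m q) *
        MvPolynomial.X q.1 ^ (K - m q)) = w q.1 ^ K * ((w q.1)⁻¹ * B q) ^ m q := by
      intro q
      rw [map_mul, MvPolynomial.eval_C, map_pow, MvPolynomial.eval_X, mul_pow, inv_pow]
      have h1 : w q.1 ^ K = w q.1 ^ (K - m q) * w q.1 ^ m q := by
        rw [← pow_add, Nat.sub_add_cancel (hK m hm q)]
      have h2 : w q.1 ^ m q ≠ 0 := pow_ne_zero _ (hw q.1)
      rw [h1]
      field_simp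
    simp only [e2]
    rw [Finset.prod_mul_distrib]
    ring
  have hW0 : W = 0 := by
    refine MvPolynomial.funext_set (fun _ => {z : ℂ | ∃ k : ℕ, z = (k : ℂ) + 1}) (fun _ => ?_) fun w hw => ?_
    · refine Set.infinite_of_injective_forall_mem (f := fun k : ℕ => (k : ℂ) + 1) (fun a b hab => ?_)
        fun k => ⟨k, rfl⟩
      have : (a : ℂ) = b := by simpa using hab
      exact_mod_cast this
    · have hre : ∀ i, 0 < (w i).re := by
        intro i
        obtain ⟨k, hk⟩ := hw i (Set.mem_univ i)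
        rw [hk]
        simp only [Complex.add_re, Complex.natCast_re, Complex.one_re]
        positivity
      have hne : ∀ i, w i ≠ 0 := by
        intro i h0
        have := hre i
        rw [h0] at this
        simp at this
      have hre2 : ∀ i, 0 < (w i ^ 2).re := by
        intro i
        obtain ⟨k, hk⟩ := hw i (Set.mem_univ i)
        rw [hk]
        have : (((k : ℂ) + 1) ^ 2).re = ((k : ℝ) + 1) ^ 2 := by
          have h1 : ((k : ℂ) + 1) ^ 2 = ((((k : ℝ) + 1) ^ 2 : ℝ) : ℂ) := by push_cast; ring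
          rw [h1, Complex.ofReal_re]
        rw [this]
        positivity
      rw [hWe w hne, map_zero]
      have h1 := hp (Sum.elim e fun i => w i ^ 2) ⟨fun i => hre2 i, he⟩
      have h2 : (fun q : Ix (fun _ : ι => 3) => PK q.1 (Sum.elim e fun i => w i ^ 2) q.2.1 q.2.2) =
          fun q => (w q.1)⁻¹ * B q := by
        funext q
        unfold PK
        rw [Matrix.smul_apply, smul_eq_mul, Sum.elim_inr, cpow_of_sq (hre q.1)]
        rfl
      rw [h2] at h1
      rw [h1, mul_zero]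
  have h1 := hWe u hu
  rw [hW0, map_zero] at h1
  have h2 : ∏ q : Ix (fun _ : ι => 3), u q.1 ^ K ≠ 0 :=
    Finset.prod_ne_zero_iff.2 fun q _ => pow_ne_zero _ (hu q.1)
  exact (mul_eq_zero.1 h1.symm).resolve_left h2

/-- the monodromy -/
theorem mono (p : MvPolynomial (Ix (fun _ : ι => 3)) (MvPolynomial (XI ι) ℂ))
    (hp : ∀ x ∈ UK ι, evX x (fun q => PK q.1 x q.2.1 q.2.2) p = 0)
    (s : ι → ℚ) (hs : ∀ i, s i = 1 ∨ s i = -1) (g : ι → Matrix (Fin 2) (Fin 2) ℚ) (hg : ∀ i, g i ∈ SpS ℚ 2)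
    {x : XI ι → ℂ} (hx : x ∈ UK ι) :
    evX x (fun q => ((s q.1 • SG (g q.1)).map (algebraMap ℚ ℂ) * PK q.1 x) q.2.1 q.2.2) p = 0 := by
  classical
  set e : (Σ _ : ι, Fin (2 + 1)) → ℂ := fun s => x (Sum.inl s) with he
  set d : ι → ℂ := fun i => x (Sum.inr i)
  have hd0 : ∀ i, d i ≠ 0 := by
    intro i h0
    have := hx.1 i
    rw [show x (Sum.inr i) = d i from rfl, h0] at this
    simp at this
  have hxe : x = Sum.elim e d := by
    funext i
    rcases i with i | i <;> rfl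
  set t : ι → ℂ := fun i => (s i : ℂ) * d i ^ (-(1 / 2) : ℂ) with ht
  have hs2 : ∀ i, (s i : ℂ) ^ 2 = 1 := by
    intro i
    rcases hs i with h | h <;> rw [h] <;> norm_num
  have ht2 : ∀ i, t i ^ 2 = (d i)⁻¹ := by
    intro i
    simp only [ht]
    rw [mul_pow, hs2, cpow_sq (hd0 i), one_mul]
  have ht0 : ∀ i, t i ≠ 0 := by
    intro i h0
    have := ht2 i
    rw [h0] at this
    exact inv_ne_zero (hd0 i) (by rw [← this]; ring)
  -- the relation on the whole configuration space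
  have key : ∀ e' ∈ Conf (fun _ : ι => 2), evX (Sum.elim e' d)
      (fun q => t q.1 * sy (pm (fun _ : ι => 2) e' q.1) q.2.1 q.2.2) p = 0 := by
    intro e' he'
    have h1 := flip p hp he' (fun i => (t i)⁻¹) (fun i => inv_ne_zero (ht0 i))
    simp only [inv_inv] at h1
    have h2 : (fun i => (t i)⁻¹ ^ 2) = d := by
      funext i
      rw [inv_pow, ht2, inv_inv]
    rw [h2] at h1
    exact h1
  -- the polynomial in the periods of the curves
  set ψ : MvPolynomial (XI ι) ℂ →+* MvPolynomial (Ix (fun _ : ι => 2)) (MvPolynomial (Σ _ : ι, Fin (2 + 1)) ℂ) :=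
    (MvPolynomial.C).comp (MvPolynomial.eval₂Hom MvPolynomial.C
      (Sum.elim (fun s => MvPolynomial.X s) (fun i => MvPolynomial.C (d i)))) with hψ
  set sp : Ix (fun _ : ι => 3) → MvPolynomial (Ix (fun _ : ι => 2)) (MvPolynomial (Σ _ : ι, Fin (2 + 1)) ℂ) :=
    fun q => MvPolynomial.C (MvPolynomial.C (t q.1 / 2)) *
      (MvPolynomial.X ⟨q.1, (p0 q.2.1, p0 q.2.2)⟩ * MvPolynomial.X ⟨q.1, (p1 q.2.1, p1 q.2.2)⟩ +
       MvPolynomial.X ⟨q.1, (p0 q.2.1, p1 q.2.2)⟩ * MvPolynomial.X ⟨q.1, (p1 q.2.1, p0 q.2.2)⟩) with hsp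
  have hev : ∀ (e' : (Σ _ : ι, Fin (2 + 1)) → ℂ) (Z : ι → Matrix (Fin 2) (Fin 2) ℂ),
      evX e' (fun q : Ix (fun _ : ι => 2) => Z q.1 q.2.1 q.2.2) (MvPolynomial.eval₂ ψ sp p) =
        evX (Sum.elim e' d) (fun q => t q.1 * sy (Z q.1) q.2.1 q.2.2) p := by
    intro e' Z
    have h3 : ∀ P, evX e' (fun q : Ix (fun _ : ι => 2) => Z q.1 q.2.1 q.2.2) P =
      MvPolynomial.eval₂Hom (MvPolynomial.eval e') (fun q : Ix (fun _ : ι => 2) => Z q.1 q.2.1 q.2.2) P :=
      fun _ => rfl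
    rw [h3, MvPolynomial.hom_eval₂]
    unfold evX
    congr 1
    · rw [hψ]
      refine MvPolynomial.ringHom_ext (fun a => ?_) fun i => ?_
      · simp
      · rcases i with i | i <;> simp
    · funext q
      simp only [hsp, map_mul, map_add, MvPolynomial.coe_eval₂Hom, MvPolynomial.eval₂_C, MvPolynomial.eval_C,
        MvPolynomial.eval₂_X]
      unfold sy
      rw [Matrix.of_apply]
      ring
  have h4 := (hyp (fun _ : ι => 2) hn2).mon g hg (MvPolynomial.eval₂ ψ sp p)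
    (fun e' he' => (hev e' (fun i => pm (fun _ : ι => 2) e' i)).trans (key e' he')) e hx.2
  have h5 := hev e (fun i => (g i).map (algebraMap ℚ ℂ) * pm (fun _ : ι => 2) e i)
  have h6 : evX e (fun q : Ix (fun _ : ι => 2) =>
      ((g q.1).map (algebraMap ℚ ℂ) * pm (fun _ : ι => 2) e q.1) q.2.1 q.2.2) (MvPolynomial.eval₂ ψ sp p) = 0 := h4
  rw [h6] at h5
  rw [← hxe] at h5
  have h7 : (fun q : Ix (fun _ : ι => 3) => ((s q.1 • SG (g q.1)).map (algebraMap ℚ ℂ) * PK q.1 x) q.2.1 q.2.2) =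
      fun q => t q.1 * sy ((g q.1).map (algebraMap ℚ ℂ) * pm (fun _ : ι => 2) e q.1) q.2.1 q.2.2 := by
    funext q
    rw [sy_mul]
    have h8 : (s q.1 • SG (g q.1)).map (algebraMap ℚ ℂ) = (s q.1 : ℂ) • SG ((g q.1).map (algebraMap ℚ ℂ)) := by
      rw [← SG_map]
      refine Matrix.ext fun a b => ?_
      rw [Matrix.map_apply, Matrix.smul_apply, Matrix.smul_apply, Matrix.map_apply, smul_eq_mul, map_mul,
        smul_eq_mul]
      rfl
    rw [h8]
    unfold PK
    rw [Matrix.smul_mul, Matrix.mul_smul, smul_smul, Matrix.smul_apply, smul_eq_mul]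
  rw [h7]
  exact h5.symm

/-- density -/
theorem dense3 (R : MvPolynomial (Ix (fun _ : ι => 3)) ℂ)
    (hR : ∀ (s : ι → ℚ), (∀ i, s i = 1 ∨ s i = -1) → ∀ (g : ι → Matrix (Fin 2) (Fin 2) ℚ), (∀ i, g i ∈ SpS ℚ 2) →
      MvPolynomial.eval (fun q : Ix (fun _ : ι => 3) =>
        ((s q.1 • SG (g q.1)).map (algebraMap ℚ ℂ)) q.2.1 q.2.2) R = 0)
    (M : ι → Matrix (Fin 3) (Fin 3) ℂ) (hM : ∀ i, M i * J3C * (M i).transpose = J3C) :
    MvPolynomial.eval (fun q : Ix (fun _ : ι => 3) => M q.1 q.2.1 q.2.2) R = 0 := by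
  classical
  choose s g hs hg hMe using fun i => O3 (M i) (hM i)
  set R2 : MvPolynomial (Ix (fun _ : ι => 2)) ℂ :=
    MvPolynomial.aeval (fun q : Ix (fun _ : ι => 3) => MvPolynomial.C (s q.1 : ℂ) *
      SG (Matrix.of fun a b => (MvPolynomial.X (⟨q.1, (a, b)⟩ : Ix (fun _ : ι => 2)) :
        MvPolynomial (Ix (fun _ : ι => 2)) ℂ)) q.2.1 q.2.2) R with hR2
  have hev : ∀ Z : ι → Matrix (Fin 2) (Fin 2) ℂ,
      MvPolynomial.eval (fun q : Ix (fun _ : ι => 2) => Z q.1 q.2.1 q.2.2) R2 =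
      MvPolynomial.eval (fun q : Ix (fun _ : ι => 3) => (s q.1 : ℂ) * SG (Z q.1) q.2.1 q.2.2) R := by
    intro Z
    rw [hR2, MvPolynomial.aeval_def, MvPolynomial.hom_eval₂]
    have e3 : (MvPolynomial.eval (fun q : Ix (fun _ : ι => 2) => Z q.1 q.2.1 q.2.2)).comp
        (algebraMap ℂ (MvPolynomial (Ix (fun _ : ι => 2)) ℂ)) = RingHom.id ℂ := by
      ext a
      simp
    have e4 : (fun q : Ix (fun _ : ι => 3) => MvPolynomial.eval (fun q : Ix (fun _ : ι => 2) => Z q.1 q.2.1 q.2.2)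
        (MvPolynomial.C (s q.1 : ℂ) * SG (Matrix.of fun a b =>
          (MvPolynomial.X (⟨q.1, (a, b)⟩ : Ix (fun _ : ι => 2)) : MvPolynomial (Ix (fun _ : ι => 2)) ℂ))
          q.2.1 q.2.2)) = fun q => (s q.1 : ℂ) * SG (Z q.1) q.2.1 q.2.2 := by
      funext q
      rw [map_mul, MvPolynomial.eval_C, ← Matrix.map_apply (f := MvPolynomial.eval
        (fun q : Ix (fun _ : ι => 2) => Z q.1 q.2.1 q.2.2)), SG_map]
      congr 3
      refine Matrix.ext fun a b => ?_
      rw [Matrix.map_apply, Matrix.of_apply, MvPolynomial.eval_X]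
    rw [e3, e4]
    rfl
  have h1 := dense_prod (n := fun _ : ι => 2) hn2 R2 (fun g' hg' => ?_) g (fun i => (mem_SpS (g i)).2 (hg i))
  · have h2 := hev g
    have h3 : MvPolynomial.eval (fun q : Ix (fun _ : ι => 2) => g q.1 q.2.1 q.2.2) R2 = 0 := h1
    rw [h3] at h2
    rw [show (fun q : Ix (fun _ : ι => 3) => M q.1 q.2.1 q.2.2) =
      fun q => (s q.1 : ℂ) * SG (g q.1) q.2.1 q.2.2 from ?_]
    · exact h2.symm
    · funext q
      rw [hMe q.1, Matrix.smul_apply, smul_eq_mul]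
  · have h2 := hev (fun i => (g' i).map (algebraMap ℚ ℂ))
    have h3 := hR s hs g' hg'
    refine Eq.trans h2 (Eq.trans ?_ h3)
    congr 2
    funext q
    rw [Matrix.map_apply, Matrix.smul_apply, smul_eq_mul, map_mul, ← SG_map, Matrix.map_apply]
    rfl

theorem pm_det {e : (Σ _ : ι, Fin (2 + 1)) → ℂ} (he : e ∈ Conf (fun _ : ι => 2)) (i : ι) :
    (pm (fun _ : ι => 2) e i).det = 2 * Real.pi := by
  have h1 : pm (fun _ : ι => 2) e i * qm 2 (∏ r : Fin (2 + 1), (Polynomial.X - Polynomial.C (e ⟨i, r⟩))) *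
      (pm (fun _ : ι => 2) e i).transpose = (Real.pi : ℂ) • jm ℂ 2 := (pm_mem hn2 he).2 i
  have hc : (∏ r : Fin (2 + 1), (Polynomial.X - Polynomial.C (e ⟨i, r⟩))).coeff 3 = 1 := by
    have hm : (∏ r : Fin (2 + 1), (Polynomial.X - Polynomial.C (e ⟨i, r⟩))).Monic :=
      Polynomial.monic_prod_of_monic _ _ fun r _ => Polynomial.monic_X_sub_C _
    have hdg : (∏ r : Fin (2 + 1), (Polynomial.X - Polynomial.C (e ⟨i, r⟩))).natDegree = 3 := by
      rw [Polynomial.natDegree_prod_of_monic _ _ fun r _ => Polynomial.monic_X_sub_C _]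
      simp
    have h2 := hm.coeff_natDegree
    rwa [hdg] at h2
  have h2 : qm 2 (∏ r : Fin (2 + 1), (Polynomial.X - Polynomial.C (e ⟨i, r⟩))) = (1 / 2 : ℂ) • jm ℂ 2 := by
    rw [jm_two]
    refine Matrix.ext fun a b => ?_
    fin_cases a <;> fin_cases b <;> simp [qm, hc] <;> ring
  rw [h2, Matrix.mul_smul, Matrix.smul_mul, two_form, smul_smul] at h1
  have h3 := congrFun (congrFun h1 1) 0
  rw [Matrix.smul_apply, Matrix.smul_apply, jm_two] at h3
  simp only [Matrix.of_apply, Matrix.cons_val_one, Matrix.cons_val_zero, smul_eq_mul, mul_one] at h3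
  linear_combination 2 * h3

/-- the matrix of the polarization -/
noncomputable def QK (i : ι) : Matrix (Fin 3) (Fin 3) (MvPolynomial (XI ι) Qbar) :=
  Matrix.of ![![0, 0, -MvPolynomial.X (Sum.inr i)], ![0, 2 * MvPolynomial.X (Sum.inr i), 0],
    ![-MvPolynomial.X (Sum.inr i), 0, 0]]

theorem QK_eval (i : ι) (x : XI ι → ℂ) :
    (QK i).map (MvPolynomial.aeval x) = (-(x (Sum.inr i))) • Q3C := by
  refine Matrix.ext fun a b => ?_
  fin_cases a <;> fin_cases b <;> simp [QK, Q3C]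
  ring

theorem PK_riem {x : XI ι → ℂ} (hx : x ∈ UK ι) (i : ι) :
    PK i x * (QK i).map (MvPolynomial.aeval x) * (PK i x).transpose = tpi ^ 2 • J3C := by
  have hd0 : x (Sum.inr i) ≠ 0 := by
    intro h0
    have := hx.1 i
    rw [h0] at this
    simp at this
  rw [QK_eval]
  unfold PK
  simp only [Matrix.transpose_smul, Matrix.smul_mul, Matrix.mul_smul, smul_smul]
  rw [sy_form, pm_det hx.2, smul_smul]
  congr 1
  have h1 := cpow_sq hd0
  set t := (x (Sum.inr i)) ^ (-(1 / 2) : ℂ)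
  have h2 : t ^ 2 * x (Sum.inr i) = 1 := by rw [h1, inv_mul_cancel₀ hd0]
  unfold tpi
  linear_combination (-4 * (Real.pi : ℂ) ^ 2) * h2 - 4 * (Real.pi : ℂ) ^ 2 * Complex.I_sq

theorem UK_open : IsOpen (UK ι) := by
  have h1 : UK ι = (⋂ i : ι, {x : XI ι → ℂ | 0 < (x (Sum.inr i)).re}) ∩
      (fun x : XI ι → ℂ => fun s => x (Sum.inl s)) ⁻¹' Conf (fun _ : ι => 2) := by
    ext x
    simp [UK]
  rw [h1]
  refine IsOpen.inter (isOpen_iInter_of_finite fun i => ?_) ?_
  · exact isOpen_lt continuous_const (Complex.continuous_re.comp (continuous_apply _))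
  · exact (hyp (fun _ : ι => 2) hn2).isOpen.preimage (continuous_pi fun s => continuous_apply _)

theorem UK_convex : Convex ℝ (UK ι) := by
  have hc : Convex ℝ (Conf (fun _ : ι => 2)) := USig_convex fun i => Ord_convex 2
  intro x hx y hy a b ha hb hab
  refine ⟨fun i => ?_, hc hx.2 hy.2 ha hb hab⟩
  have h1 := hx.1 i
  have h2 := hy.1 i
  have h3 : ((a • x + b • y) (Sum.inr i)).re = a * (x (Sum.inr i)).re + b * (y (Sum.inr i)).re := by
    simp
  rw [h3]
  rcases eq_or_lt_of_le ha with h | h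
  · have hb1 : b = 1 := by linarith
    rw [← h, hb1]
    linarith
  · have := mul_pos h h1
    have := mul_nonneg hb h2.le
    linarith

theorem UK_nonempty : (UK ι).Nonempty := by
  obtain ⟨e, he⟩ := (hyp (fun _ : ι => 2) hn2).nonempty
  exact ⟨Sum.elim e 1, fun i => by simp, he⟩

theorem PK_an (i : ι) (l j : Fin 3) : AnalyticOnNhd ℂ (fun x : XI ι → ℂ => PK i x l j) (UK ι) := by
  intro x hx
  have hlin : AnalyticAt ℂ (fun x : XI ι → ℂ => fun s : (Σ _ : ι, Fin (2 + 1)) => x (Sum.inl s)) x := by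
    let T : (XI ι → ℂ) →L[ℂ] ((Σ _ : ι, Fin (2 + 1)) → ℂ) :=
      ContinuousLinearMap.pi fun s => ContinuousLinearMap.proj (R := ℂ) (φ := fun _ : XI ι => ℂ) (Sum.inl s)
    exact T.analyticAt x
  have hd : AnalyticAt ℂ (fun x : XI ι → ℂ => x (Sum.inr i)) x := by
    let T : (XI ι → ℂ) →L[ℂ] ℂ := ContinuousLinearMap.proj (R := ℂ) (φ := fun _ : XI ι => ℂ) (Sum.inr i)
    exact T.analyticAt x
  have hpm : ∀ a b : Fin 2, AnalyticAt ℂ (fun x : XI ι → ℂ =>
      pm (fun _ : ι => 2) (fun s => x (Sum.inl s)) i a b) x := by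
    intro a b
    exact AnalyticAt.fun_comp (f := fun x : XI ι → ℂ => fun s : (Σ _ : ι, Fin (2 + 1)) => x (Sum.inl s))
      (pm_an (n := fun _ : ι => 2) i a b _ hx.2) hlin
  have hcp : AnalyticAt ℂ (fun x : XI ι → ℂ => (x (Sum.inr i)) ^ (-(1 / 2) : ℂ)) x :=
    hd.cpow analyticAt_const (Or.inl (hx.1 i))
  have h1 : (fun x : XI ι → ℂ => PK i x l j) = fun x => (x (Sum.inr i)) ^ (-(1 / 2) : ℂ) *
      ((pm (fun _ : ι => 2) (fun s => x (Sum.inl s)) i (p0 l) (p0 j) *
        pm (fun _ : ι => 2) (fun s => x (Sum.inl s)) i (p1 l) (p1 j) +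
        pm (fun _ : ι => 2) (fun s => x (Sum.inl s)) i (p0 l) (p1 j) *
        pm (fun _ : ι => 2) (fun s => x (Sum.inl s)) i (p1 l) (p0 j)) / 2) := by
    funext x
    rfl
  rw [h1]
  exact hcp.mul ((((hpm _ _).mul (hpm _ _)).add ((hpm _ _).mul (hpm _ _))).div analyticAt_const two_ne_zero)

/-- the monodromy -/
def GK (ι : Type) : Set (ι → Matrix (Fin 3) (Fin 3) ℚ) :=
  {γ | ∃ (s : ι → ℚ) (g : ι → Matrix (Fin 2) (Fin 2) ℚ), (∀ i, s i = 1 ∨ s i = -1) ∧
    (∀ i, g i ∈ SpS ℚ 2) ∧ γ = fun i => s i • SG (g i)}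

theorem GK_pres (γ : ι → Matrix (Fin 3) (Fin 3) ℚ) (hγ : γ ∈ GK ι) (i : ι) :
    γ i * J3 * (γ i).transpose = J3 := by
  obtain ⟨s, g, hs, hg, rfl⟩ := hγ
  have h1 := (mem_SpS (g i)).1 (hg i)
  rw [Matrix.transpose_smul, Matrix.smul_mul, Matrix.smul_mul, Matrix.mul_smul, SG_pres, h1, smul_smul,
    smul_smul]
  rcases hs i with h | h <;> rw [h] <;> norm_num

theorem GK_mon (γ : ι → Matrix (Fin 3) (Fin 3) ℚ) (hγ : γ ∈ GK ι)
    (p : MvPolynomial (Ix (fun _ : ι => 3)) (MvPolynomial (XI ι) ℂ))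
    (hp : ∀ x ∈ UK ι, evX x (fun q => PK q.1 x q.2.1 q.2.2) p = 0) (x : XI ι → ℂ) (hx : x ∈ UK ι) :
    evX x (fun q => ((γ q.1).map (algebraMap ℚ ℂ) * PK q.1 x) q.2.1 q.2.2) p = 0 := by
  obtain ⟨s, g, hs, hg, rfl⟩ := hγ
  exact mono p hp s hs g hg hx

theorem GK_dense (R : MvPolynomial (Ix (fun _ : ι => 3)) ℂ)
    (hR : ∀ γ ∈ GK ι, MvPolynomial.eval (fun q : Ix (fun _ : ι => 3) =>
        ((γ q.1).map (algebraMap ℚ ℂ)) q.2.1 q.2.2) R = 0)
    (M : ι → Matrix (Fin 3) (Fin 3) ℂ)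
    (hM : ∀ i, M i * J3.map (algebraMap ℚ ℂ) * (M i).transpose = J3.map (algebraMap ℚ ℂ)) :
    MvPolynomial.eval (fun q : Ix (fun _ : ι => 3) => M q.1 q.2.1 q.2.2) R = 0 := by
  refine dense3 R (fun s hs g hg => ?_) M fun i => ?_
  · exact hR (fun i => s i • SG (g i)) ⟨s, g, hs, hg, rfl⟩
  · have h1 := hM i
    rw [J3_map] at h1
    exact h1

/-- the family -/
noncomputable def kum (ι : Type) [Fintype ι] [DecidableEq ι] :
    OSFam ((Σ _ : ι, Fin (2 + 1)) ⊕ ι) (fun _ : ι => 3) where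
  U := UK ι
  isOpen := UK_open
  conn := UK_convex.isPreconnected
  nonempty := UK_nonempty
  P := PK
  an := fun i l j => PK_an i l j
  orth := fun _ => true
  w := fun _ => 2
  w_even := fun _ _ => even_two
  pos := fun _ _ => by norm_num
  Q := QK
  Q_sym := by
    intro i _
    refine Matrix.ext fun a b => ?_
    fin_cases a <;> fin_cases b <;> simp [QK]
  Q_alt := fun _ h => absurd h (by decide)
  J := fun _ => J3
  J_sym := fun _ _ => J3_sym
  J_alt := fun _ h => absurd h (by decide)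
  J_det := fun _ => J3_det
  riemann := by
    intro x hx i
    rw [J3_map]
    exact PK_riem hx i
  Γ := GK ι
  pres := fun γ hγ i => GK_pres γ hγ i
  mon := fun γ hγ p hp x hx => GK_mon γ hγ p hp x hx
  dense := fun R hR M hM => GK_dense R hR M hM

end fam

end Pool.Agent.Helper6K9.OS.Ins

namespace Pool.Agent.Helper6K9.OS

/-- **Products of Kummer surfaces.** -/
theorem so_inst : S_INST := by
  intro ι _ _
  exact ⟨Ins.kum ι, rfl, fun _ => ⟨rfl, rfl⟩, fun _ _ => rfl⟩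

end Pool.Agent.Helper6K9.OS
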