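import Pool.Agent.Helper6K9.OS.Defs
import Pool.Agent.Y890.SM.Inst

/-!
# Statement of the part on Kummer surfaces
-/

set_option autoImplicit false

open Matrix

namespace Pool.Agent.Helper6K9.OS

/-- first index of a pair `(0, 0)`, `(0, 1)`, `(1, 1)` -/
def p0 : Fin 3 → Fin 2 := ![0, 0, 1]

/-- second index of a pair `(0, 0)`, `(0, 1)`, `(1, 1)` -/
def p1 : Fin 3 → Fin 2 := ![0, 1, 1]

/-- the symmetric square of a matrix -/
noncomputable def sy (A : Matrix (Fin 2) (Fin 2) ℂ) : Matrix (Fin 3) (Fin 3) ℂ :=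
  Matrix.of fun a b => (A (p0 a) (p0 b) * A (p1 a) (p1 b) + A (p0 a) (p1 b) * A (p1 a) (p0 b)) / 2

/-- the products of the Kummer surfaces `w² = d i * f i (x) * f i (y)`, `f i = ∏ (x - e i r)`, `r ≤ 2`, are a family with
orthogonal monodromy: the periods of the forms `x ^ k y ^ l dx dy / w` -/
def S_INST : Prop := ∀ (ι : Type) [Fintype ι] [DecidableEq ι],
  ∃ F : OSFam ((Σ _ : ι, Fin (2 + 1)) ⊕ ι) (fun _ : ι => 3),
    F.U = {x | (∀ i, 0 < (x (Sum.inr i)).re) ∧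
      (fun s => x (Sum.inl s)) ∈ Pool.Agent.Y890.HE.Conf (fun _ : ι => 2)} ∧
    (∀ i, F.orth i = true ∧ F.w i = 2) ∧
    ∀ i x, F.P i x = ((x (Sum.inr i)) ^ (-(1 / 2) : ℂ)) •
      sy (Pool.Agent.Y890.HE.pm (fun _ : ι => 2) (fun s => x (Sum.inl s)) i)

end Pool.Agent.Helper6K9.OS
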