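import Pool.Agent.Helper6K9.OS.Leaves

/-!
# The coefficients of the idempotent of the components conjugate to the component of the periods
-/

set_option autoImplicit false
set_option linter.unusedSectionVars false

open Matrix NumberField

namespace Pool.Agent.Helper6K9.OS

open Pool.Agent.Y890.MV
open Pool.Agent.Y890.SM (Ix bl tpi)
open Pool.Agent.Y890.SP (Qbar ioQ ioQ_coe)
open Pool.Agent.Y120 (HtLe house_ge)

namespace KapL

theorem algQ : Algebra.IsAlgebraic ℚ Qbar := algebraicClosure.isAlgebraic ℚ ℂ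

theorem algCl : IsAlgClosed Qbar := (algebraicClosure.isAlgClosure ℚ ℂ).isAlgClosed

attribute [local instance] algQ algCl

/-- descent -/
theorem descent {K : Type} [Field K] [NumberField K] (io : K →+* ℂ) (x : Qbar)
    (h : ∀ σ : Qbar ≃+* Qbar, (∀ c : K, σ (ioQ io c) = ioQ io c) → σ x = x) : ∃ c : K, ioQ io c = x := by
  let : Algebra K Qbar := (ioQ io).toAlgebra
  have : IsScalarTower ℚ K Qbar := IsScalarTower.of_algebraMap_eq fun q => by
    rw [eq_ratCast, eq_ratCast, map_ratCast]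
  have : Algebra.IsAlgebraic K Qbar := Algebra.IsAlgebraic.tower_top (K := ℚ) K
  have : IsAlgClosure K Qbar := ⟨inferInstance, inferInstance⟩
  have : Normal K Qbar := IsAlgClosure.normal K Qbar
  have : IsGalois K Qbar := ⟨⟩
  exact (InfiniteGalois.mem_range_algebraMap_iff_fixed x).2 fun σ => h σ.toRingEquiv fun c => σ.commutes c

/-- the conjugates and the denominators of an algebraic number are bounded -/
theorem conj_bound (z : Qbar) : ∃ (B : ℝ) (d : ℕ), 1 ≤ B ∧ 0 < d ∧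
    ∀ (K : Type) [Field K] [NumberField K] (io : K →+* ℂ) (c : K), ioQ io c = z →
      (∀ φ : K →+* ℂ, ‖φ c‖ ≤ B) ∧ IsIntegral ℤ ((d : K) * c) := by
  classical
  have hz : IsAlgebraic ℚ z := Algebra.IsAlgebraic.isAlgebraic z
  have hzZ : IsAlgebraic ℤ z := (IsFractionRing.isAlgebraic_iff ℤ ℚ Qbar).2 hz
  obtain ⟨y, hy0, hy⟩ := hzZ.exists_integral_multiple
  set p := minpoly ℚ z with hp
  have hp0 : p ≠ 0 := minpoly.ne_zero hz.isIntegral
  refine ⟨1 + ∑ r ∈ (p.aroots ℂ).toFinset, ‖r‖, y.natAbs, ?_, ?_, ?_⟩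
  · have : 0 ≤ ∑ r ∈ (p.aroots ℂ).toFinset, ‖r‖ := Finset.sum_nonneg fun _ _ => norm_nonneg _
    linarith
  · exact Int.natAbs_pos.2 hy0
  · intro K _ _ io c hc
    refine ⟨fun φ => ?_, ?_⟩
    · have h1 : Polynomial.aeval c p = 0 := by
        have h2 : ioQ io (Polynomial.aeval c p) = 0 := by
          have h3 := Polynomial.hom_eval₂ p (algebraMap ℚ K) (ioQ io) c
          rw [Polynomial.aeval_def, h3, hc]
          have h4 : (ioQ io).comp (algebraMap ℚ K) = algebraMap ℚ Qbar := Subsingleton.elim _ _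
          rw [h4, ← Polynomial.aeval_def, hp, minpoly.aeval]
        exact (map_eq_zero _).1 h2
      have h5 : Polynomial.aeval (φ c) p = 0 := by
        have h3 := Polynomial.hom_eval₂ p (algebraMap ℚ K) φ c
        rw [← Polynomial.aeval_def, h1, map_zero] at h3
        have h4 : φ.comp (algebraMap ℚ K) = algebraMap ℚ ℂ := Subsingleton.elim _ _
        rw [h4, ← Polynomial.aeval_def] at h3
        exact h3.symm
      have h6 : φ c ∈ (p.aroots ℂ).toFinset := by
        rw [Multiset.mem_toFinset, Polynomial.mem_aroots]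
        exact ⟨hp0, h5⟩
      have h7 := Finset.single_le_sum (f := fun r : ℂ => ‖r‖) (fun _ _ => norm_nonneg _) h6
      linarith
    · have h1 : IsIntegral ℤ (((y.natAbs : ℕ) : Qbar) * z) := by
        have h2 : IsIntegral ℤ ((y : Qbar) * z) := by
          rw [← zsmul_eq_mul]
          exact hy
        rcases Int.natAbs_eq y with h | h
        · have h3 : ((y.natAbs : ℕ) : Qbar) = (y : Qbar) := by
            rw [← Int.cast_natCast, ← h]
          rw [h3]
          exact h2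
        · have h3 : ((y.natAbs : ℕ) : Qbar) = -(y : Qbar) := by
            rw [← Int.cast_natCast, ← Int.cast_neg]
            congr 1
            omega
          rw [h3, neg_mul]
          exact h2.neg
      have h2 : ioQ io ((y.natAbs : K) * c) = ((y.natAbs : ℕ) : Qbar) * z := by
        rw [map_mul, hc, map_natCast]
      have h3 : IsIntegral ℤ ((ioQ io).toIntAlgHom ((y.natAbs : K) * c)) := by
        change IsIntegral ℤ (ioQ io ((y.natAbs : K) * c))
        rw [h2]
        exact h1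
      exact (isIntegral_algHom_iff (ioQ io).toIntAlgHom (ioQ io).injective).1 h3

theorem conj_bound_fin {κ : Type} (s : Finset κ) (z : κ → Qbar) : ∃ (B : ℝ) (d : ℕ), 1 ≤ B ∧ 0 < d ∧
    ∀ (K : Type) [Field K] [NumberField K] (io : K →+* ℂ) (c : κ → K), (∀ m, ioQ io (c m) = z m) → ∀ m ∈ s,
      (∀ φ : K →+* ℂ, ‖φ (c m)‖ ≤ B) ∧ IsIntegral ℤ ((d : K) * c m) := by
  classical
  choose B d hB hd h using fun m => conj_bound (z m)
  refine ⟨1 + ∑ m ∈ s, B m, ∏ m ∈ s, d m, ?_, Finset.prod_pos fun m _ => hd m, ?_⟩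
  · have : 0 ≤ ∑ m ∈ s, B m := Finset.sum_nonneg fun m _ => by linarith [hB m]
    linarith
  · intro K _ _ io c hc m hm
    obtain ⟨h1, h2⟩ := h m K io (c m) (hc m)
    refine ⟨fun φ => (h1 φ).trans ?_, ?_⟩
    · have h7 := Finset.single_le_sum (f := B) (fun m _ => by linarith [hB m]) hm
      linarith
    · obtain ⟨q, hq⟩ := Finset.dvd_prod_of_mem d hm
      rw [hq, Nat.cast_mul, mul_comm ((d m : ℕ) : K), mul_assoc]
      exact (isIntegral_natCast _).mul h2

variable {X : Type} [Fintype X]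

theorem ev_bound [DecidableEq X] (R : MvPolynomial X Qbar) : ∃ (C : ℝ) (d δ : ℕ), 1 ≤ C ∧ 0 < d ∧
    ∀ (K : Type) [Field K] [NumberField K] (io : K →+* ℂ), (∀ m, ∃ c : K, ioQ io c = R.coeff m) →
    ∀ (T : ℝ), 1 ≤ T → ∀ e : X → K, (∀ j, HtLe K T (e j)) →
    ∃ (V W : 𝓞 K) (y : K), V ≠ 0 ∧ ioQ io y = MvPolynomial.eval (fun j => ioQ io (e j)) R ∧
      (W : K) = d * V * y ∧ ∀ φ : K →+* ℂ, ‖φ (V : K)‖ ≤ T ^ δ ∧ ‖φ (W : K)‖ ≤ C * T ^ δ := by
  classical
  obtain ⟨B, d, hB, hd, h⟩ := conj_bound_fin R.support (fun m => R.coeff m)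
  set D := R.totalDegree with hD
  refine ⟨1 + (R.support.card : ℝ) * (d * B), d, Fintype.card X * D, ?_, hd, ?_⟩
  · have h1 : (0 : ℝ) ≤ (R.support.card : ℝ) * (d * B) := by positivity
    linarith
  intro K _ _ io hR T hT e he
  choose c hc using hR
  choose a b hb haT hbT hab using he
  have hint := h K io c hc
  have hmD : ∀ m ∈ R.support, ∀ j, m j ≤ D := by
    intro m hm j
    have h1 := MvPolynomial.le_totalDegree hm
    refine le_trans ?_ h1
    by_cases hj : j ∈ m.support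
    · rw [Finsupp.sum]
      exact Finset.single_le_sum (f := fun i => m i) (fun _ _ => Nat.zero_le _) hj
    · rw [Finsupp.notMem_support_iff.1 hj]
      exact Nat.zero_le _
  -- integral coefficients
  have hg : ∀ m, ∃ g : 𝓞 K, m ∈ R.support → algebraMap (𝓞 K) K g = d * c m := by
    intro m
    by_cases hm : m ∈ R.support
    · exact ⟨⟨(d : K) * c m, (hint m hm).2⟩, fun _ => rfl⟩
    · exact ⟨0, fun h => absurd h hm⟩
  choose g hg using hg
  refine ⟨∏ j, b j ^ D, ∑ m ∈ R.support, g m * ∏ j, (a j ^ m j * b j ^ (D - m j)),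
    ∑ m ∈ R.support, c m * ∏ j, e j ^ m j, ?_, ?_, ?_, ?_⟩
  · exact Finset.prod_ne_zero_iff.2 fun j _ => pow_ne_zero _ (hb j)
  · rw [MvPolynomial.eval_eq', map_sum]
    refine Finset.sum_congr rfl fun m _ => ?_
    rw [map_mul, hc, map_prod]
    simp only [map_pow]
  · have hb' : ∀ j, algebraMap (𝓞 K) K (b j) ≠ 0 := fun j h0 => hb j (RingOfIntegers.coe_eq_zero_iff.1 h0)
    change algebraMap (𝓞 K) K _ = d * algebraMap (𝓞 K) K _ * _
    simp only [map_sum, map_mul, map_prod, map_pow]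
    rw [Finset.mul_sum]
    refine Finset.sum_congr rfl fun m hm => ?_
    rw [hg m hm]
    have h1 : ∏ j, (algebraMap (𝓞 K) K (a j) ^ m j * algebraMap (𝓞 K) K (b j) ^ (D - m j)) =
        (∏ j, algebraMap (𝓞 K) K (b j) ^ D) * ∏ j, e j ^ m j := by
      rw [← Finset.prod_mul_distrib]
      refine Finset.prod_congr rfl fun j _ => ?_
      have h4 : e j = algebraMap (𝓞 K) K (a j) / algebraMap (𝓞 K) K (b j) := hab j
      rw [h4, div_pow]
      have h2 : algebraMap (𝓞 K) K (b j) ^ D =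
          algebraMap (𝓞 K) K (b j) ^ (D - m j) * algebraMap (𝓞 K) K (b j) ^ m j := by
        rw [← pow_add]
        congr 1
        have := hmD m hm j
        omega
      rw [h2]
      have h3 : algebraMap (𝓞 K) K (b j) ^ m j ≠ 0 := pow_ne_zero _ (hb' j)
      field_simp
    rw [h1]
    ring
  · intro φ
    have hT0 : (0 : ℝ) ≤ T := by linarith
    have hTd : T ^ (Fintype.card X * D) = ∏ _j : X, T ^ D := by
      rw [Finset.prod_const, Finset.card_univ, ← pow_mul, mul_comm]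
    have haT' : ∀ j, ‖φ (algebraMap (𝓞 K) K (a j))‖ ≤ T := fun j => (house_ge K _ φ).trans (haT j)
    have hbT' : ∀ j, ‖φ (algebraMap (𝓞 K) K (b j))‖ ≤ T := fun j => (house_ge K _ φ).trans (hbT j)
    change ‖φ (algebraMap (𝓞 K) K _)‖ ≤ _ ∧ ‖φ (algebraMap (𝓞 K) K _)‖ ≤ _
    simp only [map_sum, map_mul, map_prod, map_pow]
    refine ⟨?_, ?_⟩
    · rw [norm_prod, hTd]
      refine Finset.prod_le_prod (fun _ _ => norm_nonneg _) fun j _ => ?_
      rw [norm_pow]
      exact pow_le_pow_left₀ (norm_nonneg _) (hbT' j) _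
    · have h1 : ∀ m ∈ R.support, ‖φ (algebraMap (𝓞 K) K (g m)) *
          ∏ j, (φ (algebraMap (𝓞 K) K (a j)) ^ m j * φ (algebraMap (𝓞 K) K (b j)) ^ (D - m j))‖ ≤
          (d * B) * T ^ (Fintype.card X * D) := by
        intro m hm
        rw [norm_mul]
        refine mul_le_mul ?_ ?_ (norm_nonneg _) (by positivity)
        · rw [hg m hm, map_mul, norm_mul, map_natCast, Complex.norm_natCast]
          exact mul_le_mul_of_nonneg_left ((hint m hm).1 φ) (by positivity)
        · rw [norm_prod, hTd]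
          refine Finset.prod_le_prod (fun _ _ => norm_nonneg _) fun j _ => ?_
          rw [norm_mul, norm_pow, norm_pow]
          have h2 : T ^ D = T ^ m j * T ^ (D - m j) := by
            rw [← pow_add]
            congr 1
            have := hmD m hm j
            omega
          rw [h2]
          exact mul_le_mul (pow_le_pow_left₀ (norm_nonneg _) (haT' j) _)
            (pow_le_pow_left₀ (norm_nonneg _) (hbT' j) _) (by positivity) (by positivity)
      refine (norm_sum_le_of_le _ h1).trans ?_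
      rw [Finset.sum_const, nsmul_eq_mul]
      have h3 : (0 : ℝ) ≤ T ^ (Fintype.card X * D) := by positivity
      nlinarith

/-- square roots of values have bounded height -/
theorem root_bound [DecidableEq X] (R : MvPolynomial X Qbar) (s : ℚ) (M : ℝ) :
    ∃ (A T₀ : ℝ), 0 ≤ A ∧ 2 ≤ T₀ ∧
    ∀ (K : Type) [Field K] [NumberField K] (io : K →+* ℂ), (∀ m, ∃ c : K, ioQ io c = R.coeff m) →
    ∀ (T : ℝ), T₀ ≤ T → ∀ e : X → K, (∀ j, HtLe K T (e j)) →
    ∀ (N : ℤ), |(N : ℝ)| ≤ M → ∀ κ : K,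
      ioQ io κ ^ 2 = (N : Qbar) ^ 2 * (s : Qbar) * MvPolynomial.eval (fun j => ioQ io (e j)) R →
      ∃ u v : 𝓞 K, v ≠ 0 ∧ (∀ φ : K →+* ℂ, ‖φ (u : K)‖ ≤ T ^ A ∧ ‖φ (v : K)‖ ≤ T ^ A) ∧
        io (u : K) / io (v : K) = io κ := by
  classical
  obtain ⟨C, d, δ, hC, hd, h⟩ := ev_bound R
  set G : ℝ := s.den * |(s.num : ℝ)| * d * M ^ 2 * C + s.den * d with hG
  have hden : (1 : ℝ) ≤ s.den := by exact_mod_cast s.den_pos
  have hd1 : (1 : ℝ) ≤ d := by exact_mod_cast hd
  have hG0 : (0 : ℝ) ≤ s.den * |(s.num : ℝ)| * d * M ^ 2 * C := by positivity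
  have hsd : (1 : ℝ) ≤ s.den * d := by nlinarith
  have hG1 : 1 ≤ G := by linarith
  refine ⟨((δ + 1 : ℕ) : ℝ), 2 + G, by positivity, by linarith, ?_⟩
  intro K _ _ io hR T hT e he N hN κ hκ
  have hT1 : 1 ≤ T := by linarith
  obtain ⟨V, W, y, hV, hy, hW, hb⟩ := h K io hR T hT1 e he
  have hκ2 : κ ^ 2 = (N : K) ^ 2 * (s : K) * y := by
    apply (ioQ io).injective
    rw [map_pow, hκ, map_mul, map_mul, map_pow, map_intCast, map_ratCast, hy]
  have hs : (s : K) = (s.num : K) / (s.den : K) := Rat.cast_def s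
  have hsden : ((s.den : ℕ) : K) ≠ 0 := by exact_mod_cast s.den_pos.ne'
  have hu2 : (κ * (s.den : K) * d * V) ^ 2 = (s.den : K) * (s.num : K) * d * (N : K) ^ 2 * V * W := by
    rw [mul_pow, mul_pow, mul_pow, hκ2, hs, hW]
    field_simp
  have huint : IsIntegral ℤ (κ * (s.den : K) * d * V) := by
    refine IsIntegral.of_pow (n := 2) two_pos ?_
    rw [hu2]
    refine IsIntegral.mul (IsIntegral.mul (IsIntegral.mul (IsIntegral.mul (IsIntegral.mul ?_ ?_) ?_) ?_) ?_) ?_
    · exact isIntegral_natCast _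
    · exact isIntegral_intCast _
    · exact isIntegral_natCast _
    · exact (isIntegral_intCast _).pow 2
    · exact RingOfIntegers.isIntegral_coe V
    · exact RingOfIntegers.isIntegral_coe W
  have hTA : T ^ ((δ + 1 : ℕ) : ℝ) = T ^ (δ + 1) := Real.rpow_natCast _ _
  have hTG : G * T ^ δ ≤ T ^ (δ + 1) := by
    rw [pow_succ, mul_comm]
    exact mul_le_mul_of_nonneg_left (by linarith) (by positivity)
  refine ⟨⟨κ * (s.den : K) * d * V, huint⟩, (s.den : 𝓞 K) * d * V, ?_, fun φ => ⟨?_, ?_⟩, ?_⟩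
  · refine mul_ne_zero (mul_ne_zero ?_ ?_) hV
    · exact_mod_cast s.den_pos.ne'
    · exact_mod_cast hd.ne'
  · rw [hTA]
    refine le_trans ?_ hTG
    change ‖φ (κ * (s.den : K) * d * V)‖ ≤ _
    have h1 : ‖φ (κ * (s.den : K) * d * V)‖ ^ 2 ≤ (G * T ^ δ) ^ 2 := by
      rw [← norm_pow, ← map_pow, hu2]
      simp only [map_mul, map_pow, map_natCast, map_intCast, norm_mul, norm_pow, Complex.norm_natCast,
        Complex.norm_intCast]
      have h2 : |(N : ℝ)| ^ 2 ≤ M ^ 2 := pow_le_pow_left₀ (abs_nonneg _) hN 2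
      calc (s.den : ℝ) * |(s.num : ℝ)| * d * |(N : ℝ)| ^ 2 * ‖φ (V : K)‖ * ‖φ (W : K)‖ ≤
          (s.den : ℝ) * |(s.num : ℝ)| * d * M ^ 2 * T ^ δ * (C * T ^ δ) := by
            refine mul_le_mul (mul_le_mul (mul_le_mul_of_nonneg_left h2 (by positivity)) (hb φ).1
              (norm_nonneg _) (by positivity)) (hb φ).2 (norm_nonneg _) (by positivity)
        _ = (s.den * |(s.num : ℝ)| * d * M ^ 2 * C) * (T ^ δ) ^ 2 := by ring
        _ ≤ G * (T ^ δ) ^ 2 := mul_le_mul_of_nonneg_right (by linarith) (by positivity)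
        _ ≤ G ^ 2 * (T ^ δ) ^ 2 := mul_le_mul_of_nonneg_right (by nlinarith) (by positivity)
        _ = (G * T ^ δ) ^ 2 := by ring
    exact le_of_sq_le_sq h1 (by positivity)
  · rw [hTA]
    refine le_trans ?_ hTG
    push_cast
    rw [map_mul, map_mul, norm_mul, norm_mul, map_natCast, map_natCast, Complex.norm_natCast, Complex.norm_natCast]
    exact mul_le_mul (by linarith) (hb φ).1 (norm_nonneg _) (by positivity)
  · push_cast
    have hV' : (V : K) ≠ 0 := fun h0 => hV (by exact_mod_cast h0)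
    have hd' : ((d : ℕ) : K) ≠ 0 := by exact_mod_cast hd.ne'
    change io (κ * (s.den : K) * d * V) / _ = _
    rw [← map_div₀]
    congr 1
    field_simp

variable {ι : Type} {n : ι → ℕ}

theorem det_rel (F : OSFam X n) {x : X → ℂ} (hx : x ∈ F.U) (i : ι) :
    (F.P i x).det ^ 2 * MvPolynomial.aeval x (F.Q i).det = tpi ^ (F.w i * n i) * ((F.J i).det : ℂ) := by
  have h1 := congrArg Matrix.det (F.riemann x hx i)
  rw [det_mul, det_mul, det_transpose, det_smul, Fintype.card_fin, ← pow_mul] at h1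
  have h2 : ((F.Q i).map (MvPolynomial.aeval x)).det = MvPolynomial.aeval x (F.Q i).det := by
    rw [AlgHom.map_det]
    rfl
  have h3 : ((F.J i).map (algebraMap ℚ ℂ)).det = ((F.J i).det : ℂ) := by
    rw [← eq_ratCast (algebraMap ℚ ℂ), RingHom.map_det]
    rfl
  rw [h2, h3] at h1
  rw [← h1]
  ring

theorem P_det (F : OSFam X n) {x : X → ℂ} (hx : x ∈ F.U) (i : ι) : (F.P i x).det ≠ 0 := by
  intro h0
  have h1 := det_rel F hx i
  rw [h0] at h1
  have h2 : ((F.J i).det : ℂ) ≠ 0 := by exact_mod_cast F.J_det i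
  have h3 : tpi ^ (F.w i * n i) ≠ 0 := pow_ne_zero _ Pool.Agent.Y890.SM.tpi_ne
  apply mul_ne_zero h3 h2
  rw [← h1]
  ring

theorem aeval_io {K : Type} [Field K] [NumberField K] (io : K →+* ℂ) (e : X → K) (R : MvPolynomial X Qbar) :
    MvPolynomial.aeval (fun j => io (e j)) R = algebraMap Qbar ℂ (MvPolynomial.eval (fun j => ioQ io (e j)) R) := by
  have h1 := MvPolynomial.aeval_algebraMap_apply ℂ (fun j => ioQ io (e j)) R
  rw [MvPolynomial.aeval_eq_eval] at h1
  exact h1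

theorem exists_th (F : OSFam X n) {K : Type} [Field K] [NumberField K] (io : K →+* ℂ) (e : X → K)
    (hx : (fun j => io (e j)) ∈ F.U) (i : ι) (hi : F.orth i = true) :
    ∃ t : Qbar, t ≠ 0 ∧ F.IsTh (fun j => io (e j)) i t ∧
      t ^ 2 = (((F.J i).det⁻¹ : ℚ) : Qbar) * MvPolynomial.eval (fun j => ioQ io (e j)) (F.Q i).det := by
  set x : X → ℂ := fun j => io (e j) with hxe
  obtain ⟨t, ht⟩ := IsAlgClosed.exists_pow_nat_eq
    ((((F.J i).det⁻¹ : ℚ) : Qbar) * MvPolynomial.eval (fun j => ioQ io (e j)) (F.Q i).det) (n := 2) two_pos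
  have hP := P_det F hx i
  have hr := det_rel F hx i
  have hJ : ((F.J i).det : ℂ) ≠ 0 := by exact_mod_cast F.J_det i
  obtain ⟨r, hr2⟩ := F.w_even i hi
  have hw : F.w i / 2 = r := by omega
  have htp : tpi ^ (F.w i / 2 * n i) ≠ 0 := pow_ne_zero _ Pool.Agent.Y890.SM.tpi_ne
  have h1 : (algebraMap Qbar ℂ t * (F.P i x).det) ^ 2 = (tpi ^ (F.w i / 2 * n i)) ^ 2 := by
    rw [mul_pow, ← map_pow, ht, map_mul, ← aeval_io io e, map_ratCast, Rat.cast_inv]
    have h2 : (tpi ^ (F.w i / 2 * n i)) ^ 2 = tpi ^ (F.w i * n i) := by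
      rw [← pow_mul, hw, hr2]
      congr 1
      ring
    rw [h2]
    have h3 : ((F.J i).det : ℂ)⁻¹ * MvPolynomial.aeval x (F.Q i).det * (F.P i x).det ^ 2 =
        ((F.J i).det : ℂ)⁻¹ * (tpi ^ (F.w i * n i) * ((F.J i).det : ℂ)) := by
      rw [← hr]
      ring
    rw [h3]
    field_simp
  have hne : ∀ t' : Qbar, algebraMap Qbar ℂ t' * (F.P i x).det = tpi ^ (F.w i / 2 * n i) → t' ≠ 0 := by
    rintro t' h rfl
    rw [map_zero, zero_mul] at h
    exact htp h.symm
  rcases sq_eq_sq_iff_eq_or_eq_neg.1 h1 with h | h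
  · exact ⟨t, hne t h, h, ht⟩
  · have h' : algebraMap Qbar ℂ (-t) * (F.P i x).det = tpi ^ (F.w i / 2 * n i) := by
      rw [map_neg, neg_mul, h, neg_neg]
    exact ⟨-t, hne _ h', h', by rw [neg_sq, ht]⟩

theorem th_unique (F : OSFam X n) {x : X → ℂ} (hx : x ∈ F.U) {i : ι} {t t' : Qbar} (h : F.IsTh x i t)
    (h' : F.IsTh x i t') : t = t' := by
  have h1 : algebraMap Qbar ℂ t * (F.P i x).det = algebraMap Qbar ℂ t' * (F.P i x).det := h.trans h'.symm
  exact (algebraMap Qbar ℂ).injective (mul_right_cancel₀ (P_det F hx i) h1)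

/-- the sign -/
def sg (b : Bool) : ℤ := if b then -1 else 1

theorem sg_xor (a b : Bool) : sg (xor a b) = sg a * sg b := by
  cases a <;> cases b <;> simp [sg]

theorem sg_abs (a : Bool) : |sg a| = 1 := by
  cases a <;> simp [sg]

end KapL

open KapL in
theorem so_kap : S_KAP := by
  classical
  intro X _ _ ι _ _ n F
  have key : ∀ S : Finset ι, ∃ (A T₀ : ℝ), 0 ≤ A ∧ 2 ≤ T₀ ∧
    ∀ (K : Type) [Field K] [NumberField K] (io : K →+* ℂ),
      (∀ m, ∃ c : K, ioQ io c = (∏ i ∈ S, (F.Q i).det).coeff m) →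
    ∀ (T : ℝ), T₀ ≤ T → ∀ e : X → K, (∀ j, HtLe K T (e j)) →
    ∀ (N : ℤ), |(N : ℝ)| ≤ Fintype.card (ι → Bool) → ∀ κ : K,
      ioQ io κ ^ 2 = (N : Qbar) ^ 2 * ((∏ i ∈ S, (F.J i).det⁻¹ : ℚ) : Qbar) *
        MvPolynomial.eval (fun j => ioQ io (e j)) (∏ i ∈ S, (F.Q i).det) →
      ∃ u v : 𝓞 K, v ≠ 0 ∧ (∀ φ : K →+* ℂ, ‖φ (u : K)‖ ≤ T ^ A ∧ ‖φ (v : K)‖ ≤ T ^ A) ∧
        io (u : K) / io (v : K) = io κ := fun S => root_bound _ _ _
  choose A T₀ hA hT₀ hkey using key
  refine ⟨∑ S, A S, 2 + ∑ S, T₀ S, Finset.sum_nonneg fun S _ => hA S, ?_, ?_⟩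
  · have : 0 ≤ ∑ S, T₀ S := Finset.sum_nonneg fun S _ => by linarith [hT₀ S]
    linarith
  intro K _ _ io hQ T hT e he hx
  refine ⟨fun i hi => ?_, fun S hS => ?_⟩
  · obtain ⟨t, -, ht, -⟩ := exists_th F io e hx i hi
    exact ⟨t, ht⟩
  have hTS : T₀ S ≤ T := by
    have h1 := Finset.single_le_sum (f := T₀) (fun S _ => by linarith [hT₀ S]) (Finset.mem_univ S)
    linarith
  have hAS : A S ≤ ∑ S, A S := Finset.single_le_sum (f := A) (fun S _ => hA S) (Finset.mem_univ S)
  have hT1 : 1 ≤ T := by linarith [hT₀ S]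
  set x : X → ℂ := fun j => io (e j) with hxe
  -- the numbers theta
  have hth : ∀ i, ∃ t : Qbar, t ≠ 0 ∧ (F.orth i = true → F.IsTh x i t ∧
      t ^ 2 = (((F.J i).det⁻¹ : ℚ) : Qbar) * MvPolynomial.eval (fun j => ioQ io (e j)) (F.Q i).det) := by
    intro i
    by_cases hi : F.orth i = true
    · obtain ⟨t, h1, h2, h3⟩ := exists_th F io e hx i hi
      exact ⟨t, h1, fun _ => ⟨h2, h3⟩⟩
    · exact ⟨1, one_ne_zero, fun h => absurd h hi⟩
  choose θ hθ0 hθ using hth
  -- the coefficients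
  have hQd : ∀ i, ∃ r : MvPolynomial X K, MvPolynomial.map (ioQ io) r = (F.Q i).det := by
    intro i
    have h1 : ∀ a b, ∃ r : MvPolynomial X K, MvPolynomial.map (ioQ io) r = F.Q i a b := by
      intro a b
      refine MvPolynomial.mem_range_map_iff_coeffs_subset.2 fun z hz => ?_
      obtain ⟨m, hm⟩ := MvPolynomial.mem_coeffs_iff.1 hz
      obtain ⟨c, hc⟩ := hQ i a b m
      exact ⟨c, hc.trans hm.2.symm⟩
    choose r hr using h1
    refine ⟨(Matrix.of r).det, ?_⟩
    rw [RingHom.map_det]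
    congr 1
    exact Matrix.ext hr
  choose r hr using hQd
  have hcoef : ∀ m, ∃ c : K, ioQ io c = (∏ i ∈ S, (F.Q i).det).coeff m := by
    intro m
    refine ⟨(∏ i ∈ S, r i).coeff m, ?_⟩
    rw [← MvPolynomial.coeff_map, map_prod]
    simp only [hr]
  have hval : ∀ i, F.orth i = true → ∃ c : K, ioQ io c = θ i ^ 2 := by
    intro i hi
    refine ⟨(((F.J i).det⁻¹ : ℚ) : K) * MvPolynomial.eval e (r i), ?_⟩
    rw [(hθ i hi).2, map_mul, map_ratCast, ← hr i]
    congr 1
    rw [MvPolynomial.eval_map]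
    exact (MvPolynomial.eval₂_comp_left (ioQ io) (RingHom.id K) e (r i)).trans rfl
  -- the set of signs
  set Bs : Set (ι → Bool) := {b : ι → Bool | (∀ i, F.orth i = false → b i = false) ∧ b ∈ F.Sg x K io} with hBs
  have hSg : ∀ b : ι → Bool, b ∈ F.Sg x K io ↔ ∃ σ : Qbar ≃+* Qbar, (∀ c : K, σ (ioQ io c) = ioQ io c) ∧
      ∀ i, F.orth i = true → σ (θ i) = (sg (b i) : Qbar) * θ i := by
    intro b
    have hs : ∀ (β : Bool) (t : Qbar), (if β then -t else t) = (sg β : Qbar) * t := by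
      intro β t
      cases β <;> simp [sg]
    constructor
    · rintro ⟨σ, h1, h2⟩
      refine ⟨σ, h1, fun i hi => ?_⟩
      rw [h2 i hi (θ i) (hθ i hi).1, hs]
    · rintro ⟨σ, h1, h2⟩
      refine ⟨σ, h1, fun i hi t ht => ?_⟩
      rw [th_unique F hx ht (hθ i hi).1, hs]
      exact h2 i hi
  set N : ℤ := ∑ b ∈ Bs.toFinset, ∏ i ∈ S, sg (b i) with hN
  have hfin : (∑ᶠ b ∈ Bs, ∏ i ∈ S, (if b i then (-1 : ℂ) else 1)) = (N : ℂ) := by
    rw [finsum_mem_eq_toFinset_sum, hN]
    push_cast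
    refine Finset.sum_congr rfl fun b _ => Finset.prod_congr rfl fun i _ => ?_
    cases b i <;> simp [sg]
  -- invariance
  have hinv : ∀ σ : Qbar ≃+* Qbar, (∀ c : K, σ (ioQ io c) = ioQ io c) →
      σ ((N : Qbar) * ∏ i ∈ S, θ i) = (N : Qbar) * ∏ i ∈ S, θ i := by
    intro σ hσ
    have h1 : ∀ i, F.orth i = true → σ (θ i) = θ i ∨ σ (θ i) = -θ i := by
      intro i hi
      obtain ⟨c, hc⟩ := hval i hi
      refine sq_eq_sq_iff_eq_or_eq_neg.1 ?_
      rw [← map_pow, ← hc, hσ]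
    set β : ι → Bool := fun i => decide (F.orth i = true ∧ σ (θ i) ≠ θ i) with hβ
    have hβ1 : ∀ i, F.orth i = true → σ (θ i) = (sg (β i) : Qbar) * θ i := by
      intro i hi
      by_cases h : σ (θ i) = θ i
      · have : β i = false := by simp [hβ, h]
        rw [this]
        simp [sg, h]
      · have : β i = true := by simp [hβ, h, hi]
        rw [this]
        rcases h1 i hi with h2 | h2
        · exact absurd h2 h
        · simp [sg, h2]
    have hβ2 : ∀ i, F.orth i = false → β i = false := by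
      intro i hi
      simp [hβ, hi]
    have hclosed : ∀ b ∈ Bs, (fun i => xor (b i) (β i)) ∈ Bs := by
      rintro b ⟨h2, h3⟩
      obtain ⟨τ, h4, h5⟩ := (hSg b).1 h3
      refine ⟨fun i hi => by simp [h2 i hi, hβ2 i hi], (hSg _).2 ⟨τ.trans σ, fun c => ?_, fun i hi => ?_⟩⟩
      · rw [RingEquiv.trans_apply, h4, hσ]
      · rw [RingEquiv.trans_apply, h5 i hi, map_mul, hβ1 i hi, map_intCast, sg_xor]
        push_cast
        ring
    have hsum : N * ∏ i ∈ S, sg (β i) = N := by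
      rw [hN, Finset.sum_mul]
      refine Finset.sum_nbij' (fun b i => xor (b i) (β i)) (fun b i => xor (b i) (β i)) ?_ ?_ ?_ ?_ ?_
      · intro b hb
        rw [Set.mem_toFinset] at hb ⊢
        exact hclosed b hb
      · intro b hb
        rw [Set.mem_toFinset] at hb ⊢
        exact hclosed b hb
      · intro b _
        funext i
        simp
      · intro b _
        funext i
        simp
      · intro b _
        rw [← Finset.prod_mul_distrib]
        refine Finset.prod_congr rfl fun i _ => ?_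
        rw [sg_xor]
    rw [map_mul, map_intCast, map_prod]
    have h6 : ∏ i ∈ S, σ (θ i) = ((∏ i ∈ S, sg (β i) : ℤ) : Qbar) * ∏ i ∈ S, θ i := by
      push_cast
      rw [← Finset.prod_mul_distrib]
      exact Finset.prod_congr rfl fun i hi => hβ1 i (hS i hi)
    rw [h6, ← mul_assoc, ← Int.cast_mul, hsum]
  obtain ⟨κ, hκ⟩ := descent io _ hinv
  have hκ2 : ioQ io κ ^ 2 = (N : Qbar) ^ 2 * ((∏ i ∈ S, (F.J i).det⁻¹ : ℚ) : Qbar) *
        MvPolynomial.eval (fun j => ioQ io (e j)) (∏ i ∈ S, (F.Q i).det) := by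
    rw [hκ, mul_pow, ← Finset.prod_pow, map_prod, mul_assoc]
    congr 1
    push_cast
    rw [← Finset.prod_mul_distrib]
    refine Finset.prod_congr rfl fun i hi => ?_
    rw [(hθ i (hS i hi)).2]
    push_cast
    rfl
  have hNle : |(N : ℝ)| ≤ Fintype.card (ι → Bool) := by
    have h1 : |N| ≤ (Fintype.card (ι → Bool) : ℤ) := by
      rw [hN]
      refine (Finset.abs_sum_le_sum_abs _ _).trans ?_
      have h2 : ∀ b ∈ Bs.toFinset, |∏ i ∈ S, sg (b i)| = 1 := by
        intro b _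
        rw [Finset.abs_prod]
        exact Finset.prod_eq_one fun i _ => sg_abs _
      rw [Finset.sum_congr rfl h2, Finset.sum_const, nsmul_eq_mul, mul_one]
      exact_mod_cast Finset.card_le_univ _
    exact_mod_cast h1
  obtain ⟨u, v, hv, hb, huv⟩ := hkey S K io hcoef T hTS e he N hNle κ hκ2
  refine ⟨u, v, hv, fun φ => ?_, ?_⟩
  · have h1 : T ^ A S ≤ T ^ (∑ S, A S) := Real.rpow_le_rpow_of_exponent_le hT1 hAS
    exact ⟨(hb φ).1.trans h1, (hb φ).2.trans h1⟩
  · rw [huv, hfin, ← ioQ_coe io κ, hκ, map_mul, map_intCast, map_prod, mul_assoc, ← Finset.prod_mul_distrib]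
    congr 1
    refine Finset.prod_congr rfl fun i hi => ?_
    exact (hθ i (hS i hi)).1

end Pool.Agent.Helper6K9.OS
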