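import Pool.Agent.Helper6K9.OS.Defs

/-!
# Families with orthogonal and symplectic monodromy: statements of the parts
-/

set_option autoImplicit false
set_option linter.unusedSectionVars false

open Matrix NumberField

namespace Pool.Agent.Helper6K9.OS

open Pool.Agent.Y890.MV
open Pool.Agent.Y890.SM (Ix bl tpi)
open Pool.Agent.Y890.SP (Qbar ioQ)

/-- rational paths in special orthogonal groups -/
def S_PATH : Prop := ∀ (n : ℕ) (J : Matrix (Fin n) (Fin n) ℂ), J.transpose = J → J.det ≠ 0 →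
  ∀ g : Matrix (Fin n) (Fin n) ℂ, g * J * g.transpose = J → g.det = 1 →
  ∃ (G : Matrix (Fin n) (Fin n) (Polynomial ℂ)) (q : Polynomial ℂ), q.eval 0 = 1 ∧ q.eval 1 ≠ 0 ∧
    G.map (Polynomial.eval 0) = 1 ∧ G.map (Polynomial.eval 1) = q.eval 1 • g ∧
    ∀ t : ℂ, G.map (Polynomial.eval t) * J * (G.map (Polynomial.eval t)).transpose = q.eval t ^ 2 • J ∧
      (G.map (Polynomial.eval t)).det = q.eval t ^ n

/-- diagonalization -/
def S_DIAG : Prop := ∀ (R : Type) [CommRing R] [IsDomain R] [CharZero R] (n : ℕ) (Q : Matrix (Fin n) (Fin n) R),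
  Q.transpose = Q → Q.det ≠ 0 → ∃ (S : Matrix (Fin n) (Fin n) R) (q : Fin n → R), S.det ≠ 0 ∧ (∀ j, q j ≠ 0) ∧
    S * Q * S.transpose = Matrix.diagonal q

/-- diagonalization over algebraically closed fields -/
def S_ONE : Prop := ∀ (k : Type) [Field k] [IsAlgClosed k] [CharZero k] (n : ℕ) (Q : Matrix (Fin n) (Fin n) k),
  Q.transpose = Q → Q.det ≠ 0 → ∃ S : Matrix (Fin n) (Fin n) k, S.det ≠ 0 ∧ S * Q * S.transpose = 1

/-- reflections -/
def S_REFL : Prop := ∀ (n : ℕ) (J : Matrix (Fin n) (Fin n) ℚ), 0 < n → J.transpose = J → J.det ≠ 0 →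
  ∃ R : Matrix (Fin n) (Fin n) ℚ, R * J * R.transpose = J ∧ R * R = 1 ∧ R.det = -1

/-- enlarging a number field -/
def S_EXT : Prop := ∀ (K : Type) [Field K] [NumberField K] (io : K →+* ℂ) (K0 : IntermediateField ℚ ℂ),
  FiniteDimensional ℚ K0 → ∃ (K' : Type) (_ : Field K') (_ : NumberField K') (j : K →+* K') (io' : K' →+* ℂ),
    (∀ x, io' (j x) = io x) ∧ (∀ a ∈ K0, ∃ b, io' b = a) ∧
    Module.finrank ℚ K' ≤ Module.finrank ℚ K * Module.finrank ℚ K0 ∧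
    (∀ (T : ℝ) (x : K), Y120.HtLe K T x → Y120.HtLe K' T (j x)) ∧
    ∀ (c : 𝓞 K) (B : ℝ), (∀ φ : K →+* ℂ, ‖φ (c : K)‖ ≤ B) →
      ∃ c' : 𝓞 K', (c' : K') = j c ∧ ∀ φ : K' →+* ℂ, ‖φ (c' : K')‖ ≤ B

variable {X : Type} [Fintype X] {ι : Type} {n : ι → ℕ}

/-- the component of the torsor with multiplier `2 π i` given by the signs `b` -/
def OSFam.Comp (F : OSFam X n) (b : ι → Bool) (x : X → ℂ) : Set (Ix n → ℂ) :=
  {Y | Y ∈ F.Tor x ∧ ∀ i, F.orth i = true → (bl Y i).det = (if b i then -1 else 1) * (F.P i x).det}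

/-- `t` is the number `(2 π i) ^ (w i n i / 2) / det (P i x)`, a square root of `det Q i(x) / det J i` -/
def OSFam.IsTh (F : OSFam X n) (x : X → ℂ) (i : ι) (t : Qbar) : Prop :=
  algebraMap Qbar ℂ t * (F.P i x).det = tpi ^ (F.w i / 2 * n i)

/-- the signs given by the automorphisms over `K` -/
def OSFam.Sg (F : OSFam X n) (x : X → ℂ) (K : Type) [Field K] [NumberField K] (io : K →+* ℂ) : Set (ι → Bool) :=
  {b | ∃ σ : Qbar ≃+* Qbar, (∀ c : K, σ (ioQ io c) = ioQ io c) ∧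
    ∀ i, F.orth i = true → ∀ t : Qbar, F.IsTh x i t → σ t = if b i then -t else t}

variable [DecidableEq X] [Fintype ι] [DecidableEq ι]

/-- from a component with multiplier `2 π i` to the full torsor -/
def S_FULL : Prop := ∀ (X : Type) [Fintype X] [DecidableEq X] (ι : Type) [Fintype ι] [DecidableEq ι] (n : ι → ℕ)
  (F : OSFam X n) (K : Type) [Field K] [NumberField K] (io : K →+* ℂ) (e : X → K), (fun j => io (e j)) ∈ F.U →
  (∀ i a b, ∃ c : K, io c = F.Qx (fun j => io (e j)) i a b) →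
  ∀ (δ h : ℕ) (c : (Ix n → Fin (δ + 1)) → Fin h → K) (b : ι → Bool), b ∈ F.Sg (fun j => io (e j)) K io →
  (∀ Y ∈ F.Comp b (fun j => io (e j)),
    ∑ l, (∑ a : Fin h, tpi ^ (a : ℕ) * io (c l a)) * ∏ y, Y y ^ (l y : ℕ) = 0) →
  ∀ p ∈ F.torsor (fun j => io (e j)),
    ∑ l : Ix n → Fin (δ + 1), (∑ a : Fin h, p.2 ^ (a : ℕ) * io (c l a)) * ∏ y : Ix n, (p.1 y.1 y.2.1 y.2.2) ^ (l y : ℕ) = 0

/-- the coefficients of the idempotent of the components conjugate to the component of the periods -/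
def S_KAP : Prop := ∀ (X : Type) [Fintype X] [DecidableEq X] (ι : Type) [Fintype ι] [DecidableEq ι] (n : ι → ℕ)
  (F : OSFam X n), ∃ (A T₀ : ℝ), 0 ≤ A ∧ 2 ≤ T₀ ∧ ∀ (K : Type) [Field K] [NumberField K] (io : K →+* ℂ),
  (∀ (i : ι) (a b : Fin (n i)) (m : X →₀ ℕ), ∃ c : K, ioQ io c = (F.Q i a b).coeff m) →
  ∀ (T : ℝ), T₀ ≤ T → ∀ e : X → K, (∀ j, Y120.HtLe K T (e j)) → (fun j => io (e j)) ∈ F.U →
  (∀ i, F.orth i = true → ∃ t, F.IsTh (fun j => io (e j)) i t) ∧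
  ∀ S : Finset ι, (∀ i ∈ S, F.orth i = true) → ∃ u v : 𝓞 K, v ≠ 0 ∧ (∀ φ : K →+* ℂ, ‖φ (u : K)‖ ≤ T ^ A ∧ ‖φ (v : K)‖ ≤ T ^ A) ∧
    io (u : K) / io (v : K) * ∏ i ∈ S, (F.P i (fun j => io (e j))).det =
      (∑ᶠ b ∈ {b : ι → Bool | (∀ i, F.orth i = false → b i = false) ∧ b ∈ F.Sg (fun j => io (e j)) K io},
        ∏ i ∈ S, (if b i then (-1 : ℂ) else 1)) * ∏ i ∈ S, tpi ^ (F.w i / 2 * n i)

end Pool.Agent.Helper6K9.OS
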