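import Pool.Agent.Helper6K9.OS.Diag

/-!
# Rational paths in special orthogonal groups
-/

set_option autoImplicit false
set_option linter.unusedSectionVars false

open Matrix

namespace Pool.Agent.Helper6K9.OS

namespace Pa

/-- adding signs to the diagonal makes a matrix invertible -/
theorem exists_sign : ∀ (n : ℕ) (g : Matrix (Fin n) (Fin n) ℂ), ∃ d : Fin n → ℂ,
    (∀ i, d i = 1 ∨ d i = -1) ∧ (Matrix.diagonal d + g).det ≠ 0 := by
  intro n
  induction n with
  | zero =>
    intro g
    exact ⟨fun _ => 1, fun i => i.elim0, by simp⟩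
  | succ n ih =>
    intro g
    obtain ⟨d', hd', hne⟩ := ih (g.submatrix Fin.succ Fin.succ)
    set C : ℂ := ∑ j : Fin (n + 1), (-1) ^ (j : ℕ) * g 0 j *
      ((Matrix.diagonal (Fin.cons 0 d' : Fin (n + 1) → ℂ) + g).submatrix Fin.succ j.succAbove).det
      with hC
    have key : ∀ x : ℂ, (Matrix.diagonal (Fin.cons x d' : Fin (n + 1) → ℂ) + g).det =
        x * (Matrix.diagonal d' + g.submatrix Fin.succ Fin.succ).det + C := by
      intro x
      rw [Matrix.det_succ_row_zero]
      have h1 : ∀ j : Fin (n + 1),
          (Matrix.diagonal (Fin.cons x d' : Fin (n + 1) → ℂ) + g).submatrix Fin.succ j.succAbove =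
          (Matrix.diagonal (Fin.cons 0 d' : Fin (n + 1) → ℂ) + g).submatrix Fin.succ j.succAbove := by
        intro j
        ext a b
        rw [Matrix.submatrix_apply, Matrix.submatrix_apply, Matrix.add_apply, Matrix.add_apply,
          Matrix.diagonal_apply, Matrix.diagonal_apply, Fin.cons_succ, Fin.cons_succ]
      have h2 : ∀ j : Fin (n + 1), (-1 : ℂ) ^ (j : ℕ) *
          (Matrix.diagonal (Fin.cons x d' : Fin (n + 1) → ℂ) + g) 0 j *
          ((Matrix.diagonal (Fin.cons x d' : Fin (n + 1) → ℂ) + g).submatrix Fin.succ
            j.succAbove).det =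
          (if j = 0 then x * (Matrix.diagonal d' + g.submatrix Fin.succ Fin.succ).det else 0) +
          (-1) ^ (j : ℕ) * g 0 j * ((Matrix.diagonal (Fin.cons 0 d' : Fin (n + 1) → ℂ) +
            g).submatrix Fin.succ j.succAbove).det := by
        intro j
        rw [h1, Matrix.add_apply]
        by_cases hj : j = 0
        · subst hj
          rw [if_pos rfl, Matrix.diagonal_apply_eq, Fin.cons_zero]
          have h3 : (Matrix.diagonal (Fin.cons 0 d' : Fin (n + 1) → ℂ) + g).submatrix Fin.succ
              (Fin.succAbove 0) = Matrix.diagonal d' + g.submatrix Fin.succ Fin.succ := by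
            ext a b
            rw [Matrix.submatrix_apply, Matrix.add_apply, Matrix.add_apply,
              Matrix.submatrix_apply, Fin.succAbove_zero, Matrix.diagonal_apply,
              Matrix.diagonal_apply, Fin.cons_succ]
            by_cases hab : a = b
            · rw [if_pos hab, if_pos (by rw [hab])]
            · rw [if_neg hab, if_neg (fun h => hab (Fin.succ_injective _ h))]
          rw [h3]
          simp only [Fin.val_zero, pow_zero, one_mul]
          ring
        · rw [if_neg hj, Matrix.diagonal_apply_ne _ (fun h => hj h.symm)]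
          ring
      rw [Finset.sum_congr rfl fun j _ => h2 j, Finset.sum_add_distrib, Finset.sum_ite_eq',
        if_pos (Finset.mem_univ _)]
    set m := (Matrix.diagonal d' + g.submatrix Fin.succ Fin.succ).det with hm
    by_cases h : m + C = 0
    · refine ⟨Fin.cons (-1) d', ?_, ?_⟩
      · intro i
        refine Fin.cases ?_ (fun j => ?_) i
        · right; rfl
        · exact hd' j
      · rw [key]
        intro h2
        apply hne
        linear_combination (1 / 2 : ℂ) * (h - h2)
    · refine ⟨Fin.cons 1 d', ?_, ?_⟩
      · intro i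
        refine Fin.cases ?_ (fun j => ?_) i
        · left; rfl
        · exact hd' j
      · rw [key, one_mul]
        exact h

variable {n : ℕ}

/-- there is a rational path from one to `g` -/
def Pth (g : Matrix (Fin n) (Fin n) ℂ) : Prop :=
  ∃ (G : Matrix (Fin n) (Fin n) (Polynomial ℂ)) (q : Polynomial ℂ), q.eval 0 = 1 ∧ q.eval 1 ≠ 0 ∧
    G.map (Polynomial.eval 0) = 1 ∧ G.map (Polynomial.eval 1) = q.eval 1 • g ∧
    ∀ t : ℂ, G.map (Polynomial.eval t) * (G.map (Polynomial.eval t)).transpose = q.eval t ^ 2 • 1 ∧
      (G.map (Polynomial.eval t)).det = q.eval t ^ n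

lemma map_mul' (A B : Matrix (Fin n) (Fin n) (Polynomial ℂ)) (t : ℂ) :
    (A * B).map (Polynomial.eval t) = A.map (Polynomial.eval t) * B.map (Polynomial.eval t) := by
  have := Matrix.map_mul (L := A) (M := B) (f := Polynomial.evalRingHom t)
  exact this

lemma map_C (A : Matrix (Fin n) (Fin n) ℂ) (t : ℂ) :
    (A.map Polynomial.C).map (Polynomial.eval t) = A := by
  ext i j
  simp

lemma Pth.mul {g h : Matrix (Fin n) (Fin n) ℂ} (hg : Pth g) (hh : Pth h) : Pth (g * h) := by
  obtain ⟨G, q, q0, q1, G0, G1, hG⟩ := hg
  obtain ⟨H, r, r0, r1, H0, H1, hH⟩ := hh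
  refine ⟨G * H, q * r, ?_, ?_, ?_, ?_, fun t => ⟨?_, ?_⟩⟩
  · rw [Polynomial.eval_mul, q0, r0, one_mul]
  · rw [Polynomial.eval_mul]; exact mul_ne_zero q1 r1
  · rw [map_mul', G0, H0, one_mul]
  · rw [map_mul', G1, H1, Polynomial.eval_mul, Matrix.smul_mul, Matrix.mul_smul, smul_smul]
  · rw [map_mul', Matrix.transpose_mul, Polynomial.eval_mul]
    calc _ = G.map (Polynomial.eval t) * (H.map (Polynomial.eval t) *
          (H.map (Polynomial.eval t)).transpose) * (G.map (Polynomial.eval t)).transpose := by
          simp only [Matrix.mul_assoc]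
      _ = _ := by
          rw [(hH t).1, Matrix.mul_smul, Matrix.mul_one, Matrix.smul_mul, (hG t).1, smul_smul]
          congr 1
          ring
  · rw [map_mul', Matrix.det_mul, (hG t).2, (hH t).2, Polynomial.eval_mul, mul_pow]

lemma Pth.one : Pth (1 : Matrix (Fin n) (Fin n) ℂ) := by
  refine ⟨1, 1, by simp, by simp, ?_, ?_, fun t => ⟨?_, ?_⟩⟩
  · exact Matrix.map_one _ (by simp) (by simp)
  · rw [Matrix.map_one _ (by simp) (by simp)]; simp
  · rw [Matrix.map_one _ (by simp) (by simp)]; simp
  · rw [Matrix.map_one _ (by simp) (by simp)]; simp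

lemma Pth.det {g : Matrix (Fin n) (Fin n) ℂ} (hg : Pth g) : g.det = 1 := by
  obtain ⟨G, q, q0, q1, G0, G1, hG⟩ := hg
  have h1 := (hG 1).2
  rw [G1, Matrix.det_smul, Fintype.card_fin] at h1
  have h2 : q.eval 1 ^ n ≠ 0 := pow_ne_zero _ q1
  exact mul_left_cancel₀ h2 (h1.trans (mul_one _).symm)

/-- Cayley transform -/
theorem Pth.cay {h : Matrix (Fin n) (Fin n) ℂ} (hh : h * h.transpose = 1)
    (hdet : (1 + h).det ≠ 0) : Pth h := by
  classical
  have hu : IsUnit (1 + h).det := isUnit_iff_ne_zero.2 hdet
  set P : Matrix (Fin n) (Fin n) ℂ := (1 + h)⁻¹ with hP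
  have hP1 : (1 + h) * P = 1 := Matrix.mul_nonsing_inv _ hu
  have hP2 : P * (1 + h) = 1 := Matrix.nonsing_inv_mul _ hu
  have hcomm : P * h = h * P := by
    have h1 : P * h = P * (h * ((1 + h) * P)) := by rw [hP1, Matrix.mul_one]
    have h2 : P * (h * ((1 + h) * P)) = (P * (1 + h)) * h * P := by
      have : h * (1 + h) = (1 + h) * h := by
        rw [Matrix.mul_add, Matrix.add_mul, Matrix.one_mul, Matrix.mul_one]
      rw [← Matrix.mul_assoc h, this]
      simp only [Matrix.mul_assoc]
    rw [h1, h2, hP2, Matrix.one_mul]
  have hh' : h.transpose * h = 1 := mul_eq_one_comm.1 hh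
  set A : Matrix (Fin n) (Fin n) ℂ := (1 - h) * P with hA
  have h1A : 1 + A = (2 : ℂ) • P := by
    have : 1 + A = (1 + h) * P + (1 - h) * P := by rw [hP1]
    rw [this, ← Matrix.add_mul]
    have : (1 + h + (1 - h) : Matrix (Fin n) (Fin n) ℂ) = (2 : ℂ) • 1 := by
      rw [two_smul]; abel
    rw [this, Matrix.smul_mul, Matrix.one_mul]
  have h1A' : 1 - A = (2 : ℂ) • (h * P) := by
    have : 1 - A = (1 + h) * P - (1 - h) * P := by rw [hP1]
    rw [this, ← Matrix.sub_mul]
    have : (1 + h - (1 - h) : Matrix (Fin n) (Fin n) ℂ) = (2 : ℂ) • h := by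
      rw [two_smul]; abel
    rw [this, Matrix.smul_mul]
  -- `A` is skew
  have hAt : A.transpose = -A := by
    have hPt : P.transpose = h * P := by
      have e1 : P.transpose * (1 + h.transpose) = 1 := by
        have := congrArg Matrix.transpose hP1
        rwa [Matrix.transpose_mul, Matrix.transpose_add, Matrix.transpose_one] at this
      have e2 : (1 + h.transpose) * (h * P) = 1 := by
        rw [← Matrix.mul_assoc, Matrix.add_mul, Matrix.one_mul, hh', add_comm h 1]
        exact hP1
      calc P.transpose = P.transpose * ((1 + h.transpose) * (h * P)) := by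
            rw [e2, Matrix.mul_one]
        _ = h * P := by rw [← Matrix.mul_assoc, e1, Matrix.one_mul]
    rw [hA, Matrix.transpose_mul, hPt, Matrix.transpose_sub, Matrix.transpose_one,
      Matrix.mul_sub, Matrix.mul_one, ← hcomm, Matrix.mul_assoc, hh, Matrix.mul_one,
      Matrix.sub_mul, Matrix.one_mul, ← hcomm, neg_sub]
  let Ap : Matrix (Fin n) (Fin n) (Polynomial ℂ) := (Polynomial.X : Polynomial ℂ) •
    (A.map (Polynomial.C : ℂ → Polynomial ℂ))
  have hAp : ∀ t : ℂ, Ap.map (Polynomial.eval t) = t • A := by
    intro t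
    ext i j
    simp only [Ap, Matrix.map_apply, Matrix.smul_apply, smul_eq_mul, Polynomial.eval_mul,
      Polynomial.eval_X, Polynomial.eval_C]
  have hadd : ∀ t : ℂ, (1 + Ap).map (Polynomial.eval t) = 1 + t • A := by
    intro t
    have := Matrix.map_add (Polynomial.evalRingHom t) (by intro a b; exact map_add _ a b) 1 Ap
    have h2 : (1 : Matrix (Fin n) (Fin n) (Polynomial ℂ)).map (Polynomial.evalRingHom t) = 1 :=
      Matrix.map_one _ (map_zero _) (map_one _)
    rw [h2] at this
    rw [← hAp]
    exact this
  have hsub : ∀ t : ℂ, (1 - Ap).map (Polynomial.eval t) = 1 - t • A := by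
    intro t
    have := Matrix.map_sub (Polynomial.evalRingHom t) (by intro a b; exact map_sub _ a b) 1 Ap
    have h2 : (1 : Matrix (Fin n) (Fin n) (Polynomial ℂ)).map (Polynomial.evalRingHom t) = 1 :=
      Matrix.map_one _ (map_zero _) (map_one _)
    rw [h2] at this
    rw [← hAp]
    exact this
  have hadj : ∀ t : ℂ, (1 + Ap).adjugate.map (Polynomial.eval t) = (1 + t • A).adjugate := by
    intro t
    have := RingHom.map_adjugate (Polynomial.evalRingHom t) (1 + Ap)
    rw [← hadd]
    exact this
  have hdt : ∀ t : ℂ, (1 + Ap).det.eval t = (1 + t • A).det := by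
    intro t
    have := RingHom.map_det (Polynomial.evalRingHom t) (1 + Ap)
    rw [← hadd]
    exact this
  have htr : ∀ t : ℂ, (1 + t • A).transpose = 1 - t • A := by
    intro t
    rw [Matrix.transpose_add, Matrix.transpose_one, Matrix.transpose_smul, hAt, smul_neg,
      sub_eq_add_neg]
  have hdt' : ∀ t : ℂ, (1 - t • A).det = (1 + t • A).det := by
    intro t
    rw [← htr, Matrix.det_transpose]
  have hG : ∀ t : ℂ, ((1 - Ap) * (1 + Ap).adjugate).map (Polynomial.eval t) =
      (1 - t • A) * (1 + t • A).adjugate := by
    intro t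
    rw [map_mul', hsub, hadj]
  refine ⟨(1 - Ap) * (1 + Ap).adjugate, (1 + Ap).det, ?_, ?_, ?_, ?_, fun t => ⟨?_, ?_⟩⟩
  · rw [hdt, zero_smul, add_zero, Matrix.det_one]
  · rw [hdt, one_smul, h1A, Matrix.det_smul]
    refine mul_ne_zero (pow_ne_zero _ two_ne_zero) ?_
    intro h0
    have := congrArg Matrix.det hP1
    rw [Matrix.det_mul, h0, mul_zero, Matrix.det_one] at this
    exact zero_ne_one this
  · rw [hG, zero_smul, add_zero, sub_zero, Matrix.adjugate_one, Matrix.one_mul]
  · rw [hG, hdt, one_smul, h1A', h1A, ← Matrix.mul_smul, Matrix.mul_assoc, Matrix.mul_adjugate,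
      Matrix.mul_smul, Matrix.mul_one]
  · rw [hG, hdt, Matrix.transpose_mul, Matrix.adjugate_transpose, htr]
    have h2 : (1 - t • A).transpose = 1 + t • A := by
      rw [← htr, Matrix.transpose_transpose]
    rw [h2]
    have h3 : (1 + t • A).adjugate * (1 - t • A).adjugate =
        (1 - t • A).adjugate * (1 + t • A).adjugate := by
      rw [← Matrix.adjugate_mul_distrib, ← Matrix.adjugate_mul_distrib]
      congr 1
      simp only [Matrix.mul_add, Matrix.add_mul, Matrix.mul_sub, Matrix.sub_mul, Matrix.one_mul,
        Matrix.mul_one]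
      abel
    calc (1 - t • A) * (1 + t • A).adjugate * ((1 - t • A).adjugate * (1 + t • A))
        = (1 - t • A) * ((1 + t • A).adjugate * (1 - t • A).adjugate) * (1 + t • A) := by
          simp only [Matrix.mul_assoc]
      _ = ((1 - t • A) * (1 - t • A).adjugate) * ((1 + t • A).adjugate * (1 + t • A)) := by
          rw [h3]; simp only [Matrix.mul_assoc]
      _ = (1 + t • A).det ^ 2 • 1 := by
          rw [Matrix.mul_adjugate, Matrix.adjugate_mul, hdt', Matrix.smul_mul, Matrix.one_mul,
            smul_smul, sq]
  · rw [hG, hdt, Matrix.det_mul, Matrix.det_adjugate, hdt', Fintype.card_fin]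
    rcases n with _ | m
    · simp
    · rw [← pow_succ']
      rfl

/-- rotation by `π` in a coordinate plane -/
theorem Pth.pair {i j : Fin n} (hij : i ≠ j) :
    Pth (Matrix.diagonal fun k => if k = i ∨ k = j then (-1 : ℂ) else 1) := by
  classical
  -- the quarter turn in the plane
  set h : Matrix (Fin n) (Fin n) ℂ := Matrix.of fun a b =>
    if a = i then (if b = j then 1 else 0) else
      if a = j then (if b = i then -1 else 0) else (if a = b then 1 else 0) with hh
  have hji : j ≠ i := fun h => hij h.symm
  have hsq : h * h = Matrix.diagonal fun k => if k = i ∨ k = j then (-1 : ℂ) else 1 := by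
    ext a b
    rw [Matrix.mul_apply, Matrix.diagonal_apply]
    by_cases ha : a = i
    · subst ha
      rw [Finset.sum_eq_single j]
      · simp only [hh, Matrix.of_apply, if_true, if_neg hji, one_mul, true_or]
        by_cases hb : b = a
        · subst hb; simp
        · rw [if_neg hb, if_neg (fun h => hb h.symm)]
      · intro c _ hc
        simp [hh, hc]
      · intro h; exact absurd (Finset.mem_univ _) h
    · by_cases ha' : a = j
      · subst ha'
        rw [Finset.sum_eq_single i]
        · simp only [hh, Matrix.of_apply, if_true, if_neg ha, or_true]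
          by_cases hb : b = a
          · subst hb; simp
          · rw [if_neg hb, if_neg (fun h => hb h.symm), mul_zero]
        · intro c _ hc
          simp [hh, hc, ha]
        · intro h; exact absurd (Finset.mem_univ _) h
      · rw [Finset.sum_eq_single a]
        · simp [hh, ha, ha']
        · intro c _ hc
          have hac : ¬ a = c := fun h => hc h.symm
          simp [hh, ha, ha', hac]
        · intro h; exact absurd (Finset.mem_univ _) h
  have htr : h.transpose = h * (h * h) := by
    rw [hsq]
    ext a b
    rw [Matrix.transpose_apply, Matrix.mul_diagonal]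
    simp only [hh, Matrix.of_apply]
    by_cases hb : b = i
    · subst hb
      rw [if_pos rfl, if_pos (Or.inl rfl)]
      by_cases ha : a = j
      · subst ha
        rw [if_pos rfl, if_neg hji, if_pos rfl, if_pos rfl]
        norm_num
      · rw [if_neg ha]
        by_cases ha2 : a = b
        · rw [if_pos ha2, if_neg hij]; ring
        · rw [if_neg ha2, if_neg ha, if_neg ha2]; ring
    · by_cases hb' : b = j
      · subst hb'
        rw [if_neg hb, if_pos rfl, if_pos (Or.inr rfl)]
        by_cases ha : a = i
        · subst ha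
          rw [if_pos rfl, if_pos rfl, if_pos rfl]
          ring
        · rw [if_neg ha, if_neg ha]
          by_cases ha2 : a = b
          · rw [if_pos ha2, if_neg hji]; ring
          · rw [if_neg ha2, if_neg ha2]; ring
      · rw [if_neg hb, if_neg hb', if_neg (not_or.2 ⟨hb, hb'⟩), mul_one]
        by_cases ha : a = i
        · rw [if_pos ha, if_neg hb', if_neg (fun h => hb (h.trans ha))]
        · by_cases ha' : a = j
          · rw [if_neg ha, if_pos ha', if_neg hb, if_neg (fun h => hb' (h.trans ha'))]
          · rw [if_neg ha, if_neg ha']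
            by_cases hab : b = a
            · rw [if_pos hab, if_pos hab.symm]
            · rw [if_neg hab, if_neg (fun h => hab h.symm)]
  have h4 : (h * h) * (h * h) = 1 := by
    rw [hsq, Matrix.diagonal_mul_diagonal, ← Matrix.diagonal_one]
    congr 1
    funext k
    split_ifs <;> norm_num
  have horth : h * h.transpose = 1 := by
    rw [htr, ← Matrix.mul_assoc]
    exact h4
  have hdet : (1 + h).det ≠ 0 := by
    -- `(1 + h) (1 - h) (1 + h ^ 2) + ... ` : `-1` is no eigenvalue of `h`
    intro h0
    obtain ⟨v, hv, hv2⟩ := Matrix.exists_mulVec_eq_zero_iff.2 h0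
    rw [Matrix.add_mulVec, Matrix.one_mulVec] at hv2
    have hhv : h *ᵥ v = -v := by
      have := hv2
      exact eq_neg_of_add_eq_zero_right this
    have hrow : ∀ a, (h *ᵥ v) a = if a = i then v j else if a = j then -v i else v a := by
      intro a
      have h1 : (h *ᵥ v) a = ∑ b, h a b * v b := rfl
      rw [h1]
      by_cases ha : a = i
      · rw [if_pos ha, Finset.sum_eq_single j]
        · simp [hh, ha]
        · intro c _ hc
          simp [hh, hc, ha]
        · intro h; exact absurd (Finset.mem_univ _) h
      · by_cases ha' : a = j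
        · rw [if_neg ha, if_pos ha', Finset.sum_eq_single i]
          · simp [hh, ha', hji]
          · intro c _ hc
            simp [hh, hc, ha', hji]
          · intro h; exact absurd (Finset.mem_univ _) h
        · rw [if_neg ha, if_neg ha', Finset.sum_eq_single a]
          · simp [hh, ha, ha']
          · intro c _ hc
            have hac : ¬ a = c := fun h => hc h.symm
            simp [hh, ha, ha', hac]
          · intro h; exact absurd (Finset.mem_univ _) h
    apply hv
    funext a
    have e1 := hrow a
    have ei := hrow i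
    have ej := hrow j
    rw [hhv] at e1 ei ej
    rw [if_pos rfl, Pi.neg_apply] at ei
    rw [if_neg hji, if_pos rfl, Pi.neg_apply] at ej
    have hvi : v i = 0 := by linear_combination (-1 / 2 : ℂ) * ei + (1 / 2 : ℂ) * ej
    have hvj : v j = 0 := by linear_combination (-1 : ℂ) * ej + hvi
    rw [Pi.neg_apply] at e1
    by_cases ha : a = i
    · rw [ha, hvi]; rfl
    · by_cases ha' : a = j
      · rw [ha', hvj]; rfl
      · rw [if_neg ha, if_neg ha'] at e1
        have : v a = 0 := by linear_combination (-1 / 2 : ℂ) * e1
        rw [this]; rfl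
  rw [← hsq]
  exact (Pth.cay horth hdet).mul (Pth.cay horth hdet)

/-- sign matrices of determinant one -/
theorem Pth.sign : ∀ (N : ℕ) (d : Fin n → ℂ), (∀ i, d i = 1 ∨ d i = -1) → ∏ i, d i = 1 →
    (Finset.univ.filter fun i => d i = -1).card ≤ N → Pth (Matrix.diagonal d) := by
  classical
  intro N
  induction N with
  | zero =>
    intro d hd _ hN
    have h1 : d = fun _ => 1 := by
      funext i
      rcases hd i with h | h
      · exact h
      · exfalso
        have : i ∈ Finset.univ.filter fun i => d i = -1 := by simp [h]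
        have := Finset.card_pos.2 ⟨i, this⟩
        omega
    rw [h1, Matrix.diagonal_one]
    exact Pth.one
  | succ N ih =>
    intro d hd hprod hN
    by_cases hall : ∀ i, d i = 1
    · have h1 : d = fun _ => 1 := funext hall
      rw [h1, Matrix.diagonal_one]
      exact Pth.one
    · push Not at hall
      obtain ⟨i, hi⟩ := hall
      have hi' : d i = -1 := (hd i).resolve_left hi
      obtain ⟨j, hji, hj⟩ : ∃ j, j ≠ i ∧ d j = -1 := by
        by_contra hcon
        push Not at hcon
        rw [← Finset.mul_prod_erase Finset.univ d (Finset.mem_univ i), hi',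
          Finset.prod_eq_one] at hprod
        · norm_num at hprod
        · intro j hj
          exact (hd j).resolve_right (hcon j (Finset.mem_erase.1 hj).1)
      set e : Fin n → ℂ := fun k => if k = i ∨ k = j then (-1 : ℂ) else 1 with he
      have hee : ∀ k, e k * e k = 1 := by
        intro k
        simp only [he]
        split_ifs <;> norm_num
      have hpe : ∏ k, e k = 1 := (by
        have := (Pth.pair (n := n) (i := i) (j := j) (fun h => hji h.symm)).det
        rwa [Matrix.det_diagonal] at this)
      have h2 : Matrix.diagonal d = Matrix.diagonal e * Matrix.diagonal fun k => e k * d k := by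
        rw [Matrix.diagonal_mul_diagonal]
        congr 1
        funext k
        rw [← mul_assoc, hee, one_mul]
      rw [h2]
      refine (Pth.pair (fun h => hji h.symm)).mul (ih _ ?_ ?_ ?_)
      · intro k
        simp only [he]
        rcases hd k with h | h <;> rw [h] <;> split_ifs <;> simp
      · rw [Finset.prod_mul_distrib, hpe, hprod, one_mul]
      · have h3 : (Finset.univ.filter fun k => e k * d k = -1) ⊆
            (Finset.univ.filter fun k => d k = -1).erase i := by
          intro k hk
          have hk' := (Finset.mem_filter.1 hk).2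
          refine Finset.mem_erase.2 ⟨?_, Finset.mem_filter.2 ⟨Finset.mem_univ _, ?_⟩⟩
          · rintro rfl
            simp only [he, true_or, if_true, hi'] at hk'
            norm_num at hk'
          · by_cases hk2 : k = i ∨ k = j
            · rcases hk2 with h | h
              · rw [h]; exact hi'
              · rw [h]; exact hj
            · simp only [he, if_neg hk2, one_mul] at hk'
              exact hk'
        have h4 := Finset.card_le_card h3
        have hmem : i ∈ Finset.univ.filter fun k => d k = -1 := by simp [hi']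
        rw [Finset.card_erase_of_mem hmem] at h4
        omega

theorem Pth.all {g : Matrix (Fin n) (Fin n) ℂ} (hg : g * g.transpose = 1) (hdet : g.det = 1) :
    Pth g := by
  classical
  obtain ⟨d, hd, hne⟩ := exists_sign n g
  set D : Matrix (Fin n) (Fin n) ℂ := Matrix.diagonal d with hD
  have hDD : D * D = 1 := by
    rw [hD, Matrix.diagonal_mul_diagonal, ← Matrix.diagonal_one]
    congr 1
    funext k
    rcases hd k with h | h <;> rw [h] <;> norm_num
  have hDt : D.transpose = D := Matrix.diagonal_transpose d
  have h1 : Pth (D * g) := by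
    refine Pth.cay ?_ ?_
    · rw [Matrix.transpose_mul, hDt]
      calc D * g * (g.transpose * D) = D * (g * g.transpose) * D := by
            simp only [Matrix.mul_assoc]
        _ = 1 := by rw [hg, Matrix.mul_one, hDD]
    · have h2 : 1 + D * g = D * (D + g) := by rw [Matrix.mul_add, hDD]
      rw [h2, Matrix.det_mul]
      refine mul_ne_zero ?_ hne
      intro h0
      have := congrArg Matrix.det hDD
      rw [Matrix.det_mul, h0, mul_zero, Matrix.det_one] at this
      exact zero_ne_one this
  have h2 : D.det = 1 := by
    have := h1.det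
    rwa [Matrix.det_mul, hdet, mul_one] at this
  have h3 : Pth D := by
    refine Pth.sign _ d hd ?_ le_rfl
    rw [← Matrix.det_diagonal]
    exact h2
  have h4 : g = D * (D * g) := by rw [← Matrix.mul_assoc, hDD, Matrix.one_mul]
  rw [h4]
  exact h3.mul h1

end Pa

open Pa

theorem so_path : S_PATH := by
  intro n J hJ hJd g hg hdet
  obtain ⟨S, hS, hSJ⟩ := so_one ℂ n J hJ hJd
  have hSu : IsUnit S.det := isUnit_iff_ne_zero.2 hS
  have hSS : S * S⁻¹ = 1 := Matrix.mul_nonsing_inv _ hSu
  have hSS' : S⁻¹ * S = 1 := Matrix.nonsing_inv_mul _ hSu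
  have hSt : (S⁻¹).transpose * S.transpose = 1 := by
    rw [← Matrix.transpose_mul, hSS, Matrix.transpose_one]
  have hSt' : S.transpose * (S⁻¹).transpose = 1 := by
    rw [← Matrix.transpose_mul, hSS', Matrix.transpose_one]
  have hJeq : S⁻¹ * (S⁻¹).transpose = J := by
    calc S⁻¹ * (S⁻¹).transpose = S⁻¹ * (S * J * S.transpose) * (S⁻¹).transpose := by
          rw [hSJ, Matrix.mul_one]
      _ = (S⁻¹ * S) * J * (S.transpose * (S⁻¹).transpose) := by simp only [Matrix.mul_assoc]
      _ = J := by rw [hSS', hSt', Matrix.one_mul, Matrix.mul_one]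
  have h1 : (S * g * S⁻¹) * (S * g * S⁻¹).transpose = 1 := by
    rw [Matrix.transpose_mul, Matrix.transpose_mul]
    calc S * g * S⁻¹ * ((S⁻¹).transpose * (g.transpose * S.transpose)) =
          S * (g * (S⁻¹ * (S⁻¹).transpose) * g.transpose) * S.transpose := by
          simp only [Matrix.mul_assoc]
      _ = 1 := by rw [hJeq, hg, hSJ]
  have h2 : (S * g * S⁻¹).det = 1 := by
    rw [Matrix.det_mul, Matrix.det_mul, hdet, mul_one, ← Matrix.det_mul, hSS, Matrix.det_one]
  obtain ⟨G, q, q0, q1, G0, G1, hG⟩ := Pth.all h1 h2
  have hmap : ∀ t : ℂ, ((S⁻¹).map Polynomial.C * G * S.map Polynomial.C).map (Polynomial.eval t) =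
      S⁻¹ * G.map (Polynomial.eval t) * S := by
    intro t
    rw [map_mul', map_mul', map_C, map_C]
  refine ⟨(S⁻¹).map Polynomial.C * G * S.map Polynomial.C, q, q0, q1, ?_, ?_, fun t => ⟨?_, ?_⟩⟩
  · rw [hmap, G0, Matrix.mul_one, hSS']
  · rw [hmap, G1, Matrix.mul_smul, Matrix.smul_mul]
    congr 1
    calc S⁻¹ * (S * g * S⁻¹) * S = (S⁻¹ * S) * g * (S⁻¹ * S) := by
          simp only [Matrix.mul_assoc]
      _ = g := by rw [hSS', Matrix.one_mul, Matrix.mul_one]
  · rw [hmap, Matrix.transpose_mul, Matrix.transpose_mul]
    calc S⁻¹ * G.map (Polynomial.eval t) * S * J *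
          (S.transpose * ((G.map (Polynomial.eval t)).transpose * (S⁻¹).transpose)) =
          S⁻¹ * (G.map (Polynomial.eval t) * (S * J * S.transpose) *
            (G.map (Polynomial.eval t)).transpose) * (S⁻¹).transpose := by
          simp only [Matrix.mul_assoc]
      _ = q.eval t ^ 2 • J := by
          rw [hSJ, Matrix.mul_one, (hG t).1, Matrix.mul_smul, Matrix.mul_one, Matrix.smul_mul,
            hJeq]
  · rw [hmap, Matrix.det_mul, Matrix.det_mul, (hG t).2]
    have h3 : S⁻¹.det * S.det = 1 := by rw [← Matrix.det_mul, hSS', Matrix.det_one]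
    linear_combination (q.eval t ^ n) * h3

end Pool.Agent.Helper6K9.OS
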